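import Mathlib

namespace RC14
open Filter Topology

lemma ev_le (a b C : ℝ) (h : a < b) : ∀ᶠ n : ℕ in atTop, C * (n : ℝ) ^ a ≤ (n : ℝ) ^ b := by
  have h1 : Tendsto (fun n : ℕ => (n : ℝ) ^ (b - a)) atTop atTop :=
    (tendsto_rpow_atTop (by linarith)).comp tendsto_natCast_atTop_atTop
  filter_upwards [h1.eventually_ge_atTop C, eventually_gt_atTop 0] with n hn hn0
  have hn' : (0 : ℝ) < n := by exact_mod_cast hn0
  calc C * (n : ℝ) ^ a ≤ (n : ℝ) ^ (b - a) * (n : ℝ) ^ a := by gcongr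
    _ = (n : ℝ) ^ b := by rw [← Real.rpow_add hn']; congr 1; ring

lemma ev_log (a b C : ℝ) (h : a < b) :
    ∀ᶠ n : ℕ in atTop, C * (n : ℝ) ^ a * Real.log n ≤ (n : ℝ) ^ b := by
  have h1 : Tendsto (fun x : ℝ => Real.log x / x ^ (b - a)) atTop (𝓝 0) :=
    (isLittleO_log_rpow_atTop (by linarith)).tendsto_div_nhds_zero
  have h2 : Tendsto (fun n : ℕ => Real.log n / (n : ℝ) ^ (b - a)) atTop (𝓝 0) :=
    h1.comp tendsto_natCast_atTop_atTop
  have h3 : ∀ᶠ n : ℕ in atTop, Real.log n / (n : ℝ) ^ (b - a) < 1 / (|C| + 1) :=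
    h2.eventually_lt_const (by positivity)
  filter_upwards [h3, eventually_gt_atTop 0] with n hn hn0
  have hn' : (0 : ℝ) < n := by exact_mod_cast hn0
  have hp : (0 : ℝ) < (n : ℝ) ^ (b - a) := Real.rpow_pos_of_pos hn' _
  have hlog : 0 ≤ Real.log n := Real.log_natCast_nonneg n
  rw [div_lt_div_iff₀ hp (by positivity)] at hn
  have hC : C ≤ |C| + 1 := by linarith [le_abs_self C]
  calc C * (n : ℝ) ^ a * Real.log n = (n : ℝ) ^ a * (Real.log n * C) := by ring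
    _ ≤ (n : ℝ) ^ a * (Real.log n * (|C| + 1)) := by gcongr
    _ ≤ (n : ℝ) ^ a * (1 * (n : ℝ) ^ (b - a)) := by gcongr
    _ = (n : ℝ) ^ b := by rw [one_mul, ← Real.rpow_add hn']; congr 1; ring

lemma ev_const (b C : ℝ) (h : 0 < b) : ∀ᶠ n : ℕ in atTop, C ≤ (n : ℝ) ^ b := by
  have := ev_le 0 b C h
  simpa using this

lemma ev_loggt (C : ℝ) : ∀ᶠ n : ℕ in atTop, C ≤ Real.log n :=
  (Real.tendsto_log_atTop.comp tendsto_natCast_atTop_atTop).eventually_ge_atTop C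

/-- the letter count per level -/
noncomputable def L1 (δ : ℝ) (n : ℕ) : ℕ := ⌈δ / 2 * Real.log n / Real.log 4⌉₊

lemma log4_pos : 0 < Real.log 4 := Real.log_pos (by norm_num)

lemma log4_ge : 1 ≤ Real.log 4 := by
  rw [Real.le_log_iff_exp_le (by norm_num)]
  have := Real.exp_one_lt_d9
  linarith

lemma four_L1_ge (δ : ℝ) (n : ℕ) (hn : 0 < n) : (n : ℝ) ^ (δ / 2) ≤ (4 : ℝ) ^ L1 δ n := by
  have hn' : (0 : ℝ) < n := by exact_mod_cast hn
  have h1 : δ / 2 * Real.log n / Real.log 4 ≤ L1 δ n := Nat.le_ceil _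
  rw [div_le_iff₀ log4_pos] at h1
  rw [Real.rpow_def_of_pos hn', ← Real.rpow_natCast, Real.rpow_def_of_pos (by norm_num : (0:ℝ) < 4)]
  apply Real.exp_le_exp.mpr
  linarith

lemma four_L1_le (δ : ℝ) (hδ : 0 ≤ δ) (n : ℕ) (hn : 0 < n) :
    (4 : ℝ) ^ L1 δ n ≤ 4 * (n : ℝ) ^ (δ / 2) := by
  have hn' : (0 : ℝ) < n := by exact_mod_cast hn
  have h0 : 0 ≤ δ / 2 * Real.log n / Real.log 4 := by
    have := Real.log_natCast_nonneg n
    have := log4_pos
    positivity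
  have h1 : (L1 δ n : ℝ) < δ / 2 * Real.log n / Real.log 4 + 1 := Nat.ceil_lt_add_one h0
  have h2 : (L1 δ n : ℝ) * Real.log 4 ≤ δ / 2 * Real.log n + Real.log 4 := by
    calc (L1 δ n : ℝ) * Real.log 4 ≤ (δ / 2 * Real.log n / Real.log 4 + 1) * Real.log 4 := by
          have := log4_pos
          gcongr
      _ = _ := by have := log4_pos; field_simp
  calc (4 : ℝ) ^ L1 δ n = Real.exp (Real.log 4 * L1 δ n) := by
        rw [← Real.rpow_natCast, Real.rpow_def_of_pos (by norm_num : (0:ℝ) < 4)]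
    _ ≤ Real.exp (Real.log 4 + Real.log n * (δ / 2)) := by
        apply Real.exp_le_exp.mpr; linarith
    _ = 4 * (n : ℝ) ^ (δ / 2) := by
        rw [Real.exp_add, Real.exp_log (by norm_num), Real.rpow_def_of_pos hn']

lemma L1_le (δ : ℝ) (hδ : 0 ≤ δ) (hδ1 : δ ≤ 1 / 4) :
    ∀ᶠ n : ℕ in atTop, (L1 δ n : ℝ) ≤ Real.log n := by
  filter_upwards [ev_loggt 2, eventually_gt_atTop 0] with n hn hn0
  have h0 : 0 ≤ δ / 2 * Real.log n / Real.log 4 := by
    have := Real.log_natCast_nonneg n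
    have := log4_pos
    positivity
  have h1 : (L1 δ n : ℝ) < δ / 2 * Real.log n / Real.log 4 + 1 := Nat.ceil_lt_add_one h0
  have h2 : δ / 2 * Real.log n / Real.log 4 ≤ 1 / 8 * Real.log n := by
    rw [div_le_iff₀ log4_pos]
    have h4 := log4_ge
    have hl : 0 ≤ Real.log n := Real.log_natCast_nonneg n
    have h8 : δ / 2 ≤ 1 / 8 := by linarith
    calc δ / 2 * Real.log n ≤ 1 / 8 * Real.log n * 1 := by
          rw [mul_one]; exact mul_le_mul_of_nonneg_right h8 hl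
      _ ≤ 1 / 8 * Real.log n * Real.log 4 := by gcongr
  linarith

/-- `(8/7)^{2 L1} ((1/4)^{L1} + 4 n^{-δ/2}) ≤ 10 n^{-2δ/5}` -/
lemma rho_le (δ : ℝ) (hδ : 0 < δ) (n : ℕ) (hn : 0 < n) :
    (8 / 7 : ℝ) ^ (2 * L1 δ n) * ((1 / 4 : ℝ) ^ L1 δ n + 4 * (n : ℝ) ^ (-(δ / 2))) ≤
      10 * (n : ℝ) ^ (-(2 * δ / 5)) := by
  have hn' : (0 : ℝ) < n := by exact_mod_cast hn
  have hn1 : (1 : ℝ) ≤ n := by exact_mod_cast hn
  have h1 : (1 / 4 : ℝ) ^ L1 δ n ≤ (n : ℝ) ^ (-(δ / 2)) := by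
    rw [one_div, inv_pow, Real.rpow_neg hn'.le]
    exact inv_anti₀ (Real.rpow_pos_of_pos hn' _) (four_L1_ge δ n hn)
  have h2 : (8 / 7 : ℝ) ^ (2 * L1 δ n) ≤ 2 * (n : ℝ) ^ (δ / 10) := by
    have h3 : ((8 / 7 : ℝ) ^ (2 * L1 δ n)) ^ 5 ≤ (2 * (n : ℝ) ^ (δ / 10)) ^ 5 := by
      calc ((8 / 7 : ℝ) ^ (2 * L1 δ n)) ^ 5 = ((8 / 7 : ℝ) ^ 10) ^ L1 δ n := by
            rw [← pow_mul, ← pow_mul]; congr 1; ring
        _ ≤ (4 : ℝ) ^ L1 δ n := by
            apply pow_le_pow_left₀ (by positivity)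
            norm_num
        _ ≤ 4 * (n : ℝ) ^ (δ / 2) := four_L1_le δ hδ.le n hn
        _ ≤ 2 ^ 5 * (n : ℝ) ^ (δ / 2) := by
            have : (0 : ℝ) ≤ (n : ℝ) ^ (δ / 2) := by positivity
            nlinarith
        _ = (2 * (n : ℝ) ^ (δ / 10)) ^ 5 := by
            rw [mul_pow, ← Real.rpow_natCast ((n : ℝ) ^ (δ / 10)), ← Real.rpow_mul hn'.le]
            congr 2
            push_cast; ring
    exact le_of_pow_le_pow_left₀ (by norm_num) (by positivity) h3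
  calc (8 / 7 : ℝ) ^ (2 * L1 δ n) * ((1 / 4 : ℝ) ^ L1 δ n + 4 * (n : ℝ) ^ (-(δ / 2)))
      ≤ (2 * (n : ℝ) ^ (δ / 10)) * ((n : ℝ) ^ (-(δ / 2)) + 4 * (n : ℝ) ^ (-(δ / 2))) := by
        gcongr
    _ = 10 * ((n : ℝ) ^ (δ / 10) * (n : ℝ) ^ (-(δ / 2))) := by ring
    _ = 10 * (n : ℝ) ^ (-(2 * δ / 5)) := by
        rw [← Real.rpow_add hn']; congr 2; ring

open Classical in
/-- counting in a product -/
lemma card_prod_bound {X Z : Type*} [Fintype X] [Fintype Z] (P : X → Prop) (Bad : X → Z → Prop)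
    (ε : ℝ) (hε : 0 ≤ ε)
    (h : ∀ x, P x → (Nat.card {z : Z // Bad x z} : ℝ) ≤ ε * Fintype.card Z) :
    (Nat.card {p : X × Z // Bad p.1 p.2} : ℝ) ≤
      Nat.card {x : X // ¬ P x} * Fintype.card Z + ε * Fintype.card X * Fintype.card Z := by
  have e1 : Nat.card {p : X × Z // Bad p.1 p.2} = ∑ x : X, Nat.card {z : Z // Bad x z} := by
    rw [Nat.card_congr (Equiv.subtypeProdEquivSigmaSubtype Bad), Nat.card_sigma]
  rw [e1]
  push_cast
  have e2 : ∀ x : X, (Nat.card {z : Z // Bad x z} : ℝ) ≤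
      (if ¬ P x then (Fintype.card Z : ℝ) else 0) + ε * Fintype.card Z := by
    intro x
    have hnn : 0 ≤ ε * (Fintype.card Z : ℝ) := by positivity
    by_cases hx : P x
    · simp only [hx, not_true_eq_false, if_false, zero_add]
      exact h x hx
    · simp only [hx, not_false_eq_true, if_true]
      have : (Nat.card {z : Z // Bad x z} : ℝ) ≤ Fintype.card Z := by
        rw [Nat.card_eq_fintype_card]
        exact_mod_cast Fintype.card_subtype_le _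
      linarith
  refine (Finset.sum_le_sum fun x _ => e2 x).trans ?_
  rw [Finset.sum_add_distrib, Finset.sum_ite, Finset.sum_const_zero, add_zero, Finset.sum_const,
    Finset.sum_const, nsmul_eq_mul, nsmul_eq_mul, Finset.card_univ]
  rw [Nat.card_eq_fintype_card, Fintype.card_subtype]
  apply le_of_eq
  ring

end RC14
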