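import Mathlib

/-!
Definitions for the project RC (random Cayley graphs of alternating groups), MP_75608d_al.
-/

namespace RC14
open scoped InnerProductSpace
open Finset

noncomputable section

/-! ### finite dimensional unitary representations -/
section Rep

variable {G : Type*} [Group G]
variable {V : Type*} [NormedAddCommGroup V] [InnerProductSpace ℂ V]

/-- the operator of the group element `g` as a linear endomorphism -/
def op (ρ : G →* (V ≃ₗᵢ[ℂ] V)) (g : G) : Module.End ℂ V :=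
  ((ρ g).toLinearEquiv : V →ₗ[ℂ] V)

@[simp] lemma op_apply (ρ : G →* (V ≃ₗᵢ[ℂ] V)) (g : G) (v : V) : op ρ g v = ρ g v := rfl

lemma op_one (ρ : G →* (V ≃ₗᵢ[ℂ] V)) : op ρ 1 = 1 := by
  ext v; simp [op]

lemma op_mul (ρ : G →* (V ≃ₗᵢ[ℂ] V)) (g h : G) : op ρ (g * h) = op ρ g * op ρ h := by
  ext v; simp [op]

/-- `W` is invariant under all operators of the representation `ρ` -/
def Inv (ρ : G →* (V ≃ₗᵢ[ℂ] V)) (W : Submodule ℂ V) : Prop :=
  ∀ g : G, ∀ v ∈ W, ρ g v ∈ W

/-- `W` is an irreducible invariant subspace -/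
def Irr (ρ : G →* (V ≃ₗᵢ[ℂ] V)) (W : Submodule ℂ V) : Prop :=
  W ≠ ⊥ ∧ Inv ρ W ∧ ∀ U : Submodule ℂ V, U ≤ W → Inv ρ U → U = ⊥ ∨ U = W

/-- the restriction of a unitary representation to an invariant subspace -/
def res (ρ : G →* (V ≃ₗᵢ[ℂ] V)) (W : Submodule ℂ V) (hW : Inv ρ W) :
    G →* (W ≃ₗᵢ[ℂ] W) where
  toFun g :=
    { toFun := fun w => ⟨ρ g w, hW g w w.2⟩
      invFun := fun w => ⟨ρ g⁻¹ w, hW g⁻¹ w w.2⟩
      map_add' := fun a b => by ext; simp
      map_smul' := fun c a => by ext; simp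
      left_inv := fun w => by
        ext
        change ρ g⁻¹ (ρ g w) = w
        rw [map_inv]
        exact (ρ g).symm_apply_apply _
      right_inv := fun w => by
        ext
        change ρ g (ρ g⁻¹ w) = w
        rw [map_inv]
        exact (ρ g).apply_symm_apply _
      norm_map' := fun w => by
        change ‖(⟨ρ g w, hW g w w.2⟩ : W)‖ = ‖w‖
        rw [Submodule.coe_norm, Submodule.coe_norm]
        exact (ρ g).norm_map _ }
  map_one' := by
    ext w
    change ρ 1 (w : V) = w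
    simp
  map_mul' g h := by
    ext w
    change ρ (g * h) (w : V) = ρ g (ρ h w)
    simp

@[simp] lemma res_apply (ρ : G →* (V ≃ₗᵢ[ℂ] V)) (W : Submodule ℂ V) (hW : Inv ρ W) (g : G)
    (w : W) : ((res ρ W hW g w : W) : V) = ρ g w := rfl

/-- conjugate operator `ρ(z) E ρ(z)⁻¹` -/
def cj (ρ : G →* (V ≃ₗᵢ[ℂ] V)) (E : Module.End ℂ V) (z : G) : Module.End ℂ V :=
  op ρ z * E * op ρ z⁻¹

/-- `T_x = (1/16) ∑_{i<8} (ρ(x_i) + ρ(x_i)⁻¹)` -/
def Tx (ρ : G →* (V ≃ₗᵢ[ℂ] V)) (x : Fin 8 → G) : Module.End ℂ V :=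
  (1 / 16 : ℂ) • ∑ i, (op ρ (x i) + op ρ (x i)⁻¹)

/-- real part of the trace -/
def rtr (A : Module.End ℂ V) : ℝ := (LinearMap.trace ℂ V A).re

/-- the character -/
def chr (ρ : G →* (V ≃ₗᵢ[ℂ] V)) (g : G) : ℂ := LinearMap.trace ℂ V (op ρ g)

/-- the character of an invariant subspace -/
def rchr (ρ : G →* (V ≃ₗᵢ[ℂ] V)) (W : Submodule ℂ V) (hW : Inv ρ W) (g : G) : ℂ :=
  chr (res ρ W hW) g

/-- a symmetric idempotent (orthogonal projection) -/
def SymIdem (E : Module.End ℂ V) : Prop := E.IsSymmetric ∧ E * E = E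

/-- the energy `∑_i ‖ρ(x_i) v - v‖²` -/
def En {ι : Type*} [Fintype ι] (ρ : G →* (V ≃ₗᵢ[ℂ] V)) (x : ι → G) (v : V) : ℝ :=
  ∑ i, ‖ρ (x i) v - v‖ ^ 2

/-- squared Hilbert-Schmidt norm -/
def hs [FiniteDimensional ℂ V] (A : Module.End ℂ V) : ℝ :=
  rtr (LinearMap.adjoint A * A)

end Rep

/-! ### permutation representations -/

/-- `j`-tuples of distinct points -/
abbrev Tup (j n : ℕ) := Fin j ↪ Fin n

/-- the alternating group as a type -/
abbrev Alt (n : ℕ) := alternatingGroup (Fin n)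

/-- functions on `j`-tuples of distinct points -/
abbrev V (j n : ℕ) := EuclideanSpace ℂ (Tup j n)

/-- moving a tuple by a permutation -/
def mv {j n : ℕ} (g : Equiv.Perm (Fin n)) (a : Tup j n) : Tup j n := a.trans g.toEmbedding

@[simp] lemma mv_apply {j n : ℕ} (g : Equiv.Perm (Fin n)) (a : Tup j n) (l : Fin j) :
    mv g a l = g (a l) := rfl

@[simp] lemma mv_one {j n : ℕ} (a : Tup j n) : mv 1 a = a := by ext; simp

lemma mv_mul {j n : ℕ} (g h : Equiv.Perm (Fin n)) (a : Tup j n) :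
    mv (g * h) a = mv g (mv h a) := by ext; simp

/-- `mv g` as a permutation of the set of tuples -/
def mvE {j n : ℕ} (g : Equiv.Perm (Fin n)) : Equiv.Perm (Tup j n) where
  toFun := mv g
  invFun := mv g⁻¹
  left_inv a := by rw [← mv_mul]; simp
  right_inv a := by rw [← mv_mul]; simp

/-- the permutation representation of `S_n` on functions on `j`-tuples:
`(rep g f)(a) = f(g⁻¹ a)` -/
def rep (j n : ℕ) : Equiv.Perm (Fin n) →* (V j n ≃ₗᵢ[ℂ] V j n) where
  toFun g := LinearIsometryEquiv.piLpCongrLeft 2 ℂ ℂ (mvE g)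
  map_one' := by
    ext f a
    simp [mvE, LinearIsometryEquiv.piLpCongrLeft_apply, Equiv.piCongrLeft', Equiv.symm]
  map_mul' g h := by
    ext f a
    simp [mvE, LinearIsometryEquiv.piLpCongrLeft_apply, Equiv.piCongrLeft', Equiv.symm, mv_mul]

lemma rep_apply {j n : ℕ} (g : Equiv.Perm (Fin n)) (f : V j n) (a : Tup j n) :
    rep j n g f a = f (mv g⁻¹ a) := by
  simp [rep, mvE, LinearIsometryEquiv.piLpCongrLeft_apply, Equiv.piCongrLeft', Equiv.symm]

/-- the same for `A_n` -/
def repA (j n : ℕ) : Alt n →* (V j n ≃ₗᵢ[ℂ] V j n) := (rep j n).comp (Subgroup.subtype _)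

lemma repA_apply {j n : ℕ} (g : Alt n) (f : V j n) (a : Tup j n) :
    repA j n g f a = f (mv (g : Equiv.Perm (Fin n))⁻¹ a) := rep_apply _ _ _

open Classical in
/-- extension of `f` by zero to all functions `Fin j → Fin n` -/
def ext0 {j n : ℕ} (f : V j n) (φ : Fin j → Fin n) : ℂ :=
  if h : Function.Injective φ then f ⟨φ, h⟩ else 0

lemma ext0_inj {j n : ℕ} (f : V j n) (a : Tup j n) : ext0 f a = f a := by
  have : Function.Injective (a : Fin j → Fin n) := a.injective
  simp [ext0, this]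

lemma ext0_not {j n : ℕ} (f : V j n) {φ : Fin j → Fin n} (h : ¬ Function.Injective φ) :
    ext0 f φ = 0 := by
  simp [ext0, h]

/-- the functions on `j`-tuples all of whose one-coordinate sums vanish -/
def Lvl (j n : ℕ) : Submodule ℂ (V j n) where
  carrier := {f | ∀ (φ : Fin j → Fin n) (l : Fin j), ∑ y, ext0 f (Function.update φ l y) = 0}
  zero_mem' := by
    intro φ l
    simp [ext0]
  add_mem' := by
    intro f g hf hg φ l
    have := congrArg₂ (· + ·) (hf φ l) (hg φ l)
    simp only [add_zero] at this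
    rw [← this, ← Finset.sum_add_distrib]
    refine Finset.sum_congr rfl fun y _ => ?_
    by_cases h : Function.Injective (Function.update φ l y) <;> simp [ext0, h]
  smul_mem' := by
    intro c f hf φ l
    have := congrArg (c * ·) (hf φ l)
    simp only [mul_zero] at this
    rw [← this, Finset.mul_sum]
    refine Finset.sum_congr rfl fun y _ => ?_
    by_cases h : Function.Injective (Function.update φ l y) <;> simp [ext0, h]

lemma mem_Lvl {j n : ℕ} {f : V j n} : f ∈ Lvl j n ↔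
    ∀ (φ : Fin j → Fin n) (l : Fin j), ∑ y, ext0 f (Function.update φ l y) = 0 := Iff.rfl

/-- number of fixed points -/
def nfix {n : ℕ} (g : Equiv.Perm (Fin n)) : ℕ := #{a | g a = a}

/-- every nontrivial word of length at most `ℓ` in the permutations `x` has fewer than `F`
fixed points -/
def FewFix (n ℓ F : ℕ) (x : Fin 8 → Equiv.Perm (Fin n)) : Prop :=
  ∀ u : FreeGroup (Fin 8), u ≠ 1 → u.norm ≤ ℓ → nfix (FreeGroup.lift x u) < F

/-! ### functions on the alternating group -/

/-- functions on `A_n` -/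
abbrev FA (n : ℕ) := EuclideanSpace ℂ (Alt n)

/-- right multiplication as a permutation of `A_n` -/
def rmE {n : ℕ} (g : Alt n) : Equiv.Perm (Alt n) := Equiv.mulRight g⁻¹

/-- right regular representation `(R(g) f)(h) = f(h g)` -/
def RR (n : ℕ) : Alt n →* (FA n ≃ₗᵢ[ℂ] FA n) where
  toFun g := LinearIsometryEquiv.piLpCongrLeft 2 ℂ ℂ (rmE g)
  map_one' := by
    ext f a
    simp only [rmE, LinearIsometryEquiv.piLpCongrLeft_apply, Equiv.piCongrLeft'_apply]
    simp
    rfl
  map_mul' g h := by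
    ext f a
    change f.ofLp ((rmE (g * h)).symm a) = f.ofLp ((rmE h).symm ((rmE g).symm a))
    simp [rmE, mul_assoc]

lemma RR_apply {n : ℕ} (g : Alt n) (f : FA n) (h : Alt n) : RR n g f h = f (h * g) := by
  simp [RR, rmE, LinearIsometryEquiv.piLpCongrLeft_apply, Equiv.piCongrLeft']

/-- the marginal `(marg κ f)(a) = ∑_{g : g⁻¹ κ = a} f(g)` -/
def marg {j n : ℕ} (κ : Tup j n) (f : FA n) : V j n :=
  WithLp.toLp 2 fun a => ∑ g : Alt n, if mv (g : Equiv.Perm (Fin n))⁻¹ κ = a then f g else 0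

/-- functions on `A_n` all of whose marginals of order `≤ m` vanish -/
def HH (m n : ℕ) : Submodule ℂ (FA n) where
  carrier := {f | ∀ j ≤ m, ∀ κ : Tup j n, marg κ f = 0}
  zero_mem' := by
    intro j _ κ
    ext a; simp [marg]
  add_mem' := by
    intro f g hf hg j hj κ
    have h1 := hf j hj κ
    have h2 := hg j hj κ
    have : marg κ (f + g) = marg κ f + marg κ g := by
      ext a
      simp only [marg, PiLp.add_apply]
      rw [← Finset.sum_add_distrib]
      refine Finset.sum_congr rfl fun y _ => ?_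
      split_ifs <;> simp
    rw [this, h1, h2, add_zero]
  smul_mem' := by
    intro c f hf j hj κ
    have h1 := hf j hj κ
    have : marg κ (c • f) = c • marg κ f := by
      ext a
      simp only [marg, PiLp.smul_apply, smul_eq_mul, Finset.mul_sum]
      refine Finset.sum_congr rfl fun y _ => ?_
      split_ifs <;> simp
    rw [this, h1, smul_zero]

/-! ### 3-cycles -/

/-- the 3-cycle `s 0 → s 1 → s 2 → s 0` -/
def c3 {n : ℕ} (s : Tup 3 n) : Alt n :=
  ⟨Equiv.swap (s 0) (s 1) * Equiv.swap (s 1) (s 2), by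
    have h1 : s 0 ≠ s 1 := fun h => by simpa using s.injective h
    have h2 : s 1 ≠ s 2 := fun h => by simpa using s.injective h
    simp [Equiv.Perm.mem_alternatingGroup, Equiv.Perm.sign_mul, Equiv.Perm.sign_swap h1,
      Equiv.Perm.sign_swap h2]⟩

/-- the product of two disjoint 3-cycles `(s0 s1 s2)(s3 s4 s5)` -/
def c33 {n : ℕ} (s : Tup 6 n) : Alt n :=
  c3 ((Fin.castLEEmb (by omega : 3 ≤ 6)).trans s) * c3 ((Fin.natAddEmb 3).trans s)

/-- the projection on the vectors fixed by the element `u` of order 3 -/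
def P3 {G : Type*} [Group G] {V : Type*} [NormedAddCommGroup V] [InnerProductSpace ℂ V]
    (ρ : G →* (V ≃ₗᵢ[ℂ] V)) (u : G) : Module.End ℂ V :=
  (1 / 3 : ℂ) • (1 + op ρ u + op ρ (u ^ 2))

/-! ### the statements -/

/-- the random walk operator: `(P f)(g) = (1/2k) ∑_i (f(g x_i) + f(g x_i⁻¹))` -/
def walk {G : Type*} [Group G] {k : ℕ} (x : Fin k → G) (f : G → ℝ) (g : G) : ℝ :=
  (∑ i, (f (g * x i) + f (g * (x i)⁻¹))) / (2 * k)

/-- `S = {x_i^{±1}}` is an `ε`-expanding generating set: `x` generates `G`, and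
`⟨f, P f⟩ ≤ (1 - ε) ⟨f, f⟩` for all `f` of mean zero, i.e. `1 - λ₂(S) ≥ ε` -/
def Expanding {G : Type*} [Group G] [Fintype G] {k : ℕ} (ε : ℝ) (x : Fin k → G) : Prop :=
  Subgroup.closure (Set.range x) = ⊤ ∧
    ∀ f : G → ℝ, ∑ g, f g = 0 → ∑ g, f g * walk x f g ≤ (1 - ε) * ∑ g, f g ^ 2

/-- the span of the real functions on `A_n` which are invariant under left multiplication by
the pointwise stabiliser of some set of at most `r` points -/
def lowLevel (n r : ℕ) : Submodule ℝ (Alt n → ℝ) :=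
  Submodule.span ℝ {f | ∃ K : Finset (Fin n), K.card ≤ r ∧
    ∀ h g : Alt n, (∀ a ∈ K, (h : Equiv.Perm (Fin n)) a = a) → f (h * g) = f g}

end

end RC14
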