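import Pool.Agent.H14R2.RC.Util

/-!
Further definitions for the project RC2: lazy walk operators and words.
-/

namespace RC14
open scoped InnerProductSpace
open Finset

noncomputable section

section
variable {G : Type*} [Group G]
variable {V : Type*} [NormedAddCommGroup V] [InnerProductSpace ℂ V]
variable {ι : Type*} [Fintype ι]

/-- the lazy walk operator `(1/2)(1 + (1/2k) ∑_i (ρ(y_i) + ρ(y_i)⁻¹))`, `k = #ι` -/
def TL (ρ : G →* (V ≃ₗᵢ[ℂ] V)) (y : ι → G) : Module.End ℂ V :=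
  (1 / 2 : ℂ) • (1 + (1 / (2 * (Fintype.card ι : ℂ))) • ∑ i, (op ρ (y i) + op ρ (y i)⁻¹))

/-- trace of a power of `TL` on an invariant subspace -/
def RtL (ρ : G →* (V ≃ₗᵢ[ℂ] V)) (W : Submodule ℂ V) (hW : Inv ρ W) (y : ι → G) (m : ℕ) : ℝ :=
  rtr (TL (res ρ W hW) y ^ m)

/-- a letter of the lazy walk: `y_i`, `y_i⁻¹`, `1`, `1` -/
def lt (y : ι → G) (s : ι × Fin 4) : G :=
  if s.2 = 0 then y s.1 else if s.2 = 1 then (y s.1)⁻¹ else 1

/-- value of a lazy word -/
def wd (y : ι → G) {L : ℕ} (w : Fin L → ι × Fin 4) : G := (List.ofFn fun t => lt y (w t)).prod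

end

end

end RC14
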