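import Pool.Agent.H14R2.RC.High
import Pool.Agent.H14R2.RC.Defs2
import Pool.Agent.H14R2.RC.S.AMP3
import Pool.Agent.H14R2.RC.S.WORDS

namespace RC14
open scoped InnerProductSpace
open Finset

section
variable {G : Type*} [Group G] [Fintype G]
variable {V : Type*} [NormedAddCommGroup V] [InnerProductSpace ℂ V] [FiniteDimensional ℂ V]

/-- weighted energies -/
def IsEn (ρ : G →* (V ≃ₗᵢ[ℂ] V)) (Φ : V → ℝ) : Prop :=
  ∃ (r : ℕ) (x : Fin r → G) (w : Fin r → ℝ), (∀ i, 0 ≤ w i) ∧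
    ∀ v, Φ v = ∑ t, w t * ‖ρ (x t) v - v‖ ^ 2

omit [Fintype G] [FiniteDimensional ℂ V] in
lemma IsEn.zero (ρ : G →* (V ≃ₗᵢ[ℂ] V)) : IsEn ρ (fun _ => 0) :=
  ⟨0, Fin.elim0, Fin.elim0, fun i => i.elim0, fun v => by simp⟩

omit [Fintype G] [FiniteDimensional ℂ V] in
lemma IsEn.add {ρ : G →* (V ≃ₗᵢ[ℂ] V)} {Φ Ψ : V → ℝ} (h1 : IsEn ρ Φ) (h2 : IsEn ρ Ψ) :
    IsEn ρ (fun v => Φ v + Ψ v) := by
  obtain ⟨r, x, w, hw, hΦ⟩ := h1
  obtain ⟨r', x', w', hw', hΨ⟩ := h2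
  refine ⟨r + r', Fin.append x x', Fin.append w w', ?_, ?_⟩
  · intro i
    induction i using Fin.addCases with
    | left i => simpa using hw i
    | right i => simpa using hw' i
  · intro v
    rw [Fin.sum_univ_add]
    simp [hΦ v, hΨ v]

omit [Fintype G] [FiniteDimensional ℂ V] in
lemma IsEn.smul {ρ : G →* (V ≃ₗᵢ[ℂ] V)} {Φ : V → ℝ} (c : ℝ) (hc : 0 ≤ c) (h1 : IsEn ρ Φ) :
    IsEn ρ (fun v => c * Φ v) := by
  obtain ⟨r, x, w, hw, hΦ⟩ := h1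
  refine ⟨r, x, fun i => c * w i, fun i => mul_nonneg hc (hw i), fun v => ?_⟩
  simp only [hΦ v, Finset.mul_sum]
  exact Finset.sum_congr rfl fun i _ => by ring

omit [Fintype G] [FiniteDimensional ℂ V] in
lemma IsEn.sum {ρ : G →* (V ≃ₗᵢ[ℂ] V)} {ι : Type*} (s : Finset ι) (Φ : ι → V → ℝ)
    (h : ∀ i, IsEn ρ (Φ i)) : IsEn ρ (fun v => ∑ i ∈ s, Φ i v) := by
  classical
  induction s using Finset.induction_on with
  | empty => simpa using IsEn.zero ρ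
  | insert a s ha ih =>
    have := (h a).add ih
    simpa [Finset.sum_insert ha] using this

omit [Fintype G] [FiniteDimensional ℂ V] in
lemma IsEn.single (ρ : G →* (V ≃ₗᵢ[ℂ] V)) (g : G) : IsEn ρ (fun v => ‖ρ g v - v‖ ^ 2) :=
  ⟨1, fun _ => g, fun _ => 1, fun _ => zero_le_one, fun v => by simp⟩

omit [Fintype G] [FiniteDimensional ℂ V] in
lemma IsEn.en {ι : Type*} [Fintype ι] (ρ : G →* (V ≃ₗᵢ[ℂ] V)) (x : ι → G) :
    IsEn ρ (En ρ x) :=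
  IsEn.sum Finset.univ (fun i v => ‖ρ (x i) v - v‖ ^ 2) fun i => IsEn.single ρ (x i)

/-- a decomposition of `M` into at most `D` types of irreducible subspaces -/
def Dec (ρ : G →* (V ≃ₗᵢ[ℂ] V)) (M : Submodule ℂ V) (D : ℕ) : Prop :=
  ∃ (N : ℕ) (W : Fin N → Submodule ℂ V), N ≤ D ∧
      (∀ i, Irr ρ (W i) ∧ W i ≤ M) ∧
      ∀ (r : ℕ) (x : Fin r → G) (w : Fin r → ℝ) (c : ℝ), (∀ i, 0 ≤ w i) →
        (∀ i, ∀ v ∈ W i, c * ‖v‖ ^ 2 ≤ ∑ t, w t * ‖ρ (x t) v - v‖ ^ 2) →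
        ∀ v ∈ M, c * ‖v‖ ^ 2 ≤ ∑ t, w t * ‖ρ (x t) v - v‖ ^ 2

omit [Fintype G] [FiniteDimensional ℂ V] in
/-- general union bound -/
theorem UBG (ρ : G →* (V ≃ₗᵢ[ℂ] V)) (M : Submodule ℂ V) (D : ℕ) (hdec : Dec ρ M D)
    {Z : Type*} [Finite Z] (Φ : Z → V → ℝ) (hΦ : ∀ z, IsEn ρ (Φ z)) (c B : ℝ) (hB0 : 0 ≤ B)
    (hB : ∀ W : Submodule ℂ V, Irr ρ W → W ≤ M →
      (Nat.card {z : Z // ¬ ∀ v ∈ W, c * ‖v‖ ^ 2 ≤ Φ z v} : ℝ) ≤ B) :
    (Nat.card {z : Z // ¬ ∀ v ∈ M, c * ‖v‖ ^ 2 ≤ Φ z v} : ℝ) ≤ D * B := by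
  obtain ⟨N, W, hN, hW, hdec⟩ := hdec
  have step : Nat.card {z : Z // ¬ ∀ v ∈ M, c * ‖v‖ ^ 2 ≤ Φ z v} ≤
      ∑ i, Nat.card {z : Z // ¬ ∀ v ∈ W i, c * ‖v‖ ^ 2 ≤ Φ z v} := by
    apply card_union
    intro z hz
    by_contra hcon
    push Not at hcon
    apply hz
    obtain ⟨r, x, w, hw, hE⟩ := hΦ z
    intro v hv
    rw [hE v]
    refine hdec r x w c hw (fun i v hv => ?_) v hv
    rw [← hE v]
    exact hcon i v hv
  calc (Nat.card {z : Z // ¬ ∀ v ∈ M, c * ‖v‖ ^ 2 ≤ Φ z v} : ℝ)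
      ≤ ∑ i, (Nat.card {z : Z // ¬ ∀ v ∈ W i, c * ‖v‖ ^ 2 ≤ Φ z v} : ℝ) := by
        exact_mod_cast step
    _ ≤ ∑ i : Fin N, B := Finset.sum_le_sum fun i _ => hB (W i) (hW i).1 (hW i).2
    _ = N * B := by simp
    _ ≤ D * B := by
        have : (N : ℝ) ≤ D := by exact_mod_cast hN
        gcongr

/-- `AMP3` for an invariant subspace with base operator `Tx` -/
theorem AMP3X (ρ : G →* (V ≃ₗᵢ[ℂ] V)) (W : Submodule ℂ V) (hW : Irr ρ W) (x : Fin 8 → G)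
    (L : ℕ) (η : ℝ) (hη : Rt ρ W hW.2.1 x (2 * L) ≤ η * Module.finrank ℂ W)
    (q R : ℕ) (hR : 1 ≤ R) (hq : 8 * R ≤ q) (Λ : ℝ) (hΛ : 8 * (R : ℝ) ≤ Λ)
    (hηΛ : (8 / 7 : ℝ) ^ (2 * L) * η ≤ Real.exp (-Λ))
    (hd : (Module.finrank ℂ W : ℝ) < Real.exp (Λ * ((q : ℝ) / (8 * R)) ^ R)) :
    (Nat.card {z : Fin R → Fin q → G // ¬ ∀ v ∈ W,
        1 * ‖v‖ ^ 2 ≤ 4 * En ρ x v + 48 * (R : ℝ) / q * ∑ r, En ρ (z r) v} : ℝ) ≤
      R * Real.exp (-(Λ * q / (8 * R))) * (Fintype.card G : ℝ) ^ (R * q) := by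
  have h := AMP3 (res ρ W hW.2.1) (AMP1.irr_res ρ W hW) (Tx (res ρ W hW.2.1) x)
    (AMP1.Tx_symm _ x) (fun v => by
      rw [AMP1.Tx_energy]
      have : 0 ≤ En (res ρ W hW.2.1) x v := RC14.En_nonneg _ _ _
      linarith) (7 / 8) (by norm_num) (by norm_num) L η hη q R hR hq Λ hΛ
      (by convert hηΛ using 3; norm_num) hd
  refine le_trans (le_of_eq ?_) h
  congr 3
  ext z
  have hEn : ∀ {ι : Type} [Fintype ι] (y : ι → G) (v : W),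
      En (res ρ W hW.2.1) y v = En ρ y (v : V) := by
    intro ι _ y v
    unfold En
    refine Finset.sum_congr rfl fun i _ => ?_
    rw [← res_apply ρ W hW.2.1 (y i) v, ← Submodule.coe_sub, Submodule.coe_norm]
  constructor
  · intro hh hcon
    apply hh
    intro v hv
    have := hcon ⟨v, hv⟩
    rw [AMP1.Tx_energy] at this
    simp only [hEn] at this
    rw [Submodule.coe_norm] at this
    simp only at this
    norm_num at this ⊢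
    linarith
  · intro hh hcon
    apply hh
    intro v
    have := hcon v v.2
    rw [AMP1.Tx_energy]
    simp only [hEn]
    rw [Submodule.coe_norm]
    norm_num at this ⊢
    linarith

/-- `AMP3` for an invariant subspace with base operator `TL` -/
theorem AMP3L (ρ : G →* (V ≃ₗᵢ[ℂ] V)) (W : Submodule ℂ V) (hW : Irr ρ W) (k : ℕ) (hk : 1 ≤ k)
    (y : Fin k → G) (ϑ : ℝ) (hϑ : 0 < ϑ) (hϑ1 : ϑ < 1)
    (L : ℕ) (η : ℝ) (hη : RtL ρ W hW.2.1 y (2 * L) ≤ η * Module.finrank ℂ W)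
    (q R : ℕ) (hR : 1 ≤ R) (hq : 8 * R ≤ q) (Λ : ℝ) (hΛ : 8 * (R : ℝ) ≤ Λ)
    (hηΛ : (1 / (1 - ϑ)) ^ (2 * L) * η ≤ Real.exp (-Λ))
    (hd : (Module.finrank ℂ W : ℝ) < Real.exp (Λ * ((q : ℝ) / (8 * R)) ^ R)) :
    (Nat.card {z : Fin R → Fin q → G // ¬ ∀ v ∈ W,
        1 * ‖v‖ ^ 2 ≤ 2 / (ϑ * k) * En ρ y v + 48 * (R : ℝ) / q * ∑ r, En ρ (z r) v} : ℝ) ≤
      R * Real.exp (-(Λ * q / (8 * R))) * (Fintype.card G : ℝ) ^ (R * q) := by
  have hk' : (0 : ℝ) < k := by exact_mod_cast hk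
  have h := AMP3 (res ρ W hW.2.1) (AMP1.irr_res ρ W hW) (TL (res ρ W hW.2.1) y)
    (TL_symm _ y) (fun v => by
      have h1 := TL_energy (res ρ W hW.2.1) hk y v
      have : 0 ≤ En (res ρ W hW.2.1) y v := RC14.En_nonneg _ _ _
      have : 0 ≤ En (res ρ W hW.2.1) y v / (4 * k) := by positivity
      linarith) (1 - ϑ) (by linarith) (by linarith) L η hη q R hR hq Λ hΛ hηΛ hd
  refine le_trans (le_of_eq ?_) h
  congr 3
  ext z
  have hEn : ∀ {ι : Type} [Fintype ι] (y : ι → G) (v : W),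
      En (res ρ W hW.2.1) y v = En ρ y (v : V) := by
    intro ι _ y v
    unfold En
    refine Finset.sum_congr rfl fun i _ => ?_
    rw [← res_apply ρ W hW.2.1 (y i) v, ← Submodule.coe_sub, Submodule.coe_norm]
  have hc : ∀ e : ℝ, 8 / (1 - (1 - ϑ)) * (e / (4 * k)) = 2 / (ϑ * k) * e := by
    intro e
    rw [show (1 : ℝ) - (1 - ϑ) = ϑ by ring]
    field_simp
    ring
  constructor
  · intro hh hcon
    apply hh
    intro v hv
    have := hcon ⟨v, hv⟩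
    rw [TL_energy _ hk, hc] at this
    simp only [hEn] at this
    rw [Submodule.coe_norm] at this
    simpa using this
  · intro hh hcon
    apply hh
    intro v
    have := hcon v v.2
    rw [TL_energy _ hk, hc]
    simp only [hEn]
    rw [Submodule.coe_norm]
    simpa using this

end

end RC14
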