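import Pool.Agent.H14R2.RC.Low
import Pool.Agent.H14R2.RC.S.AMP1
import Pool.Agent.H14R2.RC.S.AMP2
import Pool.Agent.H14R2.RC.S.HIGH
import Pool.Agent.H14R2.RC.S.EMB
import Pool.Agent.H14R2.RC.S.NOINV

namespace RC14
open scoped InnerProductSpace
open Finset

section
variable {G : Type*} [Group G] [Fintype G]
variable {V : Type*} [NormedAddCommGroup V] [InnerProductSpace ℂ V] [FiniteDimensional ℂ V]

/-- `HIGH` for an invariant subspace -/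
theorem HIGHSUB (n : ℕ) (hn : 1000 ≤ n) (ρ : Alt n →* (V ≃ₗᵢ[ℂ] V)) (W : Submodule ℂ V)
    (hW : Irr ρ W)
    (hno : ∀ K : Finset (Fin n), 100 * K.card ≤ n → ∀ v ∈ W,
      (∀ h : Alt n, (∀ a ∈ K, (h : Equiv.Perm (Fin n)) a = a) → ρ h v = v) → v = 0)
    (g : Alt n) (hg : 2 * nfix (g : Equiv.Perm (Fin n)) ≤ n) (m : ℕ) (hm : 100 * m ^ 2 ≤ n) :
    ‖rchr ρ W hW.2.1 g‖ ^ 2 ≤
      2 * (1 - 1 / 8400 : ℝ) ^ m * (Module.finrank ℂ W : ℝ) ^ 2 := by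
  refine HIGH n hn (res ρ W hW.2.1) (AMP1.irr_res ρ W hW) ?_ g hg m hm
  intro K hK v hv
  have := hno K hK (v : V) v.2 ?_
  · exact_mod_cast this
  · intro h hh
    have := hv h hh
    have := congrArg (Subtype.val) this
    simpa using this

/-- the quantity bounded below in the iterated amplification -/
noncomputable def E2 {q R : ℕ} (ρ : G →* (V ≃ₗᵢ[ℂ] V)) (x : Fin 8 → G) (z : Fin R → Fin q → G)
    (v : V) : ℝ := 1 / 2 * En ρ x v + 1 / (q : ℝ) * ∑ r, En ρ (z r) v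

/-- union bound over the components of an invariant subspace -/
theorem UB2 (ρ : G →* (V ≃ₗᵢ[ℂ] V)) (M : Submodule ℂ V) (D : ℕ)
    (hdec : ∃ (N : ℕ) (W : Fin N → Submodule ℂ V), N ≤ D ∧
      (∀ i, Irr ρ (W i) ∧ W i ≤ M) ∧
      ∀ (r : ℕ) (x : Fin r → G) (w : Fin r → ℝ) (c : ℝ), (∀ i, 0 ≤ w i) →
        (∀ i, ∀ v ∈ W i, c * ‖v‖ ^ 2 ≤ ∑ t, w t * ‖ρ (x t) v - v‖ ^ 2) →
        ∀ v ∈ M, c * ‖v‖ ^ 2 ≤ ∑ t, w t * ‖ρ (x t) v - v‖ ^ 2)
    (x : Fin 8 → G) (L : ℕ) (η : ℝ)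
    (hη : ∀ (W : Submodule ℂ V) (hW : Irr ρ W), W ≤ M →
      Rt ρ W hW.2.1 x (2 * L) ≤ η * Module.finrank ℂ W)
    (q R : ℕ) (hq : 8 ≤ q) (Λ : ℝ) (hΛ : 70 ≤ Λ)
    (hηΛ : (8 / 7 : ℝ) ^ (2 * L) * η ≤ Real.exp (-Λ))
    (hd : (Module.finrank ℂ M : ℝ) < Real.exp (Λ * (q / 8 : ℝ) ^ R)) :
    (Nat.card {z : Fin R → Fin q → G // ¬ ∀ v ∈ M,
        (1 / 4 : ℝ) ^ R * ‖v‖ ^ 2 ≤ E2 ρ x z v} : ℝ) ≤
      D * (R * Real.exp (-(Λ * q / 8)) * (Fintype.card G : ℝ) ^ (R * q)) := by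
  obtain ⟨N, W, hN, hW, hdec⟩ := hdec
  have step : Nat.card {z : Fin R → Fin q → G // ¬ ∀ v ∈ M,
        (1 / 4 : ℝ) ^ R * ‖v‖ ^ 2 ≤ E2 ρ x z v} ≤
      ∑ i, Nat.card {z : Fin R → Fin q → G // ¬ ∀ v ∈ W i,
        (1 / 4 : ℝ) ^ R * ‖v‖ ^ 2 ≤ E2 ρ x z v} := by
    apply card_union
    intro z hz
    by_contra hcon
    push Not at hcon
    apply hz
    intro v hv
    have key : ∀ v : V, ∑ t : Fin (8 + R * q),
        (Fin.append (fun _ : Fin 8 => (1 / 2 : ℝ)) (fun _ : Fin (R * q) => 1 / (q : ℝ)) t) *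
        ‖ρ (Fin.append x (fun t : Fin (R * q) =>
          z (finProdFinEquiv.symm t).1 (finProdFinEquiv.symm t).2) t) v - v‖ ^ 2 =
        E2 ρ x z v := by
      intro v
      rw [Fin.sum_univ_add]
      simp only [Fin.append_left, Fin.append_right]
      rw [← Finset.mul_sum, ← Finset.mul_sum, E2]
      congr 2
      simp only [En]
      rw [← Fintype.sum_prod_type' (f := fun r j => ‖ρ (z r j) v - v‖ ^ 2)]
      exact Fintype.sum_equiv finProdFinEquiv.symm _ _ fun t => rfl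
    have := hdec (8 + R * q) (Fin.append x (fun t : Fin (R * q) =>
          z (finProdFinEquiv.symm t).1 (finProdFinEquiv.symm t).2))
      (Fin.append (fun _ : Fin 8 => (1 / 2 : ℝ)) (fun _ : Fin (R * q) => 1 / (q : ℝ)))
      ((1 / 4 : ℝ) ^ R) ?_ ?_ v hv
    · rwa [key] at this
    · intro i
      induction i using Fin.addCases with
      | left i => simp
      | right i => simp
    · intro i v hv
      rw [key]
      exact hcon i v hv
  have hb : ∀ i, (Nat.card {z : Fin R → Fin q → G // ¬ ∀ v ∈ W i,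
        (1 / 4 : ℝ) ^ R * ‖v‖ ^ 2 ≤ E2 ρ x z v} : ℝ) ≤
      R * Real.exp (-(Λ * q / 8)) * (Fintype.card G : ℝ) ^ (R * q) := by
    intro i
    refine AMP2SUB ρ (W i) (hW i).1 x L η (hη (W i) (hW i).1 (hW i).2) q R hq Λ hΛ hηΛ ?_
    refine lt_of_le_of_lt ?_ hd
    exact_mod_cast Submodule.finrank_mono (hW i).2
  calc (Nat.card {z : Fin R → Fin q → G // ¬ ∀ v ∈ M,
        (1 / 4 : ℝ) ^ R * ‖v‖ ^ 2 ≤ E2 ρ x z v} : ℝ)
      ≤ ∑ i, (Nat.card {z : Fin R → Fin q → G // ¬ ∀ v ∈ W i,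
        (1 / 4 : ℝ) ^ R * ‖v‖ ^ 2 ≤ E2 ρ x z v} : ℝ) := by exact_mod_cast step
    _ ≤ ∑ i : Fin N, R * Real.exp (-(Λ * q / 8)) * (Fintype.card G : ℝ) ^ (R * q) :=
        Finset.sum_le_sum fun i _ => hb i
    _ = N * (R * Real.exp (-(Λ * q / 8)) * (Fintype.card G : ℝ) ^ (R * q)) := by
        simp
    _ ≤ D * (R * Real.exp (-(Λ * q / 8)) * (Fintype.card G : ℝ) ^ (R * q)) := by
        have : (N : ℝ) ≤ D := by exact_mod_cast hN
        gcongr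
end

/-- character bound for the irreducible subspaces of `HH j1 n` -/
theorem MIDHIGH (n j1 F m : ℕ) (hn : 1000 ≤ n)
    (hb : ∀ j, j1 < j → j ≤ n / 100 → bb j j1 n F ≤ Real.exp (-3)) (hF : 2 * F ≤ n)
    (hm : 100 * m ^ 2 ≤ n) (hm2 : 2 * (1 - 1 / 8400 : ℝ) ^ m ≤ Real.exp (-(6 * j1)))
    (W : Submodule ℂ (FA n)) (hW : Irr (RR n) W) (h1 : W ≤ HH j1 n) (g : Alt n)
    (hg : nfix (g : Equiv.Perm (Fin n)) ≤ F) :
    ‖rchr (RR n) W hW.2.1 g‖ ≤ Real.exp (-(3 * j1)) * Module.finrank ℂ W := by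
  by_cases h2 : W ≤ HH (n / 100) n
  · have h3 := HIGHSUB n hn (RR n) W hW ?_ g (by omega) m hm
    · have h4 : ‖rchr (RR n) W hW.2.1 g‖ ^ 2 ≤
          (Real.exp (-(3 * j1)) * Module.finrank ℂ W) ^ 2 := by
        refine h3.trans ?_
        rw [mul_pow, ← Real.exp_nat_mul]
        have : ((2 : ℕ) : ℝ) * (-(3 * (j1 : ℝ))) = -(6 * j1) := by push_cast; ring
        rw [this]
        gcongr
      exact le_of_sq_le_sq h4 (by positivity)
    · intro K hK v hv hinv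
      refine NOINV n (n / 100) v (h2 hv) K ?_ hinv
      rw [Nat.le_div_iff_mul_le (by norm_num)]
      omega
  · obtain ⟨j, hj1, hj2, U, hU, hUL, hdim, hchr⟩ := EMB n j1 (n / 100) W hW h1 h2
    rw [hchr g, ← hdim]
    have hj3 : 2 * j + 2 ≤ n := by omega
    refine (CHARB j j1 n F hj3 hj1.le U hU.2.1 hUL g hg).trans ?_
    have h5 : bb j j1 n F ^ j1 ≤ Real.exp (-(3 * j1)) := by
      calc bb j j1 n F ^ j1 ≤ (Real.exp (-3)) ^ j1 :=
            pow_le_pow_left₀ (bb_nonneg _ _ _ _) (hb j hj1 hj2) _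
        _ = Real.exp (-(3 * j1)) := by
            rw [← Real.exp_nat_mul]; congr 1; ring
    gcongr

/-- trace bound for the irreducible subspaces of `HH j1 n` -/
theorem HHTR (n j1 ℓ F m : ℕ) (hn : 1000 ≤ n)
    (hb : ∀ j, j1 < j → j ≤ n / 100 → bb j j1 n F ≤ Real.exp (-3)) (hF : 2 * F ≤ n)
    (hm : 100 * m ^ 2 ≤ n) (hm2 : 2 * (1 - 1 / 8400 : ℝ) ^ m ≤ Real.exp (-(6 * j1)))
    (hℓ : 2 * (3 * j1) ≤ ℓ) (x : Fin 8 → Alt n)
    (hx : FewFix n ℓ F (fun i => (x i : Equiv.Perm (Fin n))))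
    (W : Submodule ℂ (FA n)) (hW : Irr (RR n) W) (h1 : W ≤ HH j1 n) :
    Rt (RR n) W hW.2.1 x (2 * (3 * j1)) ≤
      ((1 / 4 : ℝ) ^ (3 * j1) + Real.exp (-(3 * j1))) * Module.finrank ℂ W := by
  refine TRWSUB (RR n) W hW.2.1 x (3 * j1) _ (by positivity) ?_
  intro u hu hul
  have h1' := hx u hu (hul.trans hℓ)
  have e : ((FreeGroup.lift x u : Alt n) : Equiv.Perm (Fin n)) =
      FreeGroup.lift (fun i => (x i : Equiv.Perm (Fin n))) u := by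
    have : (Subgroup.subtype (alternatingGroup (Fin n))).comp (FreeGroup.lift x) =
        FreeGroup.lift (fun i => (x i : Equiv.Perm (Fin n))) := by
      ext i
      simp
    exact DFunLike.congr_fun this u
  have h2 : nfix ((FreeGroup.lift x u : Alt n) : Equiv.Perm (Fin n)) ≤ F := by
    rw [e]; exact h1'.le
  exact MIDHIGH n j1 F m hn hb hF hm hm2 W hW h1 _ h2

lemma high_num (j1 : ℕ) (hj : 5 ≤ j1) :
    (8 / 7 : ℝ) ^ (2 * (3 * j1)) * ((1 / 4 : ℝ) ^ (3 * j1) + Real.exp (-(3 * j1))) ≤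
      Real.exp (-(2 * j1)) := by
  have e1 : (8 / 7 : ℝ) ^ 6 ≤ Real.exp (17 / 20) := by
    have h := Real.quadratic_le_exp_of_nonneg (show (0 : ℝ) ≤ 17 / 120 by norm_num)
    have h2 : (8 / 7 : ℝ) ≤ Real.exp (17 / 120) := by
      refine le_trans ?_ h
      norm_num
    calc (8 / 7 : ℝ) ^ 6 ≤ Real.exp (17 / 120) ^ 6 := pow_le_pow_left₀ (by norm_num) h2 _
      _ = Real.exp (17 / 20) := by
          rw [← Real.exp_nat_mul]; congr 1; norm_num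
  have e2 : (1 / 4 : ℝ) ^ 3 ≤ Real.exp (-3) := by
    rw [Real.exp_neg]
    have h : Real.exp 3 ≤ 64 := by
      have h1 := Real.exp_one_lt_d9
      have h3 : Real.exp 3 = Real.exp 1 ^ 3 := by
        rw [← Real.exp_nat_mul]; congr 1; norm_num
      rw [h3]
      calc Real.exp 1 ^ 3 ≤ 3 ^ 3 := pow_le_pow_left₀ (Real.exp_pos _).le (by linarith) _
        _ ≤ 64 := by norm_num
    calc (1 / 4 : ℝ) ^ 3 = 64⁻¹ := by norm_num
      _ ≤ (Real.exp 3)⁻¹ := inv_anti₀ (Real.exp_pos _) h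
  have h1 : (8 / 7 : ℝ) ^ (2 * (3 * j1)) ≤ Real.exp (17 / 20 * j1) := by
    rw [show 2 * (3 * j1) = 6 * j1 by ring, pow_mul, mul_comm, Real.exp_nat_mul]
    exact pow_le_pow_left₀ (by positivity) e1 _
  have h2 : (1 / 4 : ℝ) ^ (3 * j1) ≤ Real.exp (-(3 * j1)) := by
    rw [pow_mul, show -(3 * (j1 : ℝ)) = j1 * (-3) by ring, Real.exp_nat_mul]
    exact pow_le_pow_left₀ (by positivity) e2 _
  calc (8 / 7 : ℝ) ^ (2 * (3 * j1)) * ((1 / 4 : ℝ) ^ (3 * j1) + Real.exp (-(3 * j1)))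
      ≤ Real.exp (17 / 20 * j1) * (Real.exp (-(3 * j1)) + Real.exp (-(3 * j1))) := by gcongr
    _ = 2 * Real.exp (-(43 / 20 * j1)) := by
        rw [← two_mul, mul_left_comm, ← Real.exp_add]
        congr 2; ring
    _ ≤ Real.exp (3 / 20 * j1) * Real.exp (-(43 / 20 * j1)) := by
        have hj' : (5 : ℝ) ≤ j1 := by exact_mod_cast hj
        have h := Real.quadratic_le_exp_of_nonneg (show (0 : ℝ) ≤ 3 / 20 * j1 by positivity)
        have : (2 : ℝ) ≤ Real.exp (3 / 20 * j1) := by nlinarith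
        gcongr
    _ = Real.exp (-(2 * j1)) := by
        rw [← Real.exp_add]; congr 1; ring

end RC14
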