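import Pool.Agent.H14R2.RC.Util
import Pool.Agent.H14R2.RC.S.AMP1
import Pool.Agent.H14R2.RC.S.TRW
import Pool.Agent.H14R2.RC.S.CHAR
import Pool.Agent.H14R2.RC.S.CH3
import Pool.Agent.H14R2.RC.S.DECOMP

namespace RC14
open scoped InnerProductSpace
open Finset

/-- base of the character bound -/
noncomputable def bb (j j1 n F : ℕ) : ℝ :=
  2 * j / ((n - j : ℕ) : ℝ) + F / ((n - j : ℕ) : ℝ) + j1 / Real.sqrt ((n - j : ℕ) : ℝ)

lemma bb_nonneg (j j1 n F : ℕ) : 0 ≤ bb j j1 n F := by unfold bb; positivity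

theorem CHARB (j j1 n F : ℕ) (hj : 2 * j + 2 ≤ n) (h1 : j1 ≤ j) (W : Submodule ℂ (V j n))
    (hW : Inv (repA j n) W) (hL : W ≤ Lvl j n) (g : Alt n)
    (hF : nfix (g : Equiv.Perm (Fin n)) ≤ F) :
    ‖rchr (repA j n) W hW g‖ ≤ bb j j1 n F ^ j1 * Module.finrank ℂ W := by
  have a := CH1 j n hj W hW hL g
  have b := CH3 j j1 n F hj h1 g hF
  have hX : (0 : ℝ) < Fintype.card (Tup j n) := by exact_mod_cast card_Tup_pos (by omega)
  have hd : (0 : ℝ) ≤ Module.finrank ℂ W := by positivity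
  have c := a.trans (mul_le_mul_of_nonneg_left b hd)
  unfold bb
  have : ‖rchr (repA j n) W hW g‖ * Fintype.card (Tup j n) ≤
      ((2 * j / ((n - j : ℕ) : ℝ) + F / ((n - j : ℕ) : ℝ) +
        j1 / Real.sqrt ((n - j : ℕ) : ℝ)) ^ j1 * Module.finrank ℂ W) *
        Fintype.card (Tup j n) := by
    calc _ ≤ _ := c
      _ = _ := by ring
  exact le_of_mul_le_mul_right this hX

section
variable {G : Type*} [Group G] [Fintype G]
variable {V : Type*} [NormedAddCommGroup V] [InnerProductSpace ℂ V] [FiniteDimensional ℂ V]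

/-- union bound over the components of an invariant subspace -/
theorem UB1 (ρ : G →* (V ≃ₗᵢ[ℂ] V)) (M : Submodule ℂ V) (hM : Inv ρ M) (x : Fin 8 → G)
    (L : ℕ) (η : ℝ) (hη0 : 0 ≤ η)
    (hη : ∀ (W : Submodule ℂ V) (hW : Irr ρ W), W ≤ M →
      Rt ρ W hW.2.1 x (2 * L) ≤ η * Module.finrank ℂ W)
    (D : ℕ) (hD : Module.finrank ℂ M ≤ D) (q : ℕ) (hq : 1 ≤ q) :
    (Nat.card {z : Fin q → G // ¬ ∀ v ∈ M,
        1 / (16 * (q : ℝ) ^ 2) * ‖v‖ ^ 2 ≤ En ρ x v + En ρ z v} : ℝ) ≤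
      4 * (D : ℝ) ^ 2 * ((8 / 7 : ℝ) ^ (2 * L) * η) ^ q * (Fintype.card G : ℝ) ^ q := by
  obtain ⟨N, W, hN, hW, hdec⟩ := DECOMP ρ M hM
  have step : Nat.card {z : Fin q → G // ¬ ∀ v ∈ M,
        1 / (16 * (q : ℝ) ^ 2) * ‖v‖ ^ 2 ≤ En ρ x v + En ρ z v} ≤
      ∑ i, Nat.card {z : Fin q → G // ¬ ∀ v ∈ W i,
        1 / (16 * (q : ℝ) ^ 2) * ‖v‖ ^ 2 ≤ En ρ x v + En ρ z v} := by
    apply card_union
    intro z hz
    by_contra hcon
    push Not at hcon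
    apply hz
    intro v hv
    have key : ∀ v : V, ∑ t, (1 : ℝ) * ‖ρ (Fin.append x z t) v - v‖ ^ 2 =
        En ρ x v + En ρ z v := by
      intro v
      rw [← En_append]
      simp [En]
    have := hdec (8 + q) (Fin.append x z) (fun _ => 1) (1 / (16 * (q : ℝ) ^ 2))
      (fun _ => zero_le_one) ?_ v hv
    · rwa [key] at this
    · intro i v hv
      rw [key]
      exact hcon i v hv
  have hb : ∀ i, (Nat.card {z : Fin q → G // ¬ ∀ v ∈ W i,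
        1 / (16 * (q : ℝ) ^ 2) * ‖v‖ ^ 2 ≤ En ρ x v + En ρ z v} : ℝ) ≤
      4 * D * ((8 / 7 : ℝ) ^ (2 * L) * η) ^ q * (Fintype.card G : ℝ) ^ q := by
    intro i
    refine (AMP1SUB ρ (W i) (hW i).1 x L η (hη (W i) (hW i).1 (hW i).2) q hq).trans ?_
    have : (Module.finrank ℂ (W i) : ℝ) ≤ D := by
      exact_mod_cast (Submodule.finrank_mono (hW i).2).trans hD
    gcongr
  calc (Nat.card {z : Fin q → G // ¬ ∀ v ∈ M,
        1 / (16 * (q : ℝ) ^ 2) * ‖v‖ ^ 2 ≤ En ρ x v + En ρ z v} : ℝ)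
      ≤ ∑ i, (Nat.card {z : Fin q → G // ¬ ∀ v ∈ W i,
        1 / (16 * (q : ℝ) ^ 2) * ‖v‖ ^ 2 ≤ En ρ x v + En ρ z v} : ℝ) := by exact_mod_cast step
    _ ≤ ∑ i : Fin N, 4 * D * ((8 / 7 : ℝ) ^ (2 * L) * η) ^ q * (Fintype.card G : ℝ) ^ q :=
        Finset.sum_le_sum fun i _ => hb i
    _ = N * (4 * D * ((8 / 7 : ℝ) ^ (2 * L) * η) ^ q * (Fintype.card G : ℝ) ^ q) := by
        simp
    _ ≤ D * (4 * D * ((8 / 7 : ℝ) ^ (2 * L) * η) ^ q * (Fintype.card G : ℝ) ^ q) := by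
        have : (N : ℝ) ≤ D := by exact_mod_cast hN.trans hD
        gcongr
    _ = _ := by ring
end

section
variable {G : Type*} [Group G] [Fintype G]
variable {V : Type*} [NormedAddCommGroup V] [InnerProductSpace ℂ V] [FiniteDimensional ℂ V]

theorem TRWSUB (ρ : G →* (V ≃ₗᵢ[ℂ] V)) (W : Submodule ℂ V) (hW : Inv ρ W) (x : Fin 8 → G)
    (L : ℕ) (β : ℝ) (hβ : 0 ≤ β)
    (h : ∀ u : FreeGroup (Fin 8), u ≠ 1 → u.norm ≤ 2 * L →
      ‖rchr ρ W hW (FreeGroup.lift x u)‖ ≤ β * Module.finrank ℂ W) :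
    Rt ρ W hW x (2 * L) ≤ ((1 / 4 : ℝ) ^ L + β) * Module.finrank ℂ W :=
  TRW (res ρ W hW) x L β hβ h
end

/-- the trace bound for irreducible subspaces of `Lvl j n` -/
theorem LVLTR (n j L1 ℓ F : ℕ) (hj : 2 * j + 2 ≤ n) (hL : 2 * (j * L1) ≤ ℓ)
    (x : Fin 8 → Alt n) (hx : FewFix n ℓ F (fun i => (x i : Equiv.Perm (Fin n))))
    (b : ℝ) (hb : bb j j n F ≤ b) (W : Submodule ℂ (V j n)) (hW : Irr (repA j n) W)
    (hWL : W ≤ Lvl j n) :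
    Rt (repA j n) W hW.2.1 x (2 * (j * L1)) ≤
      ((1 / 4 : ℝ) ^ (j * L1) + b ^ j) * Module.finrank ℂ W := by
  have hb0 : 0 ≤ b := (bb_nonneg j j n F).trans hb
  refine TRWSUB (repA j n) W hW.2.1 x (j * L1) (b ^ j) (by positivity) ?_
  intro u hu hul
  have h1 := hx u hu (hul.trans hL)
  have e : ((FreeGroup.lift x u : Alt n) : Equiv.Perm (Fin n)) =
      FreeGroup.lift (fun i => (x i : Equiv.Perm (Fin n))) u := by
    have : (Subgroup.subtype (alternatingGroup (Fin n))).comp (FreeGroup.lift x) =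
        FreeGroup.lift (fun i => (x i : Equiv.Perm (Fin n))) := by
      ext i
      simp
    exact DFunLike.congr_fun this u
  have h2 : nfix ((FreeGroup.lift x u : Alt n) : Equiv.Perm (Fin n)) ≤ F := by
    rw [e]; exact h1.le
  refine (CHARB j j n F hj le_rfl W hW.2.1 hWL _ h2).trans ?_
  have := bb_nonneg j j n F
  gcongr

/-- all levels `1 ≤ j ≤ m` at once -/
theorem R1FIN (n m ℓ F q L1 : ℕ) (b : ℝ) (hm : 2 * m + 2 ≤ n) (hL : 2 * (m * L1) ≤ ℓ)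
    (hb : ∀ j, 1 ≤ j → j ≤ m → bb j j n F ≤ b) (hb0 : 0 ≤ b) (x : Fin 8 → Alt n)
    (hx : FewFix n ℓ F (fun i => (x i : Equiv.Perm (Fin n)))) (hq : 1 ≤ q) :
    (Nat.card {z : Fin q → Alt n // ¬ ∀ j, 1 ≤ j → j ≤ m → ∀ v ∈ Lvl j n,
        1 / (16 * (q : ℝ) ^ 2) * ‖v‖ ^ 2 ≤ En (repA j n) x v + En (repA j n) z v} : ℝ) ≤
      ∑ j ∈ Finset.Icc 1 m,
        4 * ((n : ℝ) ^ 2 * ((8 / 7 : ℝ) ^ (2 * L1) * ((1 / 4 : ℝ) ^ L1 + b)) ^ q) ^ j *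
          (Fintype.card (Alt n) : ℝ) ^ q := by
  have step : Nat.card {z : Fin q → Alt n // ¬ ∀ j, 1 ≤ j → j ≤ m → ∀ v ∈ Lvl j n,
        1 / (16 * (q : ℝ) ^ 2) * ‖v‖ ^ 2 ≤ En (repA j n) x v + En (repA j n) z v} ≤
      ∑ j ∈ Finset.Icc 1 m, Nat.card {z : Fin q → Alt n // ¬ ∀ v ∈ Lvl j n,
        1 / (16 * (q : ℝ) ^ 2) * ‖v‖ ^ 2 ≤ En (repA j n) x v + En (repA j n) z v} := by
    apply card_union_fin
    intro z hz
    by_contra hcon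
    push Not at hcon
    exact hz fun j h1 h2 => hcon j (Finset.mem_Icc.mpr ⟨h1, h2⟩)
  refine (show (Nat.card {z : Fin q → Alt n // ¬ ∀ j, 1 ≤ j → j ≤ m → ∀ v ∈ Lvl j n,
        1 / (16 * (q : ℝ) ^ 2) * ‖v‖ ^ 2 ≤ En (repA j n) x v + En (repA j n) z v} : ℝ) ≤
      ∑ j ∈ Finset.Icc 1 m, (Nat.card {z : Fin q → Alt n // ¬ ∀ v ∈ Lvl j n,
        1 / (16 * (q : ℝ) ^ 2) * ‖v‖ ^ 2 ≤ En (repA j n) x v + En (repA j n) z v} : ℝ) by
          exact_mod_cast step).trans ?_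
  refine Finset.sum_le_sum fun j hj => ?_
  rw [Finset.mem_Icc] at hj
  have hj2 : 2 * j + 2 ≤ n := by omega
  have hL2 : 2 * (j * L1) ≤ ℓ := le_trans (by gcongr; exact hj.2) hL
  have hbj := hb j hj.1 hj.2
  refine (UB1 (repA j n) (Lvl j n) (Lvl_inv j n) x (j * L1) ((1 / 4 : ℝ) ^ (j * L1) + b ^ j) (by positivity)
    (fun W hW hWL => LVLTR n j L1 ℓ F hj2 hL2 x hx b hbj W hW hWL) (n ^ j)
    (finrank_le_pow _) q hq).trans ?_
  · have key : (8 / 7 : ℝ) ^ (2 * (j * L1)) * ((1 / 4 : ℝ) ^ (j * L1) + b ^ j) ≤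
        ((8 / 7 : ℝ) ^ (2 * L1) * ((1 / 4 : ℝ) ^ L1 + b)) ^ j := by
      rw [mul_pow, ← pow_mul, show 2 * (j * L1) = 2 * L1 * j by ring,
        show j * L1 = L1 * j by ring, pow_mul (1 / 4 : ℝ) L1 j]
      gcongr
      exact pow_add_pow_le (by positivity) hb0 (by omega)
    have key2 : ((8 / 7 : ℝ) ^ (2 * (j * L1)) * ((1 / 4 : ℝ) ^ (j * L1) + b ^ j)) ^ q ≤
        (((8 / 7 : ℝ) ^ (2 * L1) * ((1 / 4 : ℝ) ^ L1 + b)) ^ j) ^ q := by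
      gcongr
    have e1 : ((n ^ j : ℕ) : ℝ) ^ 2 = ((n : ℝ) ^ 2) ^ j := by push_cast; ring
    rw [e1, mul_pow ((n : ℝ) ^ 2), ← pow_mul _ q j, mul_comm q j, pow_mul _ j q, ← mul_assoc 4]
    gcongr

end RC14
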