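import Pool.Agent.H14R2.RC.Low
import Pool.Agent.H14R2.RC.Asy
import Pool.Agent.H14R2.RC.S.EXPO2
import Pool.Agent.H14R2.RC.S.FRLOW

namespace RC14
open scoped InnerProductSpace
open Finset Filter Topology

/-- number of levels -/
noncomputable def mm (δ : ℝ) (n : ℕ) : ℕ := ⌊(n : ℝ) ^ (1 / 3 - δ)⌋₊
/-- word length -/
noncomputable def ll (δ : ℝ) (n : ℕ) : ℕ := ⌊(n : ℝ) ^ (1 / 3 - δ / 2)⌋₊
/-- number of fixed points -/
noncomputable def FF (δ : ℝ) (n : ℕ) : ℕ := ⌈(n : ℝ) ^ (1 - δ / 2)⌉₊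

lemma mm_le (δ : ℝ) (n : ℕ) : (mm δ n : ℝ) ≤ (n : ℝ) ^ (1 / 3 - δ) :=
  Nat.floor_le (by positivity)

lemma A1 (δ : ℝ) (hδ : 0 < δ) : ∀ᶠ n : ℕ in atTop, 4 * (mm δ n : ℝ) + 4 ≤ n := by
  filter_upwards [ev_le (1 / 3 - δ) 1 8 (by linarith), eventually_ge_atTop 8] with n h1 h2
  have h3 := mm_le δ n
  have h4 : (8 : ℝ) ≤ n := by exact_mod_cast h2
  rw [Real.rpow_one] at h1
  linarith

lemma A2 (δ : ℝ) (hδ : 0 < δ) (hδ1 : δ ≤ 1 / 4) :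
    ∀ᶠ n : ℕ in atTop, 2 * (mm δ n * L1 δ n) ≤ ll δ n := by
  filter_upwards [ev_log (1 / 3 - δ) (1 / 3 - δ / 2) 4 (by linarith),
    ev_const (1 / 3 - δ / 2) 2 (by linarith), L1_le δ hδ.le hδ1] with n h1 h2 h3
  have h4 := mm_le δ n
  have h5 : (n : ℝ) ^ (1 / 3 - δ / 2) < (ll δ n : ℝ) + 1 := Nat.lt_floor_add_one _
  have h6 : (mm δ n : ℝ) * L1 δ n ≤ (n : ℝ) ^ (1 / 3 - δ) * Real.log n := by gcongr
  have h7 : (2 : ℝ) * (mm δ n * L1 δ n) < ll δ n := by linarith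
  exact_mod_cast h7.le

lemma A3 (δ : ℝ) (hδ : 0 < δ) (hδ1 : δ ≤ 1 / 4) :
    ∀ᶠ n : ℕ in atTop, ∀ j, 1 ≤ j → j ≤ mm δ n → bb j j n (FF δ n) ≤ 4 * (n : ℝ) ^ (-(δ / 2)) := by
  filter_upwards [A1 δ hδ, ev_le (1 / 3 - δ - 1) (-(δ / 2)) 12 (by linarith),
    ev_le (-1) (-(δ / 2)) 12 (by linarith),
    ev_le (1 / 3 - δ - 1 / 2) (-(δ / 2)) 6 (by linarith), eventually_ge_atTop 1]
    with n h1 h2 h3 h4 h5 j hj1 hj2
  have hn : (0 : ℝ) < n := by exact_mod_cast h5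
  have hm := mm_le δ n
  have hjm : (j : ℝ) ≤ mm δ n := by exact_mod_cast hj2
  have hj : (j : ℝ) ≤ (n : ℝ) ^ (1 / 3 - δ) := hjm.trans hm
  have hjn : j ≤ n := by
    have : (j : ℝ) ≤ n := by linarith [Nat.cast_nonneg (α := ℝ) (mm δ n)]
    exact_mod_cast this
  have hN : (n : ℝ) / 2 ≤ ((n - j : ℕ) : ℝ) := by
    rw [Nat.cast_sub hjn]
    linarith
  have hN0 : (0 : ℝ) < ((n - j : ℕ) : ℝ) := by linarith
  set y : ℝ := (n : ℝ) ^ (-(δ / 2)) with hy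
  have hy0 : 0 < y := Real.rpow_pos_of_pos hn _
  have t1 : 2 * (j : ℝ) / ((n - j : ℕ) : ℝ) ≤ y / 3 := by
    rw [div_le_iff₀ hN0]
    calc 2 * (j : ℝ) ≤ 2 * (n : ℝ) ^ (1 / 3 - δ) := by gcongr
      _ = 2 * ((n : ℝ) ^ (1 / 3 - δ - 1) * n) := by
          rw [Real.rpow_sub_one hn.ne']; field_simp
      _ ≤ 2 * ((y / 12) * n) := by gcongr; linarith
      _ = y / 3 * (n / 2) := by ring
      _ ≤ y / 3 * ((n - j : ℕ) : ℝ) := by gcongr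
  have t2 : (FF δ n : ℝ) / ((n - j : ℕ) : ℝ) ≤ 2 * y + y / 3 := by
    rw [div_le_iff₀ hN0]
    have hF : (FF δ n : ℝ) < (n : ℝ) ^ (1 - δ / 2) + 1 := Nat.ceil_lt_add_one (by positivity)
    have e1 : (n : ℝ) ^ (1 - δ / 2) = y * n := by
      rw [hy, show (1 : ℝ) - δ / 2 = -(δ / 2) + 1 by ring, Real.rpow_add_one hn.ne']
    have e2 : (1 : ℝ) ≤ y / 12 * n := by
      have : 12 * (n : ℝ) ^ (-1 : ℝ) * n ≤ y * n := by gcongr
      rw [Real.rpow_neg_one, mul_assoc, inv_mul_cancel₀ hn.ne'] at this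
      linarith
    calc (FF δ n : ℝ) ≤ y * n + y / 12 * n := by linarith
      _ ≤ (2 * y + y / 3) * (n / 2) := by nlinarith
      _ ≤ (2 * y + y / 3) * ((n - j : ℕ) : ℝ) := by gcongr
  have t3 : (j : ℝ) / Real.sqrt ((n - j : ℕ) : ℝ) ≤ y / 3 := by
    have hs : (n : ℝ) ^ (1 / 2 : ℝ) / 2 ≤ Real.sqrt ((n - j : ℕ) : ℝ) := by
      apply Real.le_sqrt_of_sq_le
      rw [div_pow, ← Real.rpow_natCast, ← Real.rpow_mul hn.le]
      norm_num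
      linarith
    have hp : (0 : ℝ) < (n : ℝ) ^ (1 / 2 : ℝ) := Real.rpow_pos_of_pos hn _
    rw [div_le_iff₀ (by linarith)]
    calc (j : ℝ) ≤ (n : ℝ) ^ (1 / 3 - δ) := hj
      _ = (n : ℝ) ^ (1 / 3 - δ - 1 / 2) * (n : ℝ) ^ (1 / 2 : ℝ) := by
          rw [← Real.rpow_add hn]; congr 1; ring
      _ ≤ (y / 6) * (n : ℝ) ^ (1 / 2 : ℝ) := by gcongr; linarith
      _ = y / 3 * ((n : ℝ) ^ (1 / 2 : ℝ) / 2) := by ring
      _ ≤ y / 3 * Real.sqrt ((n - j : ℕ) : ℝ) := by gcongr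
  unfold bb
  linarith

/-- the sum over the levels is small -/
lemma A5 (δ : ℝ) (hδ : 0 < δ) (q : ℕ) (hq : 16 / δ ≤ q) :
    ∀ᶠ n : ℕ in atTop, ∑ j ∈ Finset.Icc 1 (mm δ n),
        4 * ((n : ℝ) ^ 2 * ((8 / 7 : ℝ) ^ (2 * L1 δ n) * ((1 / 4 : ℝ) ^ L1 δ n +
          4 * (n : ℝ) ^ (-(δ / 2)))) ^ q) ^ j ≤ 1 / (n : ℝ) := by
  filter_upwards [A1 δ hδ, eventually_ge_atTop 1, ev_le (-(22 / 5)) (-2) (4 * 10 ^ q) (by norm_num)]
    with n h1 h2 h3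
  have hn : (0 : ℝ) < n := by exact_mod_cast h2
  have hn1 : (1 : ℝ) ≤ n := by exact_mod_cast h2
  set y : ℝ := (n : ℝ) ^ 2 * ((8 / 7 : ℝ) ^ (2 * L1 δ n) * ((1 / 4 : ℝ) ^ L1 δ n +
          4 * (n : ℝ) ^ (-(δ / 2)))) ^ q with hy
  have hy0 : 0 ≤ y := by positivity
  have hy1 : y ≤ 10 ^ q * (n : ℝ) ^ (-(22 / 5) : ℝ) := by
    calc y ≤ (n : ℝ) ^ 2 * (10 * (n : ℝ) ^ (-(2 * δ / 5))) ^ q := by
          rw [hy]
          exact mul_le_mul_of_nonneg_left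
            (pow_le_pow_left₀ (by positivity) (rho_le δ hδ n h2) q) (by positivity)
      _ = 10 ^ q * ((n : ℝ) ^ (2 : ℝ) * (n : ℝ) ^ (-(2 * δ / 5) * q)) := by
          rw [mul_pow, ← Real.rpow_natCast ((n : ℝ) ^ (-(2 * δ / 5))), ← Real.rpow_mul hn.le]
          norm_num
          ring
      _ ≤ 10 ^ q * ((n : ℝ) ^ (2 : ℝ) * (n : ℝ) ^ (-(32 / 5) : ℝ)) := by
          rw [div_le_iff₀ hδ] at hq
          have hexp : -(2 * δ / 5) * (q : ℝ) ≤ -(32 / 5) := by nlinarith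
          have := Real.rpow_le_rpow_of_exponent_le hn1 hexp
          gcongr
      _ = 10 ^ q * (n : ℝ) ^ (-(22 / 5) : ℝ) := by
          rw [← Real.rpow_add hn]; norm_num
  have hy2 : 4 * y ≤ (n : ℝ) ^ (-2 : ℝ) := by linarith
  have hn2 : (n : ℝ) ^ (-2 : ℝ) ≤ 1 := Real.rpow_le_one_of_one_le_of_nonpos hn1 (by norm_num)
  have hy3 : y ≤ 1 := by linarith
  calc ∑ j ∈ Finset.Icc 1 (mm δ n), 4 * y ^ j ≤ ∑ j ∈ Finset.Icc 1 (mm δ n), (n : ℝ) ^ (-2 : ℝ) := by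
        refine Finset.sum_le_sum fun j hj => ?_
        rw [Finset.mem_Icc] at hj
        have : y ^ j ≤ y := pow_le_of_le_one hy0 hy3 (by omega)
        linarith
    _ = mm δ n * (n : ℝ) ^ (-2 : ℝ) := by simp
    _ ≤ n * (n : ℝ) ^ (-2 : ℝ) := by
        have : (mm δ n : ℝ) ≤ n := by linarith [Nat.cast_nonneg (α := ℝ) (mm δ n)]
        exact mul_le_mul_of_nonneg_right this (by positivity)
    _ = 1 / (n : ℝ) := by
        rw [Real.rpow_neg hn.le]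
        norm_num
        field_simp

/-- the good event -/
def Good1 (n m : ℕ) (c : ℝ) {k : ℕ} (y : Fin k → Alt n) : Prop :=
  ∀ j, 1 ≤ j → j ≤ m → ∀ v ∈ Lvl j n, c * ‖v‖ ^ 2 ≤ En (repA j n) y v

theorem R1core (δ : ℝ) (hδ : 0 < δ) (hδ1 : δ ≤ 1 / 4) (q : ℕ) (hq : 16 / δ ≤ q) (hq1 : 1 ≤ q) :
    ∀ᶠ n : ℕ in atTop,
      (Nat.card {y : Fin (8 + q) → Alt n // ¬ Good1 n (mm δ n) (1 / (16 * (q : ℝ) ^ 2)) y} : ℝ) ≤
        2 / (n : ℝ) * (Fintype.card (Alt n) : ℝ) ^ (8 + q) := by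
  filter_upwards [A1 δ hδ, A2 δ hδ hδ1, A3 δ hδ hδ1, A5 δ hδ q hq, EXPO3 δ hδ hδ1 1,
    eventually_ge_atTop 1] with n h1 h2 h3 h5 h6 hn1
  have hn : (0 : ℝ) < n := by exact_mod_cast hn1
  have hm : 2 * mm δ n + 2 ≤ n := by
    have : (2 : ℝ) * mm δ n + 2 ≤ n := by linarith
    exact_mod_cast this
  set A : ℝ := (Fintype.card (Alt n) : ℝ) with hA
  have hA0 : 0 < A := by rw [hA]; exact_mod_cast Fintype.card_pos
  have hcount : (Nat.card {y : Fin (8 + q) → Alt n //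
        ¬ Good1 n (mm δ n) (1 / (16 * (q : ℝ) ^ 2)) y} : ℝ) =
      (Nat.card {p : (Fin 8 → Alt n) × (Fin q → Alt n) //
        ¬ Good1 n (mm δ n) (1 / (16 * (q : ℝ) ^ 2)) (Fin.append p.1 p.2)} : ℝ) := by
    norm_cast
    exact (card_equiv (Fin.appendEquiv 8 q) _ _ fun z => Iff.rfl).symm
  rw [hcount]
  refine (card_prod_bound (fun x : Fin 8 → Alt n =>
    FewFix n (ll δ n) (FF δ n) (fun i => (x i : Equiv.Perm (Fin n))))
    (fun x z => ¬ Good1 n (mm δ n) (1 / (16 * (q : ℝ) ^ 2)) (Fin.append x z)) (1 / (n : ℝ))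
    (by positivity) ?_).trans ?_
  · intro x hx
    have := R1FIN n (mm δ n) (ll δ n) (FF δ n) q (L1 δ n) (4 * (n : ℝ) ^ (-(δ / 2))) hm h2 h3
      (by positivity) x hx hq1
    rw [← Finset.sum_mul] at this
    have e : (Nat.card {z : Fin q → Alt n //
        ¬ Good1 n (mm δ n) (1 / (16 * (q : ℝ) ^ 2)) (Fin.append x z)} : ℝ) =
        (Nat.card {z : Fin q → Alt n // ¬ ∀ j, 1 ≤ j → j ≤ mm δ n → ∀ v ∈ Lvl j n,
        1 / (16 * (q : ℝ) ^ 2) * ‖v‖ ^ 2 ≤ En (repA j n) x v + En (repA j n) z v} : ℝ) := by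
      congr 3
      ext z
      simp only [Good1, En_append]
    rw [e]
    refine this.trans ?_
    rw [Fintype.card_fun, Fintype.card_fin]
    push_cast
    gcongr
  · rw [Fintype.card_fun, Fintype.card_fun, Fintype.card_fin, Fintype.card_fin]
    push_cast
    have h7 : (Nat.card {x : Fin 8 → Alt n // ¬ FewFix n (ll δ n) (FF δ n)
        (fun i => (x i : Equiv.Perm (Fin n)))} : ℝ) ≤ 1 / (n : ℝ) * A ^ 8 := by
      rw [div_mul_eq_mul_div, le_div_iff₀ hn]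
      simpa [ll, FF, one_div] using h6
    calc _ ≤ (1 / (n : ℝ) * A ^ 8) * A ^ q + 1 / (n : ℝ) * A ^ 8 * A ^ q := by gcongr
      _ = 2 / (n : ℝ) * A ^ (8 + q) := by rw [pow_add]; ring

end RC14
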