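import Pool.Agent.H14R2.RC.High
import Pool.Agent.H14R2.RC.R1
import Pool.Agent.H14R2.RC.S.TYPES
import Pool.Agent.H14R2.RC.S.CONJ

namespace RC14
open scoped InnerProductSpace
open Finset Filter Topology

/-- the good event for the amplifying letters -/
def GoodZ (n j1 : ℕ) {q : ℕ} (x : Fin 8 → Alt n) (z : Fin 4 → Fin q → Alt n) : Prop :=
  (∀ j, 1 ≤ j → j ≤ j1 → ∀ v ∈ Lvl j n, (1 / 4 : ℝ) ^ 4 * ‖v‖ ^ 2 ≤ E2 (repA j n) x z v) ∧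
    ∀ v ∈ HH j1 n, (1 / 4 : ℝ) ^ 4 * ‖v‖ ^ 2 ≤ E2 (RR n) x z v

/-- number of conjugacy classes bound -/
def NC (n : ℕ) : ℕ := 2 * (n + 1) ^ (2 * Nat.sqrt n + 2)

theorem R2Z (n j1 ℓ F m q L1 : ℕ) (b Λ : ℝ) (hj : 2 * j1 + 2 ≤ n) (hL : 2 * (j1 * L1) ≤ ℓ)
    (hb : ∀ j, 1 ≤ j → j ≤ j1 → bb j j n F ≤ b) (hb0 : 0 ≤ b)
    (hρ : (8 / 7 : ℝ) ^ (2 * L1) * ((1 / 4 : ℝ) ^ L1 + b) ≤ Real.exp (-Λ)) (hΛ : 70 ≤ Λ)
    (hq : 8 ≤ q) (hd : (n : ℝ) < Real.exp (Λ * (q / 8 : ℝ) ^ 4))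
    (hn : 1000 ≤ n) (hb2 : ∀ j, j1 < j → j ≤ n / 100 → bb j j1 n F ≤ Real.exp (-3))
    (hF : 2 * F ≤ n) (hm : 100 * m ^ 2 ≤ n)
    (hm2 : 2 * (1 - 1 / 8400 : ℝ) ^ m ≤ Real.exp (-(6 * j1))) (hj1 : 35 ≤ j1)
    (hℓ : 2 * (3 * j1) ≤ ℓ)
    (hd2 : (Fintype.card (Alt n) : ℝ) < Real.exp (2 * j1 * (q / 8 : ℝ) ^ 4))
    (x : Fin 8 → Alt n) (hx : FewFix n ℓ F (fun i => (x i : Equiv.Perm (Fin n)))) :
    (Nat.card {z : Fin 4 → Fin q → Alt n // ¬ GoodZ n j1 x z} : ℝ) ≤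
      (∑ j ∈ Finset.Icc 1 j1, 4 * ((n : ℝ) * Real.exp (-(Λ * q / 8))) ^ j +
        NC n * (4 * Real.exp (-(j1 * q / 4)))) * (Fintype.card (Alt n) : ℝ) ^ (4 * q) := by
  classical
  have step : Nat.card {z : Fin 4 → Fin q → Alt n // ¬ GoodZ n j1 x z} ≤
      ∑ j ∈ Finset.Icc 1 j1, Nat.card {z : Fin 4 → Fin q → Alt n // ¬ ∀ v ∈ Lvl j n,
        (1 / 4 : ℝ) ^ 4 * ‖v‖ ^ 2 ≤ E2 (repA j n) x z v} +
      Nat.card {z : Fin 4 → Fin q → Alt n // ¬ ∀ v ∈ HH j1 n,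
        (1 / 4 : ℝ) ^ 4 * ‖v‖ ^ 2 ≤ E2 (RR n) x z v} := by
    have h1 := card_union (Z := Fin 4 → Fin q → Alt n) (ι := Bool)
      (fun z => ¬ GoodZ n j1 x z)
      (fun i z => if i then ¬ ∀ j, 1 ≤ j → j ≤ j1 → ∀ v ∈ Lvl j n,
        (1 / 4 : ℝ) ^ 4 * ‖v‖ ^ 2 ≤ E2 (repA j n) x z v else ¬ ∀ v ∈ HH j1 n,
        (1 / 4 : ℝ) ^ 4 * ‖v‖ ^ 2 ≤ E2 (RR n) x z v) ?_
    · rw [Fintype.sum_bool] at h1
      simp only [if_true, Bool.false_eq_true, if_false] at h1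
      refine h1.trans ?_
      gcongr
      apply card_union_fin
      intro z hz
      by_contra hcon
      push Not at hcon
      exact hz fun j h1 h2 => hcon j (Finset.mem_Icc.mpr ⟨h1, h2⟩)
    · intro z hz
      unfold GoodZ at hz
      rw [not_and_or] at hz
      rcases hz with hz | hz
      · exact ⟨true, by simpa using hz⟩
      · exact ⟨false, by simpa using hz⟩
  have hlow : ∀ j ∈ Finset.Icc 1 j1, (Nat.card {z : Fin 4 → Fin q → Alt n // ¬ ∀ v ∈ Lvl j n,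
        (1 / 4 : ℝ) ^ 4 * ‖v‖ ^ 2 ≤ E2 (repA j n) x z v} : ℝ) ≤
        4 * ((n : ℝ) * Real.exp (-(Λ * q / 8))) ^ j * (Fintype.card (Alt n) : ℝ) ^ (4 * q) := by
    intro j hjj
    rw [Finset.mem_Icc] at hjj
    have hj1' : (1 : ℝ) ≤ j := by exact_mod_cast hjj.1
    have hL2 : 2 * (j * L1) ≤ ℓ := le_trans (by gcongr; exact hjj.2) hL
    have hfr : Module.finrank ℂ (Lvl j n) ≤ n ^ j := finrank_le_pow _
    have hdec := DECOMP (repA j n) (Lvl j n) (Lvl_inv j n)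
    obtain ⟨N, W, hN, hW⟩ := hdec
    have key : (8 / 7 : ℝ) ^ (2 * (j * L1)) * ((1 / 4 : ℝ) ^ (j * L1) + b ^ j) ≤
        Real.exp (-(j * Λ)) := by
      calc (8 / 7 : ℝ) ^ (2 * (j * L1)) * ((1 / 4 : ℝ) ^ (j * L1) + b ^ j)
          ≤ ((8 / 7 : ℝ) ^ (2 * L1) * ((1 / 4 : ℝ) ^ L1 + b)) ^ j := by
            rw [mul_pow, ← pow_mul, show 2 * (j * L1) = 2 * L1 * j by ring,
              show j * L1 = L1 * j by ring, pow_mul (1 / 4 : ℝ) L1 j]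
            gcongr
            exact pow_add_pow_le (by positivity) hb0 (by omega)
        _ ≤ Real.exp (-Λ) ^ j := pow_le_pow_left₀ (by positivity) hρ _
        _ = Real.exp (-(j * Λ)) := by rw [← Real.exp_nat_mul]; congr 1; ring
    have h := UB2 (repA j n) (Lvl j n) (n ^ j) ⟨N, W, hN.trans hfr, hW⟩ x (j * L1)
      ((1 / 4 : ℝ) ^ (j * L1) + b ^ j)
      (fun W hW hWL => LVLTR n j L1 ℓ F (by omega) hL2 x hx b (hb j hjj.1 hjj.2) W hW hWL)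
      q 4 hq (j * Λ) (by nlinarith) key ?_
    · refine h.trans ?_
      have e1 : Real.exp (-(j * Λ * q / 8)) = Real.exp (-(Λ * q / 8)) ^ j := by
        rw [← Real.exp_nat_mul]; congr 1; ring
      rw [e1, mul_pow]
      push_cast
      apply le_of_eq
      ring
    · calc (Module.finrank ℂ (Lvl j n) : ℝ) ≤ (n : ℝ) ^ j := by exact_mod_cast hfr
        _ < Real.exp (Λ * (q / 8 : ℝ) ^ 4) ^ j := pow_lt_pow_left₀ hd (by positivity) (by omega)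
        _ = Real.exp (j * Λ * (q / 8 : ℝ) ^ 4) := by
            rw [← Real.exp_nat_mul]; congr 1; ring
  have hhigh : (Nat.card {z : Fin 4 → Fin q → Alt n // ¬ ∀ v ∈ HH j1 n,
        (1 / 4 : ℝ) ^ 4 * ‖v‖ ^ 2 ≤ E2 (RR n) x z v} : ℝ) ≤
      NC n * (4 * Real.exp (-(j1 * q / 4))) * (Fintype.card (Alt n) : ℝ) ^ (4 * q) := by
    obtain ⟨N, W, hN, hW⟩ := TYPES (RR n) (HH j1 n) (HH_inv j1 n)
    have hj2 : (35 : ℝ) ≤ j1 := by exact_mod_cast hj1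
    have h := UB2 (RR n) (HH j1 n) (NC n) ⟨N, W, hN.trans (CONJ n), hW⟩ x (3 * j1)
      ((1 / 4 : ℝ) ^ (3 * j1) + Real.exp (-(3 * j1)))
      (fun W hW hWL => HHTR n j1 ℓ F m hn hb2 hF hm hm2 hℓ x hx W hW hWL)
      q 4 hq (2 * j1) (by linarith) (high_num j1 (by omega)) ?_
    · refine h.trans ?_
      have e1 : Real.exp (-(2 * j1 * q / 8)) = Real.exp (-(j1 * q / 4)) := by
        congr 1; ring
      rw [e1]
      push_cast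
      apply le_of_eq
      ring
    · refine lt_of_le_of_lt ?_ hd2
      have : Module.finrank ℂ (HH j1 n) ≤ Fintype.card (Alt n) := by
        refine (Submodule.finrank_le _).trans ?_
        simp
      exact_mod_cast this
  calc (Nat.card {z : Fin 4 → Fin q → Alt n // ¬ GoodZ n j1 x z} : ℝ)
      ≤ ∑ j ∈ Finset.Icc 1 j1, (Nat.card {z : Fin 4 → Fin q → Alt n // ¬ ∀ v ∈ Lvl j n,
        (1 / 4 : ℝ) ^ 4 * ‖v‖ ^ 2 ≤ E2 (repA j n) x z v} : ℝ) +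
      (Nat.card {z : Fin 4 → Fin q → Alt n // ¬ ∀ v ∈ HH j1 n,
        (1 / 4 : ℝ) ^ 4 * ‖v‖ ^ 2 ≤ E2 (RR n) x z v} : ℝ) := by exact_mod_cast step
    _ ≤ ∑ j ∈ Finset.Icc 1 j1, 4 * ((n : ℝ) * Real.exp (-(Λ * q / 8))) ^ j *
          (Fintype.card (Alt n) : ℝ) ^ (4 * q) +
        NC n * (4 * Real.exp (-(j1 * q / 4))) * (Fintype.card (Alt n) : ℝ) ^ (4 * q) :=
        add_le_add (Finset.sum_le_sum hlow) hhigh
    _ = _ := by rw [← Finset.sum_mul]; ring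

end RC14
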