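import Pool.Agent.H14R2.RC.R2

namespace RC14
open scoped InnerProductSpace
open Finset Filter Topology

/-- the energy inequality on all levels -/
def GoodY (n j1 : ℕ) (c : ℝ) {k : ℕ} (y : Fin k → Alt n) : Prop :=
  (∀ j, 1 ≤ j → j ≤ j1 → ∀ v ∈ Lvl j n, c * ‖v‖ ^ 2 ≤ En (repA j n) y v) ∧
    ∀ v ∈ HH j1 n, c * ‖v‖ ^ 2 ≤ En (RR n) y v

/-- assembling the letters -/
def asm {A : Type*} {k q t : ℕ} (e : Fin k ≃ (Fin q × Fin 8) ⊕ ((Fin 4 × Fin q) ⊕ Fin t)) :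
    ((Fin q → Fin 8 → A) × ((Fin 4 → Fin q → A) × (Fin t → A))) ≃ (Fin k → A) where
  toFun p := fun i => Sum.elim (fun ab => p.1 ab.1 ab.2)
    (Sum.elim (fun rj => p.2.1 rj.1 rj.2) p.2.2) (e i)
  invFun y := (fun a b => y (e.symm (Sum.inl (a, b))),
    (fun r j => y (e.symm (Sum.inr (Sum.inl (r, j)))), fun s => y (e.symm (Sum.inr (Sum.inr s)))))
  left_inv p := by simp
  right_inv y := by
    funext i
    obtain ⟨s, rfl⟩ := e.symm.surjective i
    rcases s with ⟨a, b⟩ | ⟨⟨r, j⟩ | s⟩ <;> simp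

lemma En_asm {G : Type*} [Group G]
    {V : Type*} [NormedAddCommGroup V] [InnerProductSpace ℂ V] {k q t : ℕ}
    (e : Fin k ≃ (Fin q × Fin 8) ⊕ ((Fin 4 × Fin q) ⊕ Fin t)) (ρ : G →* (V ≃ₗᵢ[ℂ] V))
    (p : (Fin q → Fin 8 → G) × ((Fin 4 → Fin q → G) × (Fin t → G))) (v : V) :
    En ρ (asm e p) v = ∑ i, En ρ (p.1 i) v + (∑ r, En ρ (p.2.1 r) v + En ρ p.2.2 v) := by
  unfold En
  have h : ∑ i, ‖ρ (asm e p i) v - v‖ ^ 2 = ∑ s : (Fin q × Fin 8) ⊕ ((Fin 4 × Fin q) ⊕ Fin t),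
      ‖ρ (Sum.elim (fun ab => p.1 ab.1 ab.2)
    (Sum.elim (fun rj => p.2.1 rj.1 rj.2) p.2.2) s) v - v‖ ^ 2 :=
    Fintype.sum_equiv e _ _ fun i => rfl
  rw [h, Fintype.sum_sum_type, Fintype.sum_sum_type]
  simp only [Sum.elim_inl, Sum.elim_inr]
  rw [Fintype.sum_prod_type, Fintype.sum_prod_type]

lemma avg_E2 {G : Type*} [Group G]
    {V : Type*} [NormedAddCommGroup V] [InnerProductSpace ℂ V] {k q t : ℕ} (hq : 0 < q)
    (e : Fin k ≃ (Fin q × Fin 8) ⊕ ((Fin 4 × Fin q) ⊕ Fin t)) (ρ : G →* (V ≃ₗᵢ[ℂ] V))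
    (p : (Fin q → Fin 8 → G) × ((Fin 4 → Fin q → G) × (Fin t → G))) (v : V)
    (h : ∀ i, (1 / 4 : ℝ) ^ 4 * ‖v‖ ^ 2 ≤ E2 ρ (p.1 i) p.2.1 v) :
    (q / 256 : ℝ) * ‖v‖ ^ 2 ≤ En ρ (asm e p) v := by
  rw [En_asm]
  have hq' : (0 : ℝ) < q := by exact_mod_cast hq
  have h1 : ∑ i : Fin q, (1 / 4 : ℝ) ^ 4 * ‖v‖ ^ 2 ≤ ∑ i : Fin q, E2 ρ (p.1 i) p.2.1 v :=
    Finset.sum_le_sum fun i _ => h i
  have h2 : ∑ i : Fin q, E2 ρ (p.1 i) p.2.1 v =
      1 / 2 * ∑ i, En ρ (p.1 i) v + ∑ r, En ρ (p.2.1 r) v := by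
    unfold E2
    rw [Finset.sum_add_distrib, ← Finset.mul_sum, Finset.sum_const, Finset.card_univ,
      Fintype.card_fin, nsmul_eq_mul]
    field_simp
  rw [h2] at h1
  simp only [Finset.sum_const, Finset.card_univ, Fintype.card_fin, nsmul_eq_mul] at h1
  have h3 : 0 ≤ ∑ i, En ρ (p.1 i) v := Finset.sum_nonneg fun i _ => RC14.En_nonneg ρ _ v
  have h4 : 0 ≤ En ρ p.2.2 v := RC14.En_nonneg ρ _ v
  nlinarith

lemma good_asm (n j1 : ℕ) {k q t : ℕ} (hq : 0 < q)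
    (e : Fin k ≃ (Fin q × Fin 8) ⊕ ((Fin 4 × Fin q) ⊕ Fin t))
    (p : (Fin q → Fin 8 → Alt n) × ((Fin 4 → Fin q → Alt n) × (Fin t → Alt n)))
    (h : ∀ i, GoodZ n j1 (p.1 i) p.2.1) : GoodY n j1 (q / 256 : ℝ) (asm e p) :=
  ⟨fun j h1 h2 v hv => avg_E2 hq e (repA j n) p v fun i => (h i).1 j h1 h2 v hv,
    fun v hv => avg_E2 hq e (RR n) p v fun i => (h i).2 v hv⟩

/-- all base groups are good -/
lemma base_all {X : Type*} [Fintype X] (P : X → Prop) (q : ℕ) (B : ℝ)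
    (hB : (Nat.card {x : X // ¬ P x} : ℝ) ≤ B * Fintype.card X) :
    (Nat.card {x : Fin q → X // ¬ ∀ i, P (x i)} : ℝ) ≤ q * B * (Fintype.card X : ℝ) ^ q := by
  classical
  have h1 := card_union (Z := Fin q → X) (fun x => ¬ ∀ i, P (x i)) (fun i x => ¬ P (x i))
    (fun x hx => by push Not at hx; exact hx)
  have h2 : ∀ i : Fin q, (Nat.card {x : Fin q → X // ¬ P (x i)} : ℝ) ≤
      B * (Fintype.card X : ℝ) ^ q := by
    intro i
    have e1 : Nat.card {x : Fin q → X // ¬ P (x i)} =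
        Nat.card {x : X // ¬ P x} * Fintype.card X ^ (q - 1) := by
      rw [Nat.card_eq_fintype_card, Fintype.card_subtype]
      have : (univ.filter fun x : Fin q → X => ¬ P (x i)) =
          Fintype.piFinset (Function.update (fun _ => univ) i (univ.filter fun x => ¬ P x)) := by
        ext x
        simp only [mem_filter, mem_univ, true_and, Fintype.mem_piFinset]
        constructor
        · intro hx a
          by_cases ha : a = i
          · subst ha; simpa using hx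
          · simp [Function.update_of_ne ha]
        · intro hx
          simpa using hx i
      rw [this, Fintype.card_piFinset]
      rw [← Finset.prod_erase_mul _ _ (Finset.mem_univ i)]
      rw [Finset.prod_congr rfl (g := fun _ => Fintype.card X)]
      · rw [Finset.prod_const, Finset.card_erase_of_mem (Finset.mem_univ i), Finset.card_univ,
          Fintype.card_fin, Function.update_self, Nat.card_eq_fintype_card, Fintype.card_subtype,
          mul_comm]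
      · intro a ha
        rw [Function.update_of_ne (Finset.ne_of_mem_erase ha), Finset.card_univ]
    rw [e1]
    push_cast
    have hq : q = (q - 1) + 1 := by have := i.2; omega
    calc (Nat.card {x : X // ¬ P x} : ℝ) * (Fintype.card X : ℝ) ^ (q - 1)
        ≤ (B * Fintype.card X) * (Fintype.card X : ℝ) ^ (q - 1) := by gcongr
      _ = B * (Fintype.card X : ℝ) ^ q := by
          conv_rhs => rw [hq, pow_succ]
          ring
  calc (Nat.card {x : Fin q → X // ¬ ∀ i, P (x i)} : ℝ)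
      ≤ ∑ i, (Nat.card {x : Fin q → X // ¬ P (x i)} : ℝ) := by exact_mod_cast h1
    _ ≤ ∑ i : Fin q, B * (Fintype.card X : ℝ) ^ q := Finset.sum_le_sum fun i _ => h2 i
    _ = q * B * (Fintype.card X : ℝ) ^ q := by simp; ring

lemma prod_card_aux {A : Type*} [Fintype A] {q t : ℕ} (Q : (Fin 4 → Fin q → A) → Prop) :
    Nat.card {z : (Fin 4 → Fin q → A) × (Fin t → A) // Q z.1} =
      Nat.card {z : Fin 4 → Fin q → A // Q z} * Fintype.card (Fin t → A) := by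
  have e2 : {z : (Fin 4 → Fin q → A) × (Fin t → A) // Q z.1} ≃
      {z : Fin 4 → Fin q → A // Q z} × (Fin t → A) :=
    { toFun := fun z => (⟨z.1.1, z.2⟩, z.1.2)
      invFun := fun z => ⟨(z.1.1, z.2), z.1.2⟩
      left_inv := fun z => rfl
      right_inv := fun z => rfl }
  rw [Nat.card_congr e2, Nat.card_prod, Nat.card_eq_fintype_card (α := Fin t → A)]

lemma countZ {A : Type*} [Fintype A] {q t : ℕ} (GZ : Fin q → (Fin 4 → Fin q → A) → Prop)
    (C : ℝ) (hC : ∀ i, (Nat.card {z : Fin 4 → Fin q → A // ¬ GZ i z} : ℝ) ≤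
      C * (Fintype.card A : ℝ) ^ (4 * q)) :
    (Nat.card {z : (Fin 4 → Fin q → A) × (Fin t → A) // ¬ ∀ i, GZ i z.1} : ℝ) ≤
      q * C * (Fintype.card ((Fin 4 → Fin q → A) × (Fin t → A)) : ℝ) := by
  have h1 := card_union (Z := (Fin 4 → Fin q → A) × (Fin t → A))
      (fun z => ¬ ∀ i, GZ i z.1) (fun i z => ¬ GZ i z.1)
      (fun z hz => by push Not at hz; exact hz)
  have h2 : ∀ i, (Nat.card {z : (Fin 4 → Fin q → A) × (Fin t → A) //
        ¬ GZ i z.1} : ℝ) ≤ C * (Fintype.card A : ℝ) ^ (4 * q) * (Fintype.card A : ℝ) ^ t := by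
    intro i
    rw [prod_card_aux (fun z => ¬ GZ i z), Fintype.card_fun, Fintype.card_fin]
    push_cast
    have := hC i
    gcongr
  calc (Nat.card {z : (Fin 4 → Fin q → A) × (Fin t → A) // ¬ ∀ i, GZ i z.1} : ℝ)
        ≤ ∑ i, (Nat.card {z : (Fin 4 → Fin q → A) × (Fin t → A) //
          ¬ GZ i z.1} : ℝ) := by exact_mod_cast h1
      _ ≤ ∑ i : Fin q, C * (Fintype.card A : ℝ) ^ (4 * q) * (Fintype.card A : ℝ) ^ t :=
          Finset.sum_le_sum fun i _ => h2 i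
      _ = q * C * (Fintype.card ((Fin 4 → Fin q → A) × (Fin t → A)) : ℝ) := by
          simp only [Finset.sum_const, Finset.card_univ, Fintype.card_fin, nsmul_eq_mul,
            Fintype.card_prod, Fintype.card_fun]
          push_cast
          rw [← pow_mul, mul_comm q 4]
          ring

lemma COUNTG {A : Type*} [Fintype A] (q t : ℕ) (P : (Fin 8 → A) → Prop)
    (GZ : (Fin 8 → A) → (Fin 4 → Fin q → A) → Prop) (B C : ℝ) (hC0 : 0 ≤ C)
    (hP : (Nat.card {x : Fin 8 → A // ¬ P x} : ℝ) ≤ B * (Fintype.card A : ℝ) ^ 8)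
    (hZ : ∀ x : Fin 8 → A, P x →
      (Nat.card {z : Fin 4 → Fin q → A // ¬ GZ x z} : ℝ) ≤
        C * (Fintype.card A : ℝ) ^ (4 * q)) :
    (Nat.card {p : (Fin q → Fin 8 → A) × ((Fin 4 → Fin q → A) × (Fin t → A)) //
        ¬ ∀ i, GZ (p.1 i) p.2.1} : ℝ) ≤
      (q * B + q * C) * (Fintype.card A : ℝ) ^ (12 * q + t) := by
  have h0 := card_prod_bound (X := Fin q → Fin 8 → A)
    (Z := (Fin 4 → Fin q → A) × (Fin t → A)) (fun x => ∀ i, P (x i))
    (fun x z => ¬ ∀ i, GZ (x i) z.1) (q * C) (by positivity)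
    (fun x hx => countZ (fun i z => GZ (x i) z) C (fun i => hZ (x i) (hx i)))
  refine le_trans h0 ?_
  · have hb := base_all P q B (by
      rw [Fintype.card_fun, Fintype.card_fin]
      push_cast
      exact hP)
    simp only [Fintype.card_prod, Fintype.card_fun, Fintype.card_fin] at hb ⊢
    push_cast at hb ⊢
    have hpow : (Fintype.card A : ℝ) ^ (12 * q + t) = (((Fintype.card A : ℝ) ^ 8) ^ q) *
        ((((Fintype.card A : ℝ) ^ q) ^ 4) * (Fintype.card A : ℝ) ^ t) := by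
      rw [← pow_mul, ← pow_mul, ← pow_add, ← pow_add]
      congr 1
      ring
    rw [hpow]
    have hpos : 0 ≤ (((Fintype.card A : ℝ) ^ q) ^ 4) * (Fintype.card A : ℝ) ^ t := by positivity
    have := mul_le_mul_of_nonneg_right hb hpos
    linarith

lemma exists_e (k q : ℕ) (hk : 12 * q ≤ k) : ∃ t, k = 12 * q + t ∧
    Nonempty (Fin k ≃ (Fin q × Fin 8) ⊕ ((Fin 4 × Fin q) ⊕ Fin t)) := by
  refine ⟨k - 12 * q, by omega, ?_⟩
  refine ⟨Fintype.equivOfCardEq ?_⟩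
  simp only [Fintype.card_sum, Fintype.card_prod, Fintype.card_fin]
  omega

/-- the count for `k`-tuples of even permutations -/
theorem R2Y (n j1 k q : ℕ) (hq : 0 < q) (hk : 12 * q ≤ k) (P : (Fin 8 → Alt n) → Prop)
    (B C : ℝ) (hC0 : 0 ≤ C)
    (hP : (Nat.card {x : Fin 8 → Alt n // ¬ P x} : ℝ) ≤ B * (Fintype.card (Alt n) : ℝ) ^ 8)
    (hZ : ∀ x : Fin 8 → Alt n, P x →
      (Nat.card {z : Fin 4 → Fin q → Alt n // ¬ GoodZ n j1 x z} : ℝ) ≤
        C * (Fintype.card (Alt n) : ℝ) ^ (4 * q)) :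
    (Nat.card {y : Fin k → Alt n // ¬ GoodY n j1 (q / 256 : ℝ) y} : ℝ) ≤
      (q * B + q * C) * (Fintype.card (Alt n) : ℝ) ^ k := by
  obtain ⟨t, ht, ⟨e⟩⟩ := exists_e k q hk
  have h1 := card_equiv (asm e (A := Alt n)) (fun p => ¬ GoodY n j1 (q / 256 : ℝ) (asm e p))
      (fun y => ¬ GoodY n j1 (q / 256 : ℝ) y) (fun z => Iff.rfl)
  have h2 := card_mono (Z := (Fin q → Fin 8 → Alt n) × ((Fin 4 → Fin q → Alt n) ×
      (Fin t → Alt n))) (fun p => ¬ GoodY n j1 (q / 256 : ℝ) (asm e p))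
      (fun p => ¬ ∀ i, GoodZ n j1 (p.1 i) p.2.1)
      (fun p hp hg => hp (good_asm n j1 hq e p hg))
  have h3 := COUNTG q t P (fun x z => GoodZ n j1 x z) B C hC0 hP hZ
  rw [← h1]
  refine (Nat.cast_le.mpr h2).trans (h3.trans ?_)
  rw [ht]

end RC14
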