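import Pool.Agent.H14R2.RC.R2b

namespace RC14
open scoped InnerProductSpace
open Finset Filter Topology

lemma q_ge (δ : ℝ) (hδ : 0 < δ) : ∀ᶠ n : ℕ in atTop, ∀ k : ℕ, (n : ℝ) ^ (1 / 6 + δ) ≤ k →
    (n : ℝ) ^ (1 / 6 + δ) / 13 ≤ ((k / 12 : ℕ) : ℝ) ∧ (k : ℝ) ≤ 13 * ((k / 12 : ℕ) : ℝ) := by
  filter_upwards [ev_const (1 / 6 + δ) 156 (by linarith)] with n h1 k hk
  have h2 : k < 12 * (k / 12) + 12 := by omega
  have h3 : (k : ℝ) < 12 * ((k / 12 : ℕ) : ℝ) + 12 := by exact_mod_cast h2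
  constructor <;> linarith

/-- `Λ` -/
noncomputable def Lam (δ : ℝ) (n : ℕ) : ℝ := 2 * δ / 5 * Real.log n - Real.log 10

lemma exp_Lam (δ : ℝ) (n : ℕ) (hn : 0 < n) :
    Real.exp (-Lam δ n) = 10 * (n : ℝ) ^ (-(2 * δ / 5)) := by
  have hn' : (0 : ℝ) < n := by exact_mod_cast hn
  rw [Lam, neg_sub, sub_eq_add_neg, Real.exp_add, Real.exp_log (by norm_num),
    Real.rpow_def_of_pos hn']
  congr 2
  ring

lemma Lam_ge (δ : ℝ) (hδ : 0 < δ) : ∀ᶠ n : ℕ in atTop, 70 ≤ Lam δ n := by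
  filter_upwards [ev_loggt ((70 + Real.log 10) * 5 / (2 * δ))] with n hn
  unfold Lam
  rw [div_le_iff₀ (by positivity)] at hn
  linarith

lemma mm_ge (δ : ℝ) (hδ1 : δ < 1 / 3) :
    ∀ᶠ n : ℕ in atTop, (n : ℝ) ^ (1 / 3 - δ) / 2 ≤ mm δ n := by
  filter_upwards [ev_const (1 / 3 - δ) 2 (by linarith)] with n hn
  have : (n : ℝ) ^ (1 / 3 - δ) < mm δ n + 1 := Nat.lt_floor_add_one _
  linarith

lemma c13 (δ : ℝ) (hδ1 : δ < 1 / 3) : ∀ᶠ n : ℕ in atTop, 35 ≤ mm δ n := by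
  filter_upwards [ev_const (1 / 3 - δ) 35 (by linarith)] with n hn
  exact Nat.le_floor (by exact_mod_cast hn)

lemma c14 (δ : ℝ) (hδ : 0 < δ) (hδ1 : δ < 1 / 3) :
    ∀ᶠ n : ℕ in atTop, 2 * (3 * mm δ n) ≤ ll δ n := by
  filter_upwards [ev_le (1 / 3 - δ) (1 / 3 - δ / 2) 12 (by linarith),
    ev_const (1 / 3 - δ / 2) 2 (by linarith)] with n h1 h2
  have h4 := mm_le δ n
  have h5 : (n : ℝ) ^ (1 / 3 - δ / 2) < (ll δ n : ℝ) + 1 := Nat.lt_floor_add_one _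
  have h7 : (2 : ℝ) * (3 * mm δ n) ≤ ll δ n := by linarith
  exact_mod_cast h7

lemma c10 (δ : ℝ) (hδ : 0 < δ) : ∀ᶠ n : ℕ in atTop,
    (FF δ n : ℝ) ≤ (n : ℝ) / 1000 := by
  filter_upwards [ev_le (1 - δ / 2) 1 2000 (by linarith), ev_const (1 : ℝ) 2000 (by norm_num)]
    with n h1 h2
  rw [Real.rpow_one] at h1 h2
  have hF : (FF δ n : ℝ) < (n : ℝ) ^ (1 - δ / 2) + 1 := Nat.ceil_lt_add_one (by positivity)
  linarith

lemma exp3_ge : (1 / 25 : ℝ) ≤ Real.exp (-3) := by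
  rw [Real.exp_neg]
  have h1 := Real.exp_one_lt_d9
  have h3 : Real.exp 3 = Real.exp 1 ^ 3 := by
    rw [← Real.exp_nat_mul]; congr 1; norm_num
  have h : Real.exp 3 ≤ 25 := by
    rw [h3]
    calc Real.exp 1 ^ 3 ≤ (2.72 : ℝ) ^ 3 := pow_le_pow_left₀ (Real.exp_pos _).le (by linarith) _
      _ ≤ 25 := by norm_num
  calc (1 / 25 : ℝ) = 25⁻¹ := by norm_num
    _ ≤ _ := inv_anti₀ (Real.exp_pos _) h

lemma c9 (δ : ℝ) (hδ : 0 < δ) (hδ1 : δ < 1 / 3) : ∀ᶠ n : ℕ in atTop,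
    ∀ j, mm δ n < j → j ≤ n / 100 → bb j (mm δ n) n (FF δ n) ≤ Real.exp (-3) := by
  filter_upwards [c10 δ hδ, eventually_ge_atTop 1000,
    ev_le (1 / 3 - δ) (1 / 2) 1000 (by linarith)] with n h1 h2 h3 j hj1 hj2
  have hn : (1000 : ℝ) ≤ n := by exact_mod_cast h2
  have hjn : j ≤ n := by omega
  have hj : (j : ℝ) ≤ n / 100 := by
    have : j * 100 ≤ n := by omega
    have : (j : ℝ) * 100 ≤ n := by exact_mod_cast this
    linarith
  have hN : (99 / 100 : ℝ) * n ≤ ((n - j : ℕ) : ℝ) := by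
    rw [Nat.cast_sub hjn]; linarith
  have hN0 : (0 : ℝ) < ((n - j : ℕ) : ℝ) := by linarith
  have t1 : 2 * (j : ℝ) / ((n - j : ℕ) : ℝ) ≤ 1 / 40 := by
    rw [div_le_iff₀ hN0]; linarith
  have t2 : (FF δ n : ℝ) / ((n - j : ℕ) : ℝ) ≤ 1 / 400 := by
    rw [div_le_iff₀ hN0]; linarith
  have t3 : (mm δ n : ℝ) / Real.sqrt ((n - j : ℕ) : ℝ) ≤ 1 / 400 := by
    have hs : (n : ℝ) ^ (1 / 2 : ℝ) / 2 ≤ Real.sqrt ((n - j : ℕ) : ℝ) := by
      apply Real.le_sqrt_of_sq_le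
      rw [div_pow, ← Real.rpow_natCast, ← Real.rpow_mul (by linarith)]
      norm_num
      linarith
    have hp : (0 : ℝ) < (n : ℝ) ^ (1 / 2 : ℝ) := Real.rpow_pos_of_pos (by linarith) _
    rw [div_le_iff₀ (by linarith)]
    have := mm_le δ n
    linarith
  unfold bb
  have := exp3_ge
  linarith

/-- the length of the product of projections -/
def ms (n : ℕ) : ℕ := Nat.sqrt n / 10

lemma ms_sq (n : ℕ) : 100 * ms n ^ 2 ≤ n := by
  have h1 : 10 * ms n ≤ Nat.sqrt n := Nat.mul_div_le _ _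
  calc 100 * ms n ^ 2 = (10 * ms n) ^ 2 := by ring
    _ ≤ (Nat.sqrt n) ^ 2 := by gcongr
    _ ≤ n := Nat.sqrt_le' n

lemma ms_ge : ∀ᶠ n : ℕ in atTop, (n : ℝ) ^ (1 / 2 : ℝ) / 20 ≤ ms n := by
  filter_upwards [ev_const (1 / 2) 1000 (by norm_num)] with n hn
  have h1 : Nat.sqrt n < 10 * ms n + 10 := by unfold ms; omega
  have h2 : (Nat.sqrt n : ℝ) < 10 * ms n + 10 := by exact_mod_cast h1
  have h3 : n < (Nat.sqrt n + 1) ^ 2 := Nat.lt_succ_sqrt' n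
  have h4 : (n : ℝ) < ((Nat.sqrt n : ℝ) + 1) ^ 2 := by exact_mod_cast h3
  have h5 : (n : ℝ) ^ (1 / 2 : ℝ) ≤ (Nat.sqrt n : ℝ) + 1 := by
    rw [← Real.sqrt_eq_rpow]
    exact Real.sqrt_le_iff.mpr ⟨by positivity, h4.le⟩
  linarith

lemma c12 (δ : ℝ) (hδ : 0 < δ) (hδ1 : δ < 1 / 3) : ∀ᶠ n : ℕ in atTop,
    2 * (1 - 1 / 8400 : ℝ) ^ ms n ≤ Real.exp (-(6 * (mm δ n : ℝ))) := by
  filter_upwards [ms_ge, ev_le (1 / 3 - δ) (1 / 2) (12 * 168000) (by linarith),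
    ev_const (1 / 2) (2 * 168000) (by norm_num)] with n h1 h2 h3
  have h4 : (1 - 1 / 8400 : ℝ) ^ ms n ≤ Real.exp (-(ms n / 8400 : ℝ)) := by
    have : (1 - 1 / 8400 : ℝ) ≤ Real.exp (-(1 / 8400)) := by
      have := Real.add_one_le_exp (-(1 / 8400) : ℝ)
      linarith
    calc (1 - 1 / 8400 : ℝ) ^ ms n ≤ Real.exp (-(1 / 8400)) ^ ms n :=
          pow_le_pow_left₀ (by norm_num) this _
      _ = Real.exp (-(ms n / 8400 : ℝ)) := by
          rw [← Real.exp_nat_mul]; congr 1; ring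
  have h5 : (2 : ℝ) ≤ Real.exp 1 := by
    have := Real.add_one_le_exp (1 : ℝ)
    linarith
  have h6 := mm_le δ n
  calc 2 * (1 - 1 / 8400 : ℝ) ^ ms n ≤ Real.exp 1 * Real.exp (-(ms n / 8400 : ℝ)) := by gcongr
    _ = Real.exp (1 - ms n / 8400) := by rw [← Real.exp_add]; congr 1
    _ ≤ Real.exp (-(6 * (mm δ n : ℝ))) := by
        apply Real.exp_le_exp.mpr
        linarith

/-- lower bound for `(q/8)^4` -/
lemma q4_ge (δ : ℝ) (n : ℕ) (hn : 0 < n) (q : ℕ) (hq : (n : ℝ) ^ (1 / 6 + δ) / 13 ≤ q) :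
    (n : ℝ) ^ (2 / 3 + 4 * δ) / 104 ^ 4 ≤ (q / 8 : ℝ) ^ 4 := by
  have hn' : (0 : ℝ) < n := by exact_mod_cast hn
  have h1 : (n : ℝ) ^ (1 / 6 + δ) / 104 ≤ (q / 8 : ℝ) := by linarith
  calc (n : ℝ) ^ (2 / 3 + 4 * δ) / 104 ^ 4 = ((n : ℝ) ^ (1 / 6 + δ) / 104) ^ 4 := by
        rw [div_pow, ← Real.rpow_natCast ((n : ℝ) ^ (1 / 6 + δ)), ← Real.rpow_mul hn'.le]
        congr 2
        push_cast; ring
    _ ≤ (q / 8 : ℝ) ^ 4 := pow_le_pow_left₀ (by positivity) h1 _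

lemma c7 (δ : ℝ) (hδ : 0 < δ) : ∀ᶠ n : ℕ in atTop, ∀ (q : ℕ) (Λ : ℝ), 70 ≤ Λ →
    (n : ℝ) ^ (1 / 6 + δ) / 13 ≤ q → (n : ℝ) < Real.exp (Λ * (q / 8 : ℝ) ^ 4) := by
  filter_upwards [ev_log 0 (2 / 3 + 4 * δ) (104 ^ 4) (by linarith), eventually_ge_atTop 2]
    with n h1 h2 q Λ hΛ hq
  have hn : (2 : ℝ) ≤ n := by exact_mod_cast h2
  have h3 := q4_ge δ n (by omega) q hq
  have hlog : 0 < Real.log n := Real.log_pos (by linarith)
  rw [Real.rpow_zero, mul_one] at h1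
  have h4 : Real.log n ≤ (q / 8 : ℝ) ^ 4 := by
    refine le_trans ?_ h3
    rw [le_div_iff₀ (by positivity)]
    linarith
  rw [← Real.log_lt_iff_lt_exp (by linarith)]
  nlinarith

lemma card_Alt_le (n : ℕ) (hn : 1 ≤ n) : (Fintype.card (Alt n) : ℝ) ≤ Real.exp (n * Real.log n) := by
  have hn' : (0 : ℝ) < n := by exact_mod_cast hn
  have h1 : Fintype.card (Alt n) ≤ n.factorial := by
    have : Fintype.card (Alt n) ≤ Fintype.card (Equiv.Perm (Fin n)) :=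
      Fintype.card_subtype_le _
    rwa [Fintype.card_perm, Fintype.card_fin] at this
  have h2 : n.factorial ≤ n ^ n := Nat.factorial_le_pow n
  calc (Fintype.card (Alt n) : ℝ) ≤ (n : ℝ) ^ n := by exact_mod_cast h1.trans h2
    _ = Real.exp (n * Real.log n) := by
        rw [Real.exp_nat_mul, Real.exp_log hn']

lemma c15 (δ δ1 : ℝ) (hδ : 0 < δ) (hδ1 : δ1 ≤ δ) (hδ2 : δ1 < 1 / 3) : ∀ᶠ n : ℕ in atTop, ∀ (q : ℕ),
    (n : ℝ) ^ (1 / 6 + δ) / 13 ≤ q →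
      (Fintype.card (Alt n) : ℝ) < Real.exp (2 * mm δ1 n * (q / 8 : ℝ) ^ 4) := by
  filter_upwards [ev_log 1 (1 + 3 * δ) (104 ^ 4 * 2) (by linarith), eventually_ge_atTop 2,
    mm_ge δ1 hδ2] with n h1 h2 h5 q hq
  have hn : (2 : ℝ) ≤ n := by exact_mod_cast h2
  have hn0 : (0 : ℝ) < n := by linarith
  have h3 := q4_ge δ n (by omega) q hq
  have hlog : 0 < Real.log n := Real.log_pos (by linarith)
  rw [Real.rpow_one] at h1
  refine (card_Alt_le n (by omega)).trans_lt (Real.exp_lt_exp.mpr ?_)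
  have h6 : (n : ℝ) ^ (1 + 3 * δ) / 104 ^ 4 ≤ 2 * mm δ1 n * (q / 8 : ℝ) ^ 4 := by
    calc (n : ℝ) ^ (1 + 3 * δ) / 104 ^ 4
        ≤ (n : ℝ) ^ (1 / 3 - δ1) * ((n : ℝ) ^ (2 / 3 + 4 * δ) / 104 ^ 4) := by
          rw [← mul_div_assoc, ← Real.rpow_add hn0]
          have := Real.rpow_le_rpow_of_exponent_le (show (1 : ℝ) ≤ n by linarith)
            (show 1 + 3 * δ ≤ 1 / 3 - δ1 + (2 / 3 + 4 * δ) by linarith)
          exact div_le_div_of_nonneg_right this (by positivity)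
      _ ≤ (2 * mm δ1 n) * (q / 8 : ℝ) ^ 4 := by
          gcongr
          linarith
  have h7 : (n : ℝ) * Real.log n < (n : ℝ) ^ (1 + 3 * δ) / 104 ^ 4 := by
    rw [lt_div_iff₀ (by positivity)]
    have : 0 < (n : ℝ) * Real.log n := by positivity
    nlinarith
  linarith

/-- the sum over the low levels is small -/
lemma sumlow (δ : ℝ) (hδ : 0 < δ) (C0 : ℕ) (δ1 : ℝ) (hδ1 : 0 < δ1) :
    ∀ᶠ n : ℕ in atTop, ∀ (q : ℕ) (Λ : ℝ),
    70 ≤ Λ → (n : ℝ) ^ (1 / 6 + δ) / 13 ≤ q → (q : ℝ) ≤ (n : ℝ) ^ C0 →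
      (q : ℝ) * ∑ j ∈ Finset.Icc 1 (mm δ1 n),
        4 * ((n : ℝ) * Real.exp (-(Λ * q / 8))) ^ j ≤ 1 / n := by
  filter_upwards [ev_log 0 (1 / 6 + δ) (13 * (C0 + 6)) (by linarith), eventually_ge_atTop 4,
    A1 δ1 hδ1] with n h1 h2 h3 q Λ hΛ hq hqC
  have hn : (4 : ℝ) ≤ n := by exact_mod_cast h2
  have hn0 : (0 : ℝ) < n := by linarith
  rw [Real.rpow_zero, mul_one] at h1
  have hlog : 0 < Real.log n := Real.log_pos (by linarith)
  have hq0 : (0 : ℝ) ≤ q := Nat.cast_nonneg q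
  have hq1 : (C0 + 6) * Real.log n ≤ q := by linarith
  set y : ℝ := (n : ℝ) * Real.exp (-(Λ * q / 8)) with hy
  have hy0 : 0 ≤ y := by positivity
  have hy1 : y ≤ (n : ℝ) * Real.exp (-((C0 + 6) * Real.log n)) := by
    rw [hy]
    gcongr
    nlinarith
  have hy2 : (n : ℝ) * Real.exp (-((C0 + 6) * Real.log n)) = 1 / (n : ℝ) ^ (C0 + 5) := by
    rw [Real.exp_neg]
    have : Real.exp ((C0 + 6) * Real.log n) = (n : ℝ) ^ (C0 + 6) := by
      have := Real.exp_nat_mul (Real.log n) (C0 + 6)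
      push_cast at this
      rw [this, Real.exp_log hn0]
    rw [this, pow_succ]
    field_simp
  rw [hy2] at hy1
  have hone : (1 : ℝ) ≤ n := by linarith
  have hy3 : y ≤ 1 := by
    refine hy1.trans ?_
    rw [div_le_one (by positivity)]
    exact one_le_pow₀ hone
  have hmm : (mm δ1 n : ℝ) ≤ n := by linarith [Nat.cast_nonneg (α := ℝ) (mm δ1 n)]
  calc (q : ℝ) * ∑ j ∈ Finset.Icc 1 (mm δ1 n), 4 * y ^ j
      ≤ (n : ℝ) ^ C0 * ∑ j ∈ Finset.Icc 1 (mm δ1 n), 4 * (1 / (n : ℝ) ^ (C0 + 5)) := by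
        gcongr with j hj
        rw [Finset.mem_Icc] at hj
        exact (pow_le_of_le_one hy0 hy3 (by omega)).trans hy1
    _ = (n : ℝ) ^ C0 * (mm δ1 n * (4 * (1 / (n : ℝ) ^ (C0 + 5)))) := by simp
    _ ≤ (n : ℝ) ^ C0 * (n * (n * (1 / (n : ℝ) ^ (C0 + 5)))) := by gcongr
    _ = 1 / (n : ℝ) ^ 3 := by
        rw [show C0 + 5 = C0 + 2 + 3 by ring, pow_add, pow_add]
        field_simp
    _ ≤ 1 / n := by
        apply one_div_le_one_div_of_le hn0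
        calc (n : ℝ) = n ^ 1 := (pow_one _).symm
          _ ≤ n ^ 3 := pow_le_pow_right₀ hone (by norm_num)

lemma NC_le : ∀ᶠ n : ℕ in atTop,
    (NC n : ℝ) ≤ Real.exp (9 * (n : ℝ) ^ (1 / 2 : ℝ) * Real.log n) := by
  filter_upwards [eventually_ge_atTop 4] with n h2
  have hn : (4 : ℝ) ≤ n := by exact_mod_cast h2
  have hn0 : (0 : ℝ) < n := by linarith
  have hlog1 : 1 ≤ Real.log n := by
    rw [Real.le_log_iff_exp_le hn0]
    linarith [Real.exp_one_lt_d9]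
  have hs : (1 : ℝ) ≤ (n : ℝ) ^ (1 / 2 : ℝ) := Real.one_le_rpow (by linarith) (by norm_num)
  have h3 : (Nat.sqrt n : ℝ) ≤ (n : ℝ) ^ (1 / 2 : ℝ) := by
    rw [← Real.sqrt_eq_rpow]
    exact Real.nat_sqrt_le_real_sqrt
  have h4 : Real.log (n + 1) ≤ 2 * Real.log n := by
    rw [show (2 : ℝ) * Real.log n = Real.log ((n : ℝ) ^ 2) by rw [Real.log_pow]; norm_num]
    apply Real.log_le_log (by linarith)
    nlinarith
  have h5 : (NC n : ℝ) = Real.exp (Real.log 2 + (2 * Nat.sqrt n + 2) * Real.log (n + 1)) := by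
    unfold NC
    push_cast
    rw [Real.exp_add, Real.exp_log (by norm_num)]
    congr 1
    have := Real.exp_nat_mul (Real.log ((n : ℝ) + 1)) (2 * Nat.sqrt n + 2)
    push_cast at this
    rw [this, Real.exp_log (by linarith)]
  rw [h5]
  apply Real.exp_le_exp.mpr
  have h6 : Real.log 2 ≤ 1 := by
    have := Real.log_two_lt_d9; linarith
  have h7 : (2 * (Nat.sqrt n : ℝ) + 2) * Real.log (n + 1) ≤
      (4 * (n : ℝ) ^ (1 / 2 : ℝ)) * (2 * Real.log n) := by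
    apply mul_le_mul (by linarith) h4 (Real.log_nonneg (by linarith)) (by positivity)
  have h8 : (1 : ℝ) ≤ (n : ℝ) ^ (1 / 2 : ℝ) * Real.log n := by nlinarith
  nlinarith

lemma sumhigh (δ δ1 : ℝ) (hδ : 0 < δ) (hδ1 : δ1 ≤ δ / 2) (hδ2 : δ1 < 1 / 3) (C0 : ℕ) :
    ∀ᶠ n : ℕ in atTop, ∀ (q : ℕ), (n : ℝ) ^ (1 / 6 + δ) / 13 ≤ q → (q : ℝ) ≤ (n : ℝ) ^ C0 →
      (q : ℝ) * (NC n * (4 * Real.exp (-(mm δ1 n * q / 4)))) ≤ 1 / n := by
  filter_upwards [NC_le, mm_ge δ1 hδ2, eventually_ge_atTop 4,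
    ev_log (1 / 2) (1 / 2 + δ / 2) (104 * (C0 + 11)) (by linarith)] with n h1 h2 h3 h4 q hq hqC
  have hn : (4 : ℝ) ≤ n := by exact_mod_cast h3
  have hn0 : (0 : ℝ) < n := by linarith
  have hlog1 : 1 ≤ Real.log n := by
    rw [Real.le_log_iff_exp_le hn0]
    linarith [Real.exp_one_lt_d9]
  have hs : (1 : ℝ) ≤ (n : ℝ) ^ (1 / 2 : ℝ) := Real.one_le_rpow (by linarith) (by norm_num)
  set s : ℝ := (n : ℝ) ^ (1 / 2 : ℝ) with hsdef
  have h5 : 104 * ((C0 + 11) * s * Real.log n) / 104 ≤ mm δ1 n * q / 4 := by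
    have h6 : (n : ℝ) ^ (1 / 2 + δ / 2) / 26 ≤ mm δ1 n * q := by
      calc (n : ℝ) ^ (1 / 2 + δ / 2) / 26 ≤
            ((n : ℝ) ^ (1 / 3 - δ1) / 2) * ((n : ℝ) ^ (1 / 6 + δ) / 13) := by
            rw [div_mul_div_comm, ← Real.rpow_add hn0]
            have := Real.rpow_le_rpow_of_exponent_le (show (1 : ℝ) ≤ n by linarith)
              (show 1 / 2 + δ / 2 ≤ 1 / 3 - δ1 + (1 / 6 + δ) by linarith)
            norm_num at this ⊢
            linarith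
        _ ≤ mm δ1 n * q := by gcongr
    have e : 104 * (C0 + 11) * s * Real.log n = 104 * ((C0 + 11) * s * Real.log n) := by ring
    rw [e] at h4
    linarith
  have h6 : (C0 + 11) * s * Real.log n ≤ mm δ1 n * q / 4 := by linarith
  have hq' : (q : ℝ) ≤ Real.exp (C0 * Real.log n) := by
    rw [Real.exp_nat_mul, Real.exp_log hn0]; exact hqC
  have h4' : (4 : ℝ) ≤ Real.exp (Real.log n) := by rw [Real.exp_log hn0]; exact hn
  have hsl : Real.log n ≤ s * Real.log n := by nlinarith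
  have hC0 : (C0 : ℝ) * Real.log n ≤ C0 * (s * Real.log n) := by gcongr
  calc (q : ℝ) * (NC n * (4 * Real.exp (-(mm δ1 n * q / 4))))
      ≤ Real.exp (C0 * Real.log n) * (Real.exp (9 * s * Real.log n) *
        (Real.exp (Real.log n) * Real.exp (-((C0 + 11) * s * Real.log n)))) := by
        gcongr
    _ = Real.exp (C0 * Real.log n + 9 * s * Real.log n + Real.log n +
          -((C0 + 11) * s * Real.log n)) := by
        rw [← Real.exp_add, ← Real.exp_add, ← Real.exp_add]; congr 1; ring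
    _ ≤ Real.exp (-Real.log n) := by
        apply Real.exp_le_exp.mpr
        nlinarith
    _ = 1 / n := by rw [Real.exp_neg, Real.exp_log hn0, one_div]

end RC14
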