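import Pool.Agent.H14R2.RC.R2c

namespace RC14
open scoped InnerProductSpace
open Finset Filter Topology

lemma Expanding.mono {G : Type*} [Group G] [Fintype G] {k : ℕ} {ε ε' : ℝ} {x : Fin k → G}
    (h : Expanding ε' x) (hε : ε ≤ ε') : Expanding ε x := by
  refine ⟨h.1, fun f hf => (h.2 f hf).trans ?_⟩
  have : 0 ≤ ∑ g, f g ^ 2 := Finset.sum_nonneg fun _ _ => by positivity
  nlinarith

theorem R2core (δ : ℝ) (hδ : 0 < δ) (hδ1 : δ ≤ 1 / 2) (C0 : ℕ) :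
    ∀ᶠ n : ℕ in atTop, ∀ k : ℕ, (n : ℝ) ^ (1 / 6 + δ) ≤ k → (k : ℝ) ≤ (n : ℝ) ^ C0 →
      (Nat.card {y : Fin k → Alt n // ¬ Expanding (1 / 7000) y} : ℝ) ≤
        3 / (n : ℝ) * (Fintype.card (Alt n) : ℝ) ^ k := by
  set δ1 : ℝ := δ / 4 with hδ1def
  have h0 : 0 < δ1 := by positivity
  have h1 : δ1 ≤ 1 / 4 := by linarith
  have h2 : δ1 < 1 / 3 := by linarith
  filter_upwards [A1 δ1 h0, A2 δ1 h0 h1, A3 δ1 h0 h1, EXPO3 δ1 h0 h1 (C0 + 1),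
    eventually_ge_atTop 1000, q_ge δ hδ, Lam_ge δ1 h0, c13 δ1 h2, c14 δ1 h0 h2, c10 δ1 h0,
    c9 δ1 h0 h2, c12 δ1 h0 h2, c7 δ hδ, c15 δ δ1 hδ (by linarith) h2,
    sumlow δ hδ C0 δ1 h0, sumhigh δ δ1 hδ (by linarith) h2 C0,
    ev_const (1 / 6 + δ) 156 (by linarith)] with n a1 a2 a3 a4 a5 a6 a7 a8 a9 a10 a11 a12 a13 a14
      a15 a16 a17 k hk1 hk2
  obtain ⟨hq1, hq2⟩ := a6 k hk1
  set q : ℕ := k / 12 with hqdef
  have hn1 : (1000 : ℝ) ≤ n := by exact_mod_cast a5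
  have hn : (0 : ℝ) < n := by linarith
  have hk156 : (156 : ℝ) ≤ k := a17.trans hk1
  have hk156' : 156 ≤ k := by exact_mod_cast hk156
  have hq8 : 8 ≤ q := by omega
  have hqk : (q : ℝ) ≤ (n : ℝ) ^ C0 := by
    refine le_trans ?_ hk2
    exact_mod_cast Nat.div_le_self k 12
  set A : ℝ := (Fintype.card (Alt n) : ℝ) with hA
  have hA0 : 0 < A := by rw [hA]; exact_mod_cast Fintype.card_pos
  have hm : 2 * mm δ1 n + 2 ≤ n := by
    have : (2 : ℝ) * mm δ1 n + 2 ≤ n := by linarith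
    exact_mod_cast this
  have hρ : (8 / 7 : ℝ) ^ (2 * L1 δ1 n) * ((1 / 4 : ℝ) ^ L1 δ1 n + 4 * (n : ℝ) ^ (-(δ1 / 2))) ≤
      Real.exp (-Lam δ1 n) := by
    rw [exp_Lam δ1 n (by omega)]
    exact rho_le δ1 h0 n (by omega)
  have hF : 2 * FF δ1 n ≤ n := by
    have : (2 : ℝ) * FF δ1 n ≤ n := by linarith
    exact_mod_cast this
  set Cc : ℝ := ∑ j ∈ Finset.Icc 1 (mm δ1 n), 4 * ((n : ℝ) * Real.exp (-(Lam δ1 n * q / 8))) ^ j +
        NC n * (4 * Real.exp (-(mm δ1 n * q / 4))) with hCc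
  have hCc0 : 0 ≤ Cc := by rw [hCc]; positivity
  have hZ : ∀ x : Fin 8 → Alt n, FewFix n (ll δ1 n) (FF δ1 n)
      (fun i => (x i : Equiv.Perm (Fin n))) →
      (Nat.card {z : Fin 4 → Fin q → Alt n // ¬ GoodZ n (mm δ1 n) x z} : ℝ) ≤
        Cc * A ^ (4 * q) := by
    intro x hx
    exact R2Z n (mm δ1 n) (ll δ1 n) (FF δ1 n) (ms n) q (L1 δ1 n) (4 * (n : ℝ) ^ (-(δ1 / 2)))
      (Lam δ1 n) hm a2 a3 (by positivity) hρ a7 hq8 (a13 q (Lam δ1 n) a7 hq1) a5 a11 hF (ms_sq n)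
      a12 a8 a9 (a14 q hq1) x hx
  have hP : (Nat.card {x : Fin 8 → Alt n // ¬ FewFix n (ll δ1 n) (FF δ1 n)
      (fun i => (x i : Equiv.Perm (Fin n)))} : ℝ) ≤ 1 / (n : ℝ) ^ (C0 + 1) * A ^ 8 := by
    rw [div_mul_eq_mul_div, le_div_iff₀ (by positivity), one_mul]
    exact a4
  have hmain := R2Y n (mm δ1 n) k q (by omega) (by omega)
    (fun x => FewFix n (ll δ1 n) (FF δ1 n) (fun i => (x i : Equiv.Perm (Fin n))))
    (1 / (n : ℝ) ^ (C0 + 1)) Cc hCc0 hP hZ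
  have hkpos : (0 : ℝ) < k := by linarith
  have hsub := card_mono (Z := Fin k → Alt n) (fun y => ¬ Expanding (1 / 7000) y)
    (fun y => ¬ GoodY n (mm δ1 n) (q / 256 : ℝ) y) (by
      intro y hy hg
      apply hy
      have hq0 : (0 : ℝ) < q := by exact_mod_cast (by omega : 0 < q)
      have h3 := FRALL n (mm δ1 n) k (by omega) y (q / 256 : ℝ) (by positivity)
        (fun j hj1 hj2 f hf => hg.1 j hj1 hj2 f hf) (fun f hf => hg.2 f hf)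
      refine h3.mono ?_
      rw [div_div, div_le_div_iff₀ (by norm_num) (by positivity)]
      linarith)
  refine (Nat.cast_le.mpr hsub).trans (hmain.trans ?_)
  have hB : (q : ℝ) * (1 / (n : ℝ) ^ (C0 + 1)) ≤ 1 / n := by
    calc (q : ℝ) * (1 / (n : ℝ) ^ (C0 + 1)) ≤ (n : ℝ) ^ C0 * (1 / (n : ℝ) ^ (C0 + 1)) := by
          gcongr
      _ = 1 / n := by rw [pow_succ]; field_simp
  have hC : (q : ℝ) * Cc ≤ 2 / n := by
    have e1 := a15 q (Lam δ1 n) a7 hq1 hqk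
    have e2 := a16 q hq1 hqk
    rw [hCc, mul_add]
    have : (2 : ℝ) / n = 1 / n + 1 / n := by ring
    linarith
  have : (q : ℝ) * (1 / (n : ℝ) ^ (C0 + 1)) + q * Cc ≤ 3 / n := by
    have : (3 : ℝ) / n = 1 / n + 2 / n := by ring
    linarith
  gcongr

end RC14
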