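import Pool.Agent.H14R2.RC.Gen
import Pool.Agent.H14R2.RC.R2d
import Pool.Agent.H14R2.RC.S.TYPESLVL
import Pool.Agent.H14R2.RC.S.CONJS
import Pool.Agent.H14R2.RC.S.FRV
import Pool.Agent.H14R2.RC.S.BLOCKS

namespace RC14
open scoped InnerProductSpace
open Finset Filter Topology

lemma coord_bound {X : Type*} [Fintype X] (P : X → Prop) (q : ℕ) (i : Fin q) (B : ℝ)
    (hB : (Nat.card {x : X // ¬ P x} : ℝ) ≤ B * Fintype.card X) :
    (Nat.card {x : Fin q → X // ¬ P (x i)} : ℝ) ≤ B * (Fintype.card X : ℝ) ^ q := by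
  classical
  have e1 : Nat.card {x : Fin q → X // ¬ P (x i)} =
      Nat.card {x : X // ¬ P x} * Fintype.card X ^ (q - 1) := by
    rw [Nat.card_eq_fintype_card, Fintype.card_subtype]
    have : (univ.filter fun x : Fin q → X => ¬ P (x i)) =
        Fintype.piFinset (Function.update (fun _ => univ) i (univ.filter fun x => ¬ P x)) := by
      ext x
      simp only [mem_filter, mem_univ, true_and, Fintype.mem_piFinset]
      constructor
      · intro hx a
        by_cases ha : a = i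
        · subst ha; simpa using hx
        · simp [Function.update_of_ne ha]
      · intro hx
        simpa using hx i
    rw [this, Fintype.card_piFinset]
    rw [← Finset.prod_erase_mul _ _ (Finset.mem_univ i)]
    rw [Finset.prod_congr rfl (g := fun _ => Fintype.card X)]
    · rw [Finset.prod_const, Finset.card_erase_of_mem (Finset.mem_univ i), Finset.card_univ,
        Fintype.card_fin, Function.update_self, Nat.card_eq_fintype_card, Fintype.card_subtype,
        mul_comm]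
    · intro a ha
      rw [Function.update_of_ne (Finset.ne_of_mem_erase ha), Finset.card_univ]
  rw [e1]
  push_cast
  have hq : q = (q - 1) + 1 := by have := i.2; omega
  calc (Nat.card {x : X // ¬ P x} : ℝ) * (Fintype.card X : ℝ) ^ (q - 1)
      ≤ (B * Fintype.card X) * (Fintype.card X : ℝ) ^ (q - 1) := by gcongr
    _ = B * (Fintype.card X : ℝ) ^ q := by
        conv_rhs => rw [hq, pow_succ]
        ring

section
variable {G : Type*} [Group G]
variable {V : Type*} [NormedAddCommGroup V] [InnerProductSpace ℂ V]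

/-- energy of one base group and all amplifying letters -/
noncomputable def E3 {q R : ℕ} (ρ : G →* (V ≃ₗᵢ[ℂ] V)) (x : Fin 8 → G) (z : Fin R → Fin q → G)
    (v : V) : ℝ := 4 * En ρ x v + 48 * (R : ℝ) / q * ∑ r, En ρ (z r) v
end

lemma isEn_E3 {G : Type*} [Group G] [Fintype G]
    {V : Type*} [NormedAddCommGroup V] [InnerProductSpace ℂ V] [FiniteDimensional ℂ V]
    {q R : ℕ} (ρ : G →* (V ≃ₗᵢ[ℂ] V)) (x : Fin 8 → G) (z : Fin R → Fin q → G) :
    IsEn ρ (E3 ρ x z) :=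
  ((IsEn.en ρ x).smul 4 (by norm_num)).add
    ((IsEn.sum Finset.univ (fun r => En ρ (z r)) fun r => IsEn.en ρ (z r)).smul
      (48 * (R : ℝ) / q) (by positivity))

/-- the low levels: one round suffices -/
theorem LOW3 (n j ℓ F q R L1 : ℕ) (b Λ : ℝ) (hj1 : 1 ≤ j) (hj : 2 * j + 2 ≤ n)
    (hL : 2 * (j * L1) ≤ ℓ) (hb : bb j j n F ≤ b) (hb0 : 0 ≤ b)
    (hρ : (8 / 7 : ℝ) ^ (2 * L1) * ((1 / 4 : ℝ) ^ L1 + b) ≤ Real.exp (-Λ)) (hΛ : 70 ≤ Λ)
    (hq : 8 ≤ q) (hR : 1 ≤ R) (hd : (n : ℝ) < Real.exp (Λ * (q / 8 : ℝ)))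
    (x : Fin 8 → Alt n) (hx : FewFix n ℓ F (fun i => (x i : Equiv.Perm (Fin n)))) :
    (Nat.card {z : Fin R → Fin q → Alt n // ¬ ∀ v ∈ Lvl j n,
        1 * ‖v‖ ^ 2 ≤ E3 (repA j n) x z v} : ℝ) ≤
      ((n : ℝ) * Real.exp (-(Λ * q / 8))) ^ j * (Fintype.card (Alt n) : ℝ) ^ (R * q) := by
  classical
  have hj1' : (1 : ℝ) ≤ j := by exact_mod_cast hj1
  have hfr : Module.finrank ℂ (Lvl j n) ≤ n ^ j := finrank_le_pow _
  obtain ⟨N, W, hN, hW⟩ := DECOMP (repA j n) (Lvl j n) (Lvl_inv j n)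
  have key : (8 / 7 : ℝ) ^ (2 * (j * L1)) * ((1 / 4 : ℝ) ^ (j * L1) + b ^ j) ≤
      Real.exp (-(j * Λ)) := by
    calc (8 / 7 : ℝ) ^ (2 * (j * L1)) * ((1 / 4 : ℝ) ^ (j * L1) + b ^ j)
        ≤ ((8 / 7 : ℝ) ^ (2 * L1) * ((1 / 4 : ℝ) ^ L1 + b)) ^ j := by
          rw [mul_pow, ← pow_mul, show 2 * (j * L1) = 2 * L1 * j by ring,
            show j * L1 = L1 * j by ring, pow_mul (1 / 4 : ℝ) L1 j]
          gcongr
          exact pow_add_pow_le (by positivity) hb0 (by omega)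
      _ ≤ Real.exp (-Λ) ^ j := pow_le_pow_left₀ (by positivity) hρ _
      _ = Real.exp (-(j * Λ)) := by rw [← Real.exp_nat_mul]; congr 1; ring
  set A : ℝ := (Fintype.card (Alt n) : ℝ) with hA
  have hA0 : 0 < A := by rw [hA]; exact_mod_cast Fintype.card_pos
  have h := UBG (repA j n) (Lvl j n) (n ^ j) ⟨N, W, hN.trans hfr, hW⟩
    (Z := Fin R → Fin q → Alt n) (fun z v => E3 (repA j n) x z v) (fun z => isEn_E3 _ _ _) 1
    (Real.exp (-(j * Λ * q / 8)) * A ^ (R * q)) (by positivity) ?_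
  · refine h.trans ?_
    have e1 : Real.exp (-(j * Λ * q / 8)) = Real.exp (-(Λ * q / 8)) ^ j := by
      rw [← Real.exp_nat_mul]; congr 1; ring
    rw [e1, mul_pow]
    push_cast
    apply le_of_eq
    ring
  · intro W hW hWL
    have hdW : (Module.finrank ℂ W : ℝ) < Real.exp (j * Λ * (q / 8 : ℝ) ^ 1) := by
      calc (Module.finrank ℂ W : ℝ) ≤ (n : ℝ) ^ j := by exact_mod_cast finrank_le_pow W
        _ < Real.exp (Λ * (q / 8 : ℝ)) ^ j := pow_lt_pow_left₀ hd (by positivity) (by omega)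
        _ = Real.exp (j * Λ * (q / 8 : ℝ) ^ 1) := by
            rw [← Real.exp_nat_mul]; congr 1; ring
    have h2 := AMP2SUB (repA j n) W hW x (j * L1) ((1 / 4 : ℝ) ^ (j * L1) + b ^ j)
      (LVLTR n j L1 ℓ F hj hL x hx b hb W hW hWL) q 1 hq (j * Λ) (by nlinarith) key hdW
    -- transfer from `Fin 1` to one coordinate of `Fin R`
    have h3 : (Nat.card {z : Fin q → Alt n // ¬ ∀ v ∈ W,
        (1 / 4 : ℝ) * ‖v‖ ^ 2 ≤ 1 / 2 * En (repA j n) x v +
          1 / (q : ℝ) * En (repA j n) z v} : ℝ) ≤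
        Real.exp (-(j * Λ * q / 8)) * Fintype.card (Fin q → Alt n) := by
      have e := card_equiv (Equiv.funUnique (Fin 1) (Fin q → Alt n))
        (fun z => ¬ ∀ v ∈ W, (1 / 4 : ℝ) ^ 1 * ‖v‖ ^ 2 ≤
          1 / 2 * En (repA j n) x v + 1 / (q : ℝ) * ∑ r, En (repA j n) (z r) v)
        (fun z => ¬ ∀ v ∈ W, (1 / 4 : ℝ) * ‖v‖ ^ 2 ≤
          1 / 2 * En (repA j n) x v + 1 / (q : ℝ) * En (repA j n) z v) (fun z => by
            simp)
      rw [← e]
      refine h2.trans (le_of_eq ?_)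
      rw [Fintype.card_fun, Fintype.card_fin]
      push_cast
      ring
    have h4 := coord_bound (X := Fin q → Alt n) (fun z => ∀ v ∈ W,
        (1 / 4 : ℝ) * ‖v‖ ^ 2 ≤ 1 / 2 * En (repA j n) x v +
          1 / (q : ℝ) * En (repA j n) z v) R ⟨0, hR⟩ _ h3
    have h5 := card_mono (Z := Fin R → Fin q → Alt n)
      (fun z => ¬ ∀ v ∈ W, 1 * ‖v‖ ^ 2 ≤ E3 (repA j n) x z v)
      (fun z => ¬ ∀ v ∈ W, (1 / 4 : ℝ) * ‖v‖ ^ 2 ≤ 1 / 2 * En (repA j n) x v +
          1 / (q : ℝ) * En (repA j n) (z ⟨0, hR⟩) v) (by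
        intro z hz hcon
        apply hz
        intro v hv
        have h6 := hcon v hv
        have h7 : En (repA j n) (z ⟨0, hR⟩) v ≤ ∑ r, En (repA j n) (z r) v :=
          Finset.single_le_sum (f := fun r => En (repA j n) (z r) v)
            (fun r _ => RC14.En_nonneg (repA j n) (z r) v) (Finset.mem_univ _)
        have h8 : 0 ≤ En (repA j n) x v := RC14.En_nonneg _ _ _
        have h9 : 0 ≤ En (repA j n) (z ⟨0, hR⟩) v := RC14.En_nonneg _ _ _
        have hq0 : (0 : ℝ) < q := by exact_mod_cast (by omega : 0 < q)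
        have hR' : (1 : ℝ) ≤ R := by exact_mod_cast hR
        have h10 : 4 / (q : ℝ) ≤ 48 * (R : ℝ) / q := by
          apply div_le_div_of_nonneg_right _ hq0.le
          linarith
        have h11 : 4 / (q : ℝ) * En (repA j n) (z ⟨0, hR⟩) v ≤
            48 * (R : ℝ) / q * ∑ r, En (repA j n) (z r) v := by
          apply mul_le_mul h10 h7 h9 (by positivity)
        have h12 : 4 / (q : ℝ) * En (repA j n) (z ⟨0, hR⟩) v =
            4 * (1 / (q : ℝ) * En (repA j n) (z ⟨0, hR⟩) v) := by ring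
        unfold E3
        linarith)
    refine (Nat.cast_le.mpr h5).trans (h4.trans (le_of_eq ?_))
    rw [Fintype.card_fun, Fintype.card_fin]
    push_cast
    rw [← hA, ← pow_mul, mul_comm q R]

/-- trace bound for irreducible subspaces of the middle levels -/
theorem MIDTR (n j m0 ℓ F : ℕ) (hj : 2 * j + 2 ≤ n) (hm : m0 ≤ j) (hL : 2 * (3 * m0) ≤ ℓ)
    (x : Fin 8 → Alt n) (hx : FewFix n ℓ F (fun i => (x i : Equiv.Perm (Fin n))))
    (hb : bb j m0 n F ≤ Real.exp (-3)) (W : Submodule ℂ (V j n)) (hW : Irr (repA j n) W)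
    (hWL : W ≤ Lvl j n) :
    Rt (repA j n) W hW.2.1 x (2 * (3 * m0)) ≤
      ((1 / 4 : ℝ) ^ (3 * m0) + Real.exp (-(3 * m0))) * Module.finrank ℂ W := by
  refine TRWSUB (repA j n) W hW.2.1 x (3 * m0) _ (by positivity) ?_
  intro u hu hul
  have h1 := hx u hu (hul.trans hL)
  have e : ((FreeGroup.lift x u : Alt n) : Equiv.Perm (Fin n)) =
      FreeGroup.lift (fun i => (x i : Equiv.Perm (Fin n))) u := by
    have : (Subgroup.subtype (alternatingGroup (Fin n))).comp (FreeGroup.lift x) =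
        FreeGroup.lift (fun i => (x i : Equiv.Perm (Fin n))) := by
      ext i
      simp
    exact DFunLike.congr_fun this u
  have h2 : nfix ((FreeGroup.lift x u : Alt n) : Equiv.Perm (Fin n)) ≤ F := by
    rw [e]; exact h1.le
  refine (CHARB j m0 n F hj hm W hW.2.1 hWL _ h2).trans ?_
  have h5 : bb j m0 n F ^ m0 ≤ Real.exp (-(3 * m0)) := by
    calc bb j m0 n F ^ m0 ≤ (Real.exp (-3)) ^ m0 :=
          pow_le_pow_left₀ (bb_nonneg _ _ _ _) hb _
      _ = Real.exp (-(3 * m0)) := by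
          rw [← Real.exp_nat_mul]; congr 1; ring
  gcongr

/-- the middle levels -/
theorem MID3 (n j m0 ℓ F q R : ℕ) (hj : 2 * j + 2 ≤ n) (hm : m0 ≤ j) (hL : 2 * (3 * m0) ≤ ℓ)
    (hm5 : 5 ≤ m0) (hb : bb j m0 n F ≤ Real.exp (-3)) (hR : 1 ≤ R) (hq : 8 * R ≤ q)
    (hmR : 4 * R ≤ m0)
    (hd : (n : ℝ) ^ j < Real.exp (2 * m0 * ((q : ℝ) / (8 * R)) ^ R))
    (x : Fin 8 → Alt n) (hx : FewFix n ℓ F (fun i => (x i : Equiv.Perm (Fin n)))) :
    (Nat.card {z : Fin R → Fin q → Alt n // ¬ ∀ v ∈ Lvl j n,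
        1 * ‖v‖ ^ 2 ≤ E3 (repA j n) x z v} : ℝ) ≤
      Real.exp (3 * Real.sqrt j) * (R * Real.exp (-(2 * m0 * q / (8 * R)))) *
        (Fintype.card (Alt n) : ℝ) ^ (R * q) := by
  have h := UBG (repA j n) (Lvl j n) _ (TYPESLVL j n hj)
    (Z := Fin R → Fin q → Alt n) (fun z v => E3 (repA j n) x z v) (fun z => isEn_E3 _ _ _) 1
    (R * Real.exp (-(2 * m0 * q / (8 * R))) * (Fintype.card (Alt n) : ℝ) ^ (R * q))
    (by positivity) ?_
  · refine h.trans ?_
    have := CONJS j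
    have h0 : 0 ≤ R * Real.exp (-(2 * m0 * q / (8 * R))) *
      (Fintype.card (Alt n) : ℝ) ^ (R * q) := by positivity
    calc _ ≤ Real.exp (3 * Real.sqrt j) * (R * Real.exp (-(2 * m0 * q / (8 * R))) *
        (Fintype.card (Alt n) : ℝ) ^ (R * q)) := mul_le_mul_of_nonneg_right this h0
      _ = _ := by ring
  · intro W hW hWL
    have hm0R : 8 * (R : ℝ) ≤ 2 * m0 := by
      have : (4 : ℝ) * R ≤ m0 := by exact_mod_cast hmR
      linarith
    refine AMP3X (repA j n) W hW x (3 * m0) ((1 / 4 : ℝ) ^ (3 * m0) + Real.exp (-(3 * m0)))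
      (MIDTR n j m0 ℓ F hj hm hL x hx hb W hW hWL) q R hR hq (2 * m0) hm0R
      (high_num m0 hm5) ?_
    refine lt_of_le_of_lt ?_ hd
    exact_mod_cast finrank_le_pow W

end RC14
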