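import Pool.Agent.H14R2.RC.R3

namespace RC14
open scoped InnerProductSpace
open Finset Filter Topology

/-- all levels up to `j1` for one base group -/
def GoodS (n j1 : ℕ) {q R : ℕ} (x : Fin 8 → Alt n) (z : Fin R → Fin q → Alt n) : Prop :=
  ∀ j, 1 ≤ j → j ≤ j1 → ∀ v ∈ Lvl j n, 1 * ‖v‖ ^ 2 ≤ E3 (repA j n) x z v

theorem S1Z (n m0 j1 ℓ F q R L1 : ℕ) (b Λ : ℝ) (hj : 2 * j1 + 2 ≤ n)
    (hL : 2 * (m0 * L1) ≤ ℓ)
    (hb : ∀ j, 1 ≤ j → j ≤ m0 → bb j j n F ≤ b) (hb0 : 0 ≤ b)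
    (hρ : (8 / 7 : ℝ) ^ (2 * L1) * ((1 / 4 : ℝ) ^ L1 + b) ≤ Real.exp (-Λ)) (hΛ : 70 ≤ Λ)
    (hq : 8 * R ≤ q) (hR : 1 ≤ R) (hd : (n : ℝ) < Real.exp (Λ * (q / 8 : ℝ)))
    (hL2 : 2 * (3 * m0) ≤ ℓ) (hm5 : 5 ≤ m0)
    (hb2 : ∀ j, m0 < j → j ≤ j1 → bb j m0 n F ≤ Real.exp (-3)) (hmR : 4 * R ≤ m0)
    (hd2 : (n : ℝ) ^ j1 < Real.exp (2 * m0 * ((q : ℝ) / (8 * R)) ^ R)) (hn : 1 ≤ n)
    (x : Fin 8 → Alt n) (hx : FewFix n ℓ F (fun i => (x i : Equiv.Perm (Fin n)))) :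
    (Nat.card {z : Fin R → Fin q → Alt n // ¬ GoodS n j1 x z} : ℝ) ≤
      (∑ j ∈ Finset.Icc 1 m0, ((n : ℝ) * Real.exp (-(Λ * q / 8))) ^ j +
        j1 * (Real.exp (3 * Real.sqrt j1) * (R * Real.exp (-(2 * m0 * q / (8 * R)))))) *
        (Fintype.card (Alt n) : ℝ) ^ (R * q) := by
  classical
  have step : Nat.card {z : Fin R → Fin q → Alt n // ¬ GoodS n j1 x z} ≤
      ∑ j ∈ Finset.Icc 1 j1, Nat.card {z : Fin R → Fin q → Alt n // ¬ ∀ v ∈ Lvl j n,
        1 * ‖v‖ ^ 2 ≤ E3 (repA j n) x z v} := by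
    apply card_union_fin
    intro z hz
    by_contra hcon
    push Not at hcon
    exact hz fun j h1 h2 => hcon j (Finset.mem_Icc.mpr ⟨h1, h2⟩)
  set A : ℝ := (Fintype.card (Alt n) : ℝ) with hA
  have hA0 : 0 < A := by rw [hA]; exact_mod_cast Fintype.card_pos
  have hn1 : (1 : ℝ) ≤ n := by exact_mod_cast hn
  have hterm : ∀ j ∈ Finset.Icc 1 j1,
      (Nat.card {z : Fin R → Fin q → Alt n // ¬ ∀ v ∈ Lvl j n,
        1 * ‖v‖ ^ 2 ≤ E3 (repA j n) x z v} : ℝ) ≤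
      ((if j ∈ Finset.Icc 1 m0 then ((n : ℝ) * Real.exp (-(Λ * q / 8))) ^ j else 0) +
        Real.exp (3 * Real.sqrt j1) * (R * Real.exp (-(2 * m0 * q / (8 * R))))) *
        A ^ (R * q) := by
    intro j hjj
    rw [Finset.mem_Icc] at hjj
    by_cases hjm : j ≤ m0
    · have hmem : j ∈ Finset.Icc 1 m0 := Finset.mem_Icc.mpr ⟨hjj.1, hjm⟩
      rw [if_pos hmem]
      have h := LOW3 n j ℓ F q R L1 b Λ hjj.1 (by omega)
        (le_trans (by gcongr) hL) (hb j hjj.1 hjm) hb0 hρ hΛ (by omega) hR hd x hx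
      refine h.trans ?_
      have h0 : 0 ≤ Real.exp (3 * Real.sqrt j1) *
        (R * Real.exp (-(2 * m0 * q / (8 * R)))) := by positivity
      gcongr
      linarith
    · have hnm : j ∉ Finset.Icc 1 m0 := by
        rw [Finset.mem_Icc]; omega
      rw [if_neg hnm, zero_add]
      have h := MID3 n j m0 ℓ F q R (by omega) (by omega) hL2 hm5 (hb2 j (by omega) hjj.2) hR hq
        hmR (lt_of_le_of_lt (pow_le_pow_right₀ hn1 hjj.2) hd2) x hx
      refine h.trans ?_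
      have : Real.sqrt j ≤ Real.sqrt j1 := Real.sqrt_le_sqrt (by exact_mod_cast hjj.2)
      gcongr
  calc (Nat.card {z : Fin R → Fin q → Alt n // ¬ GoodS n j1 x z} : ℝ)
      ≤ ∑ j ∈ Finset.Icc 1 j1, (Nat.card {z : Fin R → Fin q → Alt n // ¬ ∀ v ∈ Lvl j n,
        1 * ‖v‖ ^ 2 ≤ E3 (repA j n) x z v} : ℝ) := by exact_mod_cast step
    _ ≤ ∑ j ∈ Finset.Icc 1 j1,
        ((if j ∈ Finset.Icc 1 m0 then ((n : ℝ) * Real.exp (-(Λ * q / 8))) ^ j else 0) +
        Real.exp (3 * Real.sqrt j1) * (R * Real.exp (-(2 * m0 * q / (8 * R))))) *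
        A ^ (R * q) := Finset.sum_le_sum hterm
    _ ≤ _ := by
        rw [← Finset.sum_mul, Finset.sum_add_distrib, Finset.sum_const, Nat.card_Icc,
          Nat.add_sub_cancel, nsmul_eq_mul]
        gcongr
        rw [← Finset.sum_filter]
        apply Finset.sum_le_sum_of_subset_of_nonneg
        · intro a ha
          rw [Finset.mem_filter] at ha
          exact ha.2
        · intro i _ _
          positivity

/-- assembling the letters of stage 1 -/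
def asm1 {A : Type*} {k q R : ℕ} (e : Fin k ≃ (Fin q × Fin 8) ⊕ (Fin R × Fin q)) :
    ((Fin q → Fin 8 → A) × (Fin R → Fin q → A)) ≃ (Fin k → A) where
  toFun p := fun i => Sum.elim (fun ab => p.1 ab.1 ab.2) (fun rj => p.2 rj.1 rj.2) (e i)
  invFun y := (fun a b => y (e.symm (Sum.inl (a, b))), fun r j => y (e.symm (Sum.inr (r, j))))
  left_inv p := by simp
  right_inv y := by
    funext i
    obtain ⟨s, rfl⟩ := e.symm.surjective i
    rcases s with ⟨a, b⟩ | ⟨r, j⟩ <;> simp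

lemma En_asm1 {G : Type*} [Group G]
    {V : Type*} [NormedAddCommGroup V] [InnerProductSpace ℂ V] {k q R : ℕ}
    (e : Fin k ≃ (Fin q × Fin 8) ⊕ (Fin R × Fin q)) (ρ : G →* (V ≃ₗᵢ[ℂ] V))
    (p : (Fin q → Fin 8 → G) × (Fin R → Fin q → G)) (v : V) :
    En ρ (asm1 e p) v = ∑ i, En ρ (p.1 i) v + ∑ r, En ρ (p.2 r) v := by
  unfold En
  have h : ∑ i, ‖ρ (asm1 e p i) v - v‖ ^ 2 = ∑ s : (Fin q × Fin 8) ⊕ (Fin R × Fin q),
      ‖ρ (Sum.elim (fun ab => p.1 ab.1 ab.2) (fun rj => p.2 rj.1 rj.2) s) v - v‖ ^ 2 :=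
    Fintype.sum_equiv e _ _ fun i => rfl
  rw [h, Fintype.sum_sum_type]
  simp only [Sum.elim_inl, Sum.elim_inr]
  rw [Fintype.sum_prod_type, Fintype.sum_prod_type]

lemma avg_E3 {G : Type*} [Group G]
    {V : Type*} [NormedAddCommGroup V] [InnerProductSpace ℂ V] {k q R : ℕ} (hq : 0 < q)
    (hR : 1 ≤ R)
    (e : Fin k ≃ (Fin q × Fin 8) ⊕ (Fin R × Fin q)) (ρ : G →* (V ≃ₗᵢ[ℂ] V))
    (p : (Fin q → Fin 8 → G) × (Fin R → Fin q → G)) (v : V)
    (h : ∀ i, 1 * ‖v‖ ^ 2 ≤ E3 ρ (p.1 i) p.2 v) :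
    (q / (48 * R) : ℝ) * ‖v‖ ^ 2 ≤ En ρ (asm1 e p) v := by
  rw [En_asm1]
  have hq' : (0 : ℝ) < q := by exact_mod_cast hq
  have hR' : (1 : ℝ) ≤ R := by exact_mod_cast hR
  have h1 : ∑ i : Fin q, 1 * ‖v‖ ^ 2 ≤ ∑ i : Fin q, E3 ρ (p.1 i) p.2 v :=
    Finset.sum_le_sum fun i _ => h i
  have h2 : ∑ i : Fin q, E3 ρ (p.1 i) p.2 v =
      4 * ∑ i, En ρ (p.1 i) v + 48 * (R : ℝ) * ∑ r, En ρ (p.2 r) v := by
    unfold E3
    rw [Finset.sum_add_distrib, ← Finset.mul_sum, Finset.sum_const, Finset.card_univ,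
      Fintype.card_fin, nsmul_eq_mul]
    field_simp
  rw [h2] at h1
  simp only [Finset.sum_const, Finset.card_univ, Fintype.card_fin, nsmul_eq_mul, one_mul] at h1
  have h3 : 0 ≤ ∑ i, En ρ (p.1 i) v := Finset.sum_nonneg fun i _ => RC14.En_nonneg ρ _ v
  have h4 : 4 * ∑ i, En ρ (p.1 i) v ≤ 48 * (R : ℝ) * ∑ i, En ρ (p.1 i) v := by
    apply mul_le_mul_of_nonneg_right _ h3
    linarith
  rw [div_mul_eq_mul_div, div_le_iff₀ (by positivity)]
  linarith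

lemma good_asm1 (n j1 : ℕ) {k q R : ℕ} (hq : 0 < q) (hR : 1 ≤ R)
    (e : Fin k ≃ (Fin q × Fin 8) ⊕ (Fin R × Fin q))
    (p : (Fin q → Fin 8 → Alt n) × (Fin R → Fin q → Alt n))
    (h : ∀ i, GoodS n j1 (p.1 i) p.2) : Good1 n j1 (q / (48 * R) : ℝ) (asm1 e p) :=
  fun j h1 h2 v hv => avg_E3 hq hR e (repA j n) p v fun i => h i j h1 h2 v hv

lemma COUNTR {A : Type*} [Fintype A] (q R : ℕ) (P : (Fin 8 → A) → Prop)
    (GZ : (Fin 8 → A) → (Fin R → Fin q → A) → Prop) (B C : ℝ) (hC0 : 0 ≤ C)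
    (hP : (Nat.card {x : Fin 8 → A // ¬ P x} : ℝ) ≤ B * (Fintype.card A : ℝ) ^ 8)
    (hZ : ∀ x : Fin 8 → A, P x →
      (Nat.card {z : Fin R → Fin q → A // ¬ GZ x z} : ℝ) ≤
        C * (Fintype.card A : ℝ) ^ (R * q)) :
    (Nat.card {p : (Fin q → Fin 8 → A) × (Fin R → Fin q → A) //
        ¬ ∀ i, GZ (p.1 i) p.2} : ℝ) ≤
      (q * B + q * C) * (Fintype.card A : ℝ) ^ ((8 + R) * q) := by
  have hcardZ : (Fintype.card (Fin R → Fin q → A) : ℝ) = (Fintype.card A : ℝ) ^ (R * q) := by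
    simp only [Fintype.card_fun, Fintype.card_fin]
    push_cast
    rw [← pow_mul, mul_comm q R]
  have h0 := card_prod_bound (X := Fin q → Fin 8 → A)
    (Z := Fin R → Fin q → A) (fun x => ∀ i, P (x i))
    (fun x z => ¬ ∀ i, GZ (x i) z) (q * C) (by positivity)
    (fun x hx => by
      have h1 := card_union (Z := Fin R → Fin q → A)
        (fun z => ¬ ∀ i, GZ (x i) z) (fun i z => ¬ GZ (x i) z)
        (fun z hz => by push Not at hz; exact hz)
      calc (Nat.card {z : Fin R → Fin q → A // ¬ ∀ i, GZ (x i) z} : ℝ)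
          ≤ ∑ i, (Nat.card {z : Fin R → Fin q → A // ¬ GZ (x i) z} : ℝ) := by
            exact_mod_cast h1
        _ ≤ ∑ i : Fin q, C * (Fintype.card A : ℝ) ^ (R * q) :=
            Finset.sum_le_sum fun i _ => hZ (x i) (hx i)
        _ = q * C * (Fintype.card (Fin R → Fin q → A) : ℝ) := by
            rw [hcardZ]; simp; ring)
  refine le_trans h0 ?_
  have hb := base_all P q B (by
      rw [Fintype.card_fun, Fintype.card_fin]
      push_cast
      exact hP)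
  rw [hcardZ]
  simp only [Fintype.card_fun, Fintype.card_fin] at hb ⊢
  push_cast at hb ⊢
  have hpow : (Fintype.card A : ℝ) ^ ((8 + R) * q) = (((Fintype.card A : ℝ) ^ 8) ^ q) *
      ((Fintype.card A : ℝ) ^ (R * q)) := by
    rw [← pow_mul, ← pow_add]
    congr 1
    ring
  rw [hpow]
  have hpos : 0 ≤ (Fintype.card A : ℝ) ^ (R * q) := by positivity
  have := mul_le_mul_of_nonneg_right hb hpos
  linarith

/-- stage 1 -/
theorem S1Y (n j1 q R : ℕ) (hq : 0 < q) (hR : 1 ≤ R) (P : (Fin 8 → Alt n) → Prop)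
    (B C : ℝ) (hC0 : 0 ≤ C)
    (hP : (Nat.card {x : Fin 8 → Alt n // ¬ P x} : ℝ) ≤ B * (Fintype.card (Alt n) : ℝ) ^ 8)
    (hZ : ∀ x : Fin 8 → Alt n, P x →
      (Nat.card {z : Fin R → Fin q → Alt n // ¬ GoodS n j1 x z} : ℝ) ≤
        C * (Fintype.card (Alt n) : ℝ) ^ (R * q)) :
    (Nat.card {y : Fin ((8 + R) * q) → Alt n // ¬ Good1 n j1 (q / (48 * R) : ℝ) y} : ℝ) ≤
      (q * B + q * C) * (Fintype.card (Alt n) : ℝ) ^ ((8 + R) * q) := by
  have hc : Fintype.card (Fin ((8 + R) * q)) =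
      Fintype.card ((Fin q × Fin 8) ⊕ (Fin R × Fin q)) := by
    simp only [Fintype.card_sum, Fintype.card_prod, Fintype.card_fin]
    ring
  obtain ⟨e⟩ : Nonempty (Fin ((8 + R) * q) ≃ (Fin q × Fin 8) ⊕ (Fin R × Fin q)) :=
    ⟨Fintype.equivOfCardEq hc⟩
  have h1 := card_equiv (asm1 e (A := Alt n))
    (fun p => ¬ Good1 n j1 (q / (48 * R) : ℝ) (asm1 e p))
    (fun y => ¬ Good1 n j1 (q / (48 * R) : ℝ) y) (fun z => Iff.rfl)
  have h2 := card_mono (Z := (Fin q → Fin 8 → Alt n) × (Fin R → Fin q → Alt n))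
    (fun p => ¬ Good1 n j1 (q / (48 * R) : ℝ) (asm1 e p))
    (fun p => ¬ ∀ i, GoodS n j1 (p.1 i) p.2)
    (fun p hp hg => hp (good_asm1 n j1 hq hR e p hg))
  have h3 := COUNTR q R P (fun x z => GoodS n j1 x z) B C hC0 hP hZ
  rw [← h1]
  exact (Nat.cast_le.mpr h2).trans h3

/-- stage 2, for good letters `y` of stage 1 -/
theorem S2Z (n j1 m F ms' q R k : ℕ) (hk : k = (8 + R) * q) (hn : 1000 ≤ n) (hR : 1 ≤ R) (hq : 8 * R ≤ q)
    (hb : ∀ j, j1 < j → j ≤ n / 100 → bb j j1 n F ≤ Real.exp (-3)) (hF : 2 * F ≤ n)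
    (hms : 100 * ms' ^ 2 ≤ n) (hms2 : 2 * (1 - 1 / 8400 : ℝ) ^ ms' ≤ Real.exp (-(6 * j1)))
    (hmF : m ≤ F) (hmj : m ≤ j1) (hmn : m + 2 ≤ n)
    (hX : (Fintype.card (Tup m n) : ℝ) ≤ Real.exp (7 * j1))
    (hFm : 2 * Real.exp (3 * j1) ≤ (F.descFactorial m : ℝ))
    (hRj : 8 * R ≤ j1) (hj2 : 2 ≤ j1)
    (hd : (Fintype.card (Alt n) : ℝ) < Real.exp (j1 * ((q : ℝ) / (8 * R)) ^ R))
    (y : Fin k → Alt n) (hy : Good1 n j1 (q / (48 * R) : ℝ) y) :
    (Nat.card {z : Fin R → Fin q → Alt n // ¬ ∀ v ∈ HH j1 n,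
        1 * ‖v‖ ^ 2 ≤ 2000 * (R : ℝ) / q * En (RR n) y v +
          48 * (R : ℝ) / q * ∑ r, En (RR n) (z r) v} : ℝ) ≤
      2 * Real.exp (3 * Real.sqrt n) * (R * Real.exp (-(j1 * q / (8 * R)))) *
        (Fintype.card (Alt n) : ℝ) ^ (R * q) := by
  have hq0 : 0 < q := by omega
  have hq' : (0 : ℝ) < q := by exact_mod_cast hq0
  have hR' : (1 : ℝ) ≤ R := by exact_mod_cast hR
  have hk1 : 1 ≤ k := by
    rw [hk]; exact Nat.one_le_iff_ne_zero.mpr (by positivity)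
  have hkc : (k : ℝ) = (8 + R) * q := by rw [hk]; push_cast; ring
  set c : ℝ := q / (48 * R) with hc
  have hc0 : 0 < c := by rw [hc]; positivity
  set ϑ : ℝ := 1 / (1000 * R * (8 + R)) with hϑ
  have hϑ0 : 0 < ϑ := by rw [hϑ]; positivity
  have hϑ1 : ϑ ≤ 1 / 9000 := by
    rw [hϑ]
    apply one_div_le_one_div_of_le (by norm_num)
    nlinarith
  set L : ℕ := 672 * j1 * R * (8 + R) with hL
  have hgap : ∀ f : V m n, ∑ a, f a = 0 → c * ‖f‖ ^ 2 ≤ En (repA m n) y f :=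
    FRV n m k hmn y c (fun j h1 h2 f hf => hy j h1 (h2.trans hmj) f hf)
  have hexp : c * ((2 * L : ℕ) : ℝ) / (4 * k) = 7 * j1 := by
    rw [hc, hkc, hL]
    push_cast
    field_simp
    ring
  have h := UBG (RR n) (HH j1 n) _ (TYPES (RR n) (HH j1 n) (HH_inv j1 n))
    (Z := Fin R → Fin q → Alt n) (fun z v => 2000 * (R : ℝ) / q * En (RR n) y v +
          48 * (R : ℝ) / q * ∑ r, En (RR n) (z r) v)
    (fun z => ((IsEn.en (RR n) y).smul (2000 * (R : ℝ) / q) (by positivity)).add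
      ((IsEn.sum Finset.univ (fun r => En (RR n) (z r)) fun r => IsEn.en (RR n) (z r)).smul
        (48 * (R : ℝ) / q) (by positivity))) 1
    (R * Real.exp (-(j1 * q / (8 * R))) * (Fintype.card (Alt n) : ℝ) ^ (R * q))
    (by positivity) ?_
  · refine h.trans ?_
    have h1 := CONJA n
    have h0 : 0 ≤ R * Real.exp (-(j1 * q / (8 * R))) *
      (Fintype.card (Alt n) : ℝ) ^ (R * q) := by positivity
    calc _ ≤ (2 * Real.exp (3 * Real.sqrt n)) * (R * Real.exp (-(j1 * q / (8 * R))) *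
        (Fintype.card (Alt n) : ℝ) ^ (R * q)) := mul_le_mul_of_nonneg_right h1 h0
      _ = _ := by ring
  · intro W hW hWL
    have hη : RtL (RR n) W hW.2.1 y (2 * L) ≤
        (2 * Real.exp (-(3 * j1))) * Module.finrank ℂ W := by
      have h1 := TRL n m k F hk1 hmF y c hc0.le hgap (2 * L) (res (RR n) W hW.2.1)
        (Real.exp (-(3 * j1))) (by positivity) (fun g hg =>
          MIDHIGH n j1 F ms' hn hb hF hms hms2 W hW hWL g hg)
      refine h1.trans ?_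
      have h2 : Real.exp (-(c * ((2 * L : ℕ) : ℝ) / (4 * k))) = Real.exp (-(7 * j1)) := by
        rw [hexp]
      rw [h2]
      have h3 : (Fintype.card (Tup m n) : ℝ) * Real.exp (-(7 * j1)) ≤ 1 := by
        calc _ ≤ Real.exp (7 * j1) * Real.exp (-(7 * j1)) := by gcongr
          _ = 1 := by rw [← Real.exp_add]; simp
      have h4 : (0 : ℝ) < F.descFactorial m := lt_of_lt_of_le (by positivity) hFm
      have h5 : (1 + (Fintype.card (Tup m n) : ℝ) * Real.exp (-(7 * j1))) /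
          (F.descFactorial m : ℝ) ≤ Real.exp (-(3 * j1)) := by
        rw [div_le_iff₀ h4]
        calc 1 + (Fintype.card (Tup m n) : ℝ) * Real.exp (-(7 * j1)) ≤ 2 := by linarith
          _ = Real.exp (-(3 * j1)) * (2 * Real.exp (3 * j1)) := by
              rw [mul_left_comm, ← Real.exp_add]; simp
          _ ≤ Real.exp (-(3 * j1)) * (F.descFactorial m : ℝ) := by gcongr
      gcongr
      linarith
    have hj2' : (2 : ℝ) ≤ j1 := by exact_mod_cast hj2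
    have hnum : (1 / (1 - ϑ)) ^ (2 * L) * (2 * Real.exp (-(3 * j1))) ≤ Real.exp (-(j1 : ℝ)) := by
      have h1 : 1 / (1 - ϑ) ≤ Real.exp (ϑ * (9 / 8)) := by
        rw [div_le_iff₀ (by linarith)]
        have := Real.add_one_le_exp (ϑ * (9 / 8))
        calc (1 : ℝ) ≤ (ϑ * (9 / 8) + 1) * (1 - ϑ) := by nlinarith
          _ ≤ Real.exp (ϑ * (9 / 8)) * (1 - ϑ) := by
              apply mul_le_mul_of_nonneg_right this; linarith
      have h2 : (1 / (1 - ϑ)) ^ (2 * L) ≤ Real.exp (8 / 5 * j1) := by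
        calc (1 / (1 - ϑ)) ^ (2 * L) ≤ Real.exp (ϑ * (9 / 8)) ^ (2 * L) :=
              pow_le_pow_left₀ (by
                have : 0 < 1 - ϑ := by linarith
                positivity) h1 _
          _ = Real.exp (((2 * L : ℕ) : ℝ) * (ϑ * (9 / 8))) := by rw [← Real.exp_nat_mul]
          _ ≤ Real.exp (8 / 5 * j1) := by
              apply Real.exp_le_exp.mpr
              have : ((2 * L : ℕ) : ℝ) * (ϑ * (9 / 8)) = 1512 / 1000 * j1 := by
                rw [hϑ, hL]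
                push_cast
                field_simp
                ring
              rw [this]
              linarith
      have h3 : (2 : ℝ) ≤ Real.exp (2 / 5 * j1) := by
        have := Real.quadratic_le_exp_of_nonneg (show (0 : ℝ) ≤ 2 / 5 * j1 by positivity)
        nlinarith
      calc (1 / (1 - ϑ)) ^ (2 * L) * (2 * Real.exp (-(3 * j1)))
          ≤ Real.exp (8 / 5 * j1) * (Real.exp (2 / 5 * j1) * Real.exp (-(3 * j1))) := by gcongr
        _ = Real.exp (-(j1 : ℝ)) := by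
            rw [← Real.exp_add, ← Real.exp_add]; congr 1; ring
    have hdW : (Module.finrank ℂ W : ℝ) < Real.exp (j1 * ((q : ℝ) / (8 * R)) ^ R) := by
      refine lt_of_le_of_lt ?_ hd
      have : Module.finrank ℂ W ≤ Fintype.card (Alt n) := by
        refine (Submodule.finrank_le _).trans ?_
        simp
      exact_mod_cast this
    have h6 := AMP3L (RR n) W hW k hk1 y ϑ hϑ0 (by linarith) L (2 * Real.exp (-(3 * j1))) hη q R
      hR hq j1 (by exact_mod_cast hRj) hnum hdW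
    have h7 : 2 / (ϑ * k) = 2000 * (R : ℝ) / q := by
      rw [hϑ, hkc]
      field_simp
      ring
    rw [h7] at h6
    exact h6

end RC14
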