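import Pool.Agent.H14R2.RC.R3c

namespace RC14
open scoped InnerProductSpace
open Finset Filter Topology

/-- the top level of stage 1 -/
def jj (n : ℕ) : ℕ := Nat.sqrt n / 2000000

/-- the number of points in the return probability -/
noncomputable def pp (n : ℕ) : ℕ := ⌈(6 * (jj n : ℝ) + 2) / Real.log n⌉₊

/-- number of letters per group -/
noncomputable def qq (n R : ℕ) : ℕ := ⌈8 * (R : ℝ) * ((n : ℝ) ^ (1 / (R : ℝ)) + 10 ^ 7)⌉₊

lemma jj_le (n : ℕ) : (jj n : ℝ) ≤ (n : ℝ) ^ (1 / 2 : ℝ) / 2000000 := by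
  have h1 : jj n * 2000000 ≤ Nat.sqrt n := Nat.div_mul_le_self _ _
  have h2 : (jj n : ℝ) * 2000000 ≤ Nat.sqrt n := by exact_mod_cast h1
  have h3 : (Nat.sqrt n : ℝ) ≤ (n : ℝ) ^ (1 / 2 : ℝ) := by
    rw [← Real.sqrt_eq_rpow]
    exact Real.nat_sqrt_le_real_sqrt
  linarith

lemma jj_ge (n : ℕ) : (n : ℝ) ^ (1 / 2 : ℝ) / 2000000 - 2 ≤ jj n := by
  have h1 : Nat.sqrt n < 2000000 * jj n + 2000000 := by unfold jj; omega
  have h2 : (Nat.sqrt n : ℝ) < 2000000 * jj n + 2000000 := by exact_mod_cast h1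
  have h3 : n < (Nat.sqrt n + 1) ^ 2 := Nat.lt_succ_sqrt' n
  have h4 : (n : ℝ) < ((Nat.sqrt n : ℝ) + 1) ^ 2 := by exact_mod_cast h3
  have h5 : (n : ℝ) ^ (1 / 2 : ℝ) ≤ (Nat.sqrt n : ℝ) + 1 := by
    rw [← Real.sqrt_eq_rpow]
    exact Real.sqrt_le_iff.mpr ⟨by positivity, h4.le⟩
  linarith

lemma jj_log : ∀ᶠ n : ℕ in atTop, 8 * Real.log n + 100 ≤ jj n := by
  filter_upwards [ev_log 0 (1 / 2) (4000000 * 9) (by norm_num),
    ev_const (1 / 2) (4000000 * 102) (by norm_num), ev_loggt 0] with n h1 h2 h3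
  rw [Real.rpow_zero, mul_one] at h1
  have := jj_ge n
  linarith

lemma exp3_ge' : (1 / 25 : ℝ) ≤ Real.exp (-3) := exp3_ge

lemma c9' (δ : ℝ) (hδ : 0 < δ) : ∀ᶠ n : ℕ in atTop,
    ∀ j, jj n < j → j ≤ n / 100 → bb j (jj n) n (FF δ n) ≤ Real.exp (-3) := by
  filter_upwards [c10 δ hδ, eventually_ge_atTop 1000] with n h1 h2 j hj1 hj2
  have hn : (1000 : ℝ) ≤ n := by exact_mod_cast h2
  have hjn : j ≤ n := by omega
  have hj : (j : ℝ) ≤ n / 100 := by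
    have : j * 100 ≤ n := by omega
    have : (j : ℝ) * 100 ≤ n := by exact_mod_cast this
    linarith
  have hN : (99 / 100 : ℝ) * n ≤ ((n - j : ℕ) : ℝ) := by
    rw [Nat.cast_sub hjn]; linarith
  have hN0 : (0 : ℝ) < ((n - j : ℕ) : ℝ) := by linarith
  have t1 : 2 * (j : ℝ) / ((n - j : ℕ) : ℝ) ≤ 1 / 40 := by
    rw [div_le_iff₀ hN0]; linarith
  have t2 : (FF δ n : ℝ) / ((n - j : ℕ) : ℝ) ≤ 1 / 400 := by
    rw [div_le_iff₀ hN0]; linarith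
  have t3 : (jj n : ℝ) / Real.sqrt ((n - j : ℕ) : ℝ) ≤ 1 / 400 := by
    have hs : (n : ℝ) ^ (1 / 2 : ℝ) / 2 ≤ Real.sqrt ((n - j : ℕ) : ℝ) := by
      apply Real.le_sqrt_of_sq_le
      rw [div_pow, ← Real.rpow_natCast, ← Real.rpow_mul (by linarith)]
      norm_num
      linarith
    have hp : (0 : ℝ) < (n : ℝ) ^ (1 / 2 : ℝ) := Real.rpow_pos_of_pos (by linarith) _
    rw [div_le_iff₀ (by linarith)]
    have := jj_le n
    linarith
  unfold bb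
  have := exp3_ge
  linarith

lemma c12' : ∀ᶠ n : ℕ in atTop,
    2 * (1 - 1 / 8400 : ℝ) ^ ms n ≤ Real.exp (-(6 * (jj n : ℝ))) := by
  filter_upwards [ms_ge, ev_const (1 / 2) (4 * 168000) (by norm_num)] with n h1 h3
  have h4 : (1 - 1 / 8400 : ℝ) ^ ms n ≤ Real.exp (-(ms n / 8400 : ℝ)) := by
    have : (1 - 1 / 8400 : ℝ) ≤ Real.exp (-(1 / 8400)) := by
      have := Real.add_one_le_exp (-(1 / 8400) : ℝ)
      linarith
    calc (1 - 1 / 8400 : ℝ) ^ ms n ≤ Real.exp (-(1 / 8400)) ^ ms n :=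
          pow_le_pow_left₀ (by norm_num) this _
      _ = Real.exp (-(ms n / 8400 : ℝ)) := by
          rw [← Real.exp_nat_mul]; congr 1; ring
  have h5 : (2 : ℝ) ≤ Real.exp 1 := by
    have := Real.add_one_le_exp (1 : ℝ)
    linarith
  have h6 := jj_le n
  calc 2 * (1 - 1 / 8400 : ℝ) ^ ms n ≤ Real.exp 1 * Real.exp (-(ms n / 8400 : ℝ)) := by gcongr
    _ = Real.exp (1 - ms n / 8400) := by rw [← Real.exp_add]; congr 1
    _ ≤ Real.exp (-(6 * (jj n : ℝ))) := by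
        apply Real.exp_le_exp.mpr
        linarith

/-- properties of `q = qq n R` -/
lemma qq_ge (n R : ℕ) (hR : 1 ≤ R) (hn : 1 ≤ n) :
    (n : ℝ) ^ (1 / (R : ℝ)) ≤ (qq n R : ℝ) / (8 * R) ∧ (10 : ℝ) ^ 7 ≤ (qq n R : ℝ) / (8 * R) ∧
      8 * R ≤ qq n R := by
  have hR' : (1 : ℝ) ≤ R := by exact_mod_cast hR
  have hn' : (1 : ℝ) ≤ n := by exact_mod_cast hn
  have hp : (1 : ℝ) ≤ (n : ℝ) ^ (1 / (R : ℝ)) := Real.one_le_rpow hn' (by positivity)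
  have h : 8 * (R : ℝ) * ((n : ℝ) ^ (1 / (R : ℝ)) + 10 ^ 7) ≤ qq n R := Nat.le_ceil _
  refine ⟨?_, ?_, ?_⟩
  · rw [le_div_iff₀ (by positivity)]
    nlinarith
  · rw [le_div_iff₀ (by positivity)]
    nlinarith
  · have : (8 : ℝ) * R ≤ qq n R := by nlinarith
    exact_mod_cast this

lemma qq_pow (n R : ℕ) (hR : 1 ≤ R) (hn : 1 ≤ n) :
    (n : ℝ) ≤ ((qq n R : ℝ) / (8 * R)) ^ R := by
  have hn' : (0 : ℝ) ≤ n := by positivity
  have h := (qq_ge n R hR hn).1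
  calc (n : ℝ) = ((n : ℝ) ^ (1 / (R : ℝ))) ^ R := by
        rw [← Real.rpow_natCast, ← Real.rpow_mul hn']
        have : (R : ℝ) ≠ 0 := by exact_mod_cast (by omega : R ≠ 0)
        rw [one_div_mul_cancel this, Real.rpow_one]
    _ ≤ _ := pow_le_pow_left₀ (by positivity) h _

lemma qq_le (n R : ℕ) (hR : 1 ≤ R) (hn : 1 ≤ n) :
    (qq n R : ℝ) ≤ 9 * (10 ^ 7 + 1) * R * (n : ℝ) ^ (1 / (R : ℝ)) := by
  have hR' : (1 : ℝ) ≤ R := by exact_mod_cast hR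
  have hn' : (1 : ℝ) ≤ n := by exact_mod_cast hn
  have hp : (1 : ℝ) ≤ (n : ℝ) ^ (1 / (R : ℝ)) := Real.one_le_rpow hn' (by positivity)
  have h : (qq n R : ℝ) < 8 * (R : ℝ) * ((n : ℝ) ^ (1 / (R : ℝ)) + 10 ^ 7) + 1 :=
    Nat.ceil_lt_add_one (by positivity)
  have h2 : (1 : ℝ) ≤ R * (n : ℝ) ^ (1 / (R : ℝ)) := by nlinarith
  nlinarith [mul_le_mul_of_nonneg_left hp (by positivity : (0:ℝ) ≤ R)]

lemma qq_le_cube : ∀ᶠ n : ℕ in atTop, ∀ R : ℕ, 1 ≤ R → R ≤ ⌈Real.log n⌉₊ →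
    (qq n R : ℝ) ≤ (n : ℝ) ^ 3 := by
  filter_upwards [eventually_ge_atTop (9 * (10 ^ 7 + 1))] with n hn R h1 h2
  have hn1 : 1 ≤ n := by omega
  have hn' : (9 * (10 ^ 7 + 1) : ℝ) ≤ n := by exact_mod_cast hn
  have hR' : (1 : ℝ) ≤ R := by exact_mod_cast h1
  have h3 := qq_le n R h1 hn1
  have h4 : (n : ℝ) ^ (1 / (R : ℝ)) ≤ n := by
    calc (n : ℝ) ^ (1 / (R : ℝ)) ≤ (n : ℝ) ^ (1 : ℝ) :=
          Real.rpow_le_rpow_of_exponent_le (by linarith) (by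
            rw [div_le_one (by linarith)]; exact hR')
      _ = n := Real.rpow_one _
  have h5 : (R : ℝ) ≤ n := by
    have : Real.log n ≤ n - 1 := Real.log_le_sub_one_of_pos (by linarith)
    have h6 : ⌈Real.log n⌉₊ ≤ n := by
      apply Nat.ceil_le.mpr
      linarith
    exact_mod_cast h2.trans h6
  calc (qq n R : ℝ) ≤ 9 * (10 ^ 7 + 1) * R * (n : ℝ) ^ (1 / (R : ℝ)) := h3
    _ ≤ n * n * n := by gcongr
    _ = (n : ℝ) ^ 3 := by ring

lemma Lam_ge' (δ : ℝ) (hδ : 0 < δ) : ∀ᶠ n : ℕ in atTop, δ / 5 * Real.log n ≤ Lam δ n := by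
  filter_upwards [ev_loggt (Real.log 10 * 5 / δ)] with n hn
  unfold Lam
  rw [div_le_iff₀ hδ] at hn
  linarith

/-- fraction of bad letters, low levels -/
lemma sum3 : ∀ᶠ n : ℕ in atTop, ∀ (q : ℕ), (10 : ℝ) ^ 7 ≤ (q : ℝ) / 8 → (q : ℝ) ≤ (n : ℝ) ^ 3 →
      (q : ℝ) * ∑ j ∈ Finset.Icc 1 (mm (1 / 24) n),
        ((n : ℝ) * Real.exp (-(Lam (1 / 24) n * q / 8))) ^ j ≤ 1 / n := by
  filter_upwards [Lam_ge' (1 / 24) (by norm_num), eventually_ge_atTop 4,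
    A1 (1 / 24) (by norm_num)] with n h1 h2 h3 q hq hqC
  have hn : (4 : ℝ) ≤ n := by exact_mod_cast h2
  have hn0 : (0 : ℝ) < n := by linarith
  have hlog : 0 < Real.log n := Real.log_pos (by linarith)
  have hq0 : (0 : ℝ) ≤ q := Nat.cast_nonneg q
  set y : ℝ := (n : ℝ) * Real.exp (-(Lam (1 / 24) n * q / 8)) with hy
  have hy0 : 0 ≤ y := by positivity
  have hy1 : y ≤ (n : ℝ) * Real.exp (-(6 * Real.log n)) := by
    rw [hy]
    gcongr
    have h4 : (1 / 24 / 5 * Real.log n) * 10 ^ 7 ≤ Lam (1 / 24) n * (q / 8) := by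
      apply mul_le_mul h1 hq (by norm_num) (by
        have : 0 ≤ 1 / 24 / 5 * Real.log n := by positivity
        linarith)
    have h5 : Lam (1 / 24) n * q / 8 = Lam (1 / 24) n * (q / 8) := by ring
    rw [h5]
    nlinarith
  have hy2 : (n : ℝ) * Real.exp (-(6 * Real.log n)) = 1 / (n : ℝ) ^ 5 := by
    rw [Real.exp_neg]
    have : Real.exp (6 * Real.log n) = (n : ℝ) ^ 6 := by
      have := Real.exp_nat_mul (Real.log n) 6
      push_cast at this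
      rw [this, Real.exp_log hn0]
    rw [this]
    field_simp
  rw [hy2] at hy1
  have hone : (1 : ℝ) ≤ n := by linarith
  have hy3 : y ≤ 1 := by
    refine hy1.trans ?_
    rw [div_le_one (by positivity)]
    exact one_le_pow₀ hone
  have hmm : (mm (1 / 24) n : ℝ) ≤ n := by
    linarith [Nat.cast_nonneg (α := ℝ) (mm (1 / 24) n)]
  calc (q : ℝ) * ∑ j ∈ Finset.Icc 1 (mm (1 / 24) n), y ^ j
      ≤ (n : ℝ) ^ 3 * ∑ j ∈ Finset.Icc 1 (mm (1 / 24) n), (1 / (n : ℝ) ^ 5) := by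
        gcongr with j hj
        rw [Finset.mem_Icc] at hj
        exact (pow_le_of_le_one hy0 hy3 (by omega)).trans hy1
    _ = (n : ℝ) ^ 3 * (mm (1 / 24) n * (1 / (n : ℝ) ^ 5)) := by simp
    _ ≤ (n : ℝ) ^ 3 * (n * (1 / (n : ℝ) ^ 5)) := by gcongr
    _ = 1 / n := by field_simp

lemma mid3 : ∀ᶠ n : ℕ in atTop, ∀ (q R : ℕ), 1 ≤ R → R ≤ ⌈Real.log n⌉₊ →
    (10 : ℝ) ^ 7 ≤ (q : ℝ) / (8 * R) → (q : ℝ) ≤ (n : ℝ) ^ 3 →
      (q : ℝ) * (jj n * (Real.exp (3 * Real.sqrt (jj n)) *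
        (R * Real.exp (-(2 * mm (1 / 24) n * q / (8 * R)))))) ≤ 1 / n := by
  filter_upwards [ev_log 0 (7 / 24) 24 (by norm_num), ev_le (1 / 4) (7 / 24) 12 (by norm_num),
    eventually_ge_atTop 4, mm_ge (1 / 24) (by norm_num)] with n h1 h2 h3 h4 q R hR hRl hq hqC
  have hn : (4 : ℝ) ≤ n := by exact_mod_cast h3
  have hn0 : (0 : ℝ) < n := by linarith
  have hlog : 0 < Real.log n := Real.log_pos (by linarith)
  rw [Real.rpow_zero, mul_one] at h1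
  norm_num at h4
  have hRn : (R : ℝ) ≤ n := by
    have : Real.log n ≤ n - 1 := Real.log_le_sub_one_of_pos (by linarith)
    have h6 : ⌈Real.log n⌉₊ ≤ n := by
      apply Nat.ceil_le.mpr
      linarith
    exact_mod_cast hRl.trans h6
  have hR0 : (1 : ℝ) ≤ R := by exact_mod_cast hR
  have hjn : (jj n : ℝ) ≤ n := by
    have h5 : jj n ≤ Nat.sqrt n := Nat.div_le_self _ _
    exact_mod_cast h5.trans (Nat.sqrt_le_self n)
  have hsq : Real.sqrt (jj n) ≤ (n : ℝ) ^ (1 / 4 : ℝ) := by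
    rw [Real.sqrt_le_left (by positivity)]
    have h5 := jj_le n
    have h6 : ((n : ℝ) ^ (1 / 4 : ℝ)) ^ 2 = (n : ℝ) ^ (1 / 2 : ℝ) := by
      rw [← Real.rpow_natCast, ← Real.rpow_mul hn0.le]; norm_num
    rw [h6]
    have h7 : (0 : ℝ) ≤ (n : ℝ) ^ (1 / 2 : ℝ) := by positivity
    linarith
  have hexp : (2 * mm (1 / 24) n * q / (8 * R) : ℝ) ≥ (n : ℝ) ^ (7 / 24 : ℝ) := by
    have h5 : (2 * mm (1 / 24) n * q / (8 * R) : ℝ) =
        2 * mm (1 / 24) n * ((q : ℝ) / (8 * R)) := by ring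
    rw [h5]
    have h6 : (0 : ℝ) ≤ 2 * mm (1 / 24) n := by positivity
    have h7 : (2 * mm (1 / 24) n : ℝ) * 1 ≤ 2 * mm (1 / 24) n * ((q : ℝ) / (8 * R)) := by
      apply mul_le_mul_of_nonneg_left _ h6
      linarith
    linarith
  have hpn : ∀ i : ℕ, (n : ℝ) ^ i = Real.exp (i * Real.log n) := by
    intro i
    rw [Real.exp_nat_mul, Real.exp_log hn0]
  calc (q : ℝ) * (jj n * (Real.exp (3 * Real.sqrt (jj n)) *
        (R * Real.exp (-(2 * mm (1 / 24) n * q / (8 * R))))))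
      ≤ (n : ℝ) ^ 3 * (n * (Real.exp (3 * (n : ℝ) ^ (1 / 4 : ℝ)) *
        (n * Real.exp (-((n : ℝ) ^ (7 / 24 : ℝ)))))) := by
        gcongr
    _ = (n : ℝ) ^ 5 * (Real.exp (3 * (n : ℝ) ^ (1 / 4 : ℝ)) *
        Real.exp (-((n : ℝ) ^ (7 / 24 : ℝ)))) := by ring
    _ = Real.exp (((5 : ℕ) : ℝ) * Real.log n + (3 * (n : ℝ) ^ (1 / 4 : ℝ) +
        -((n : ℝ) ^ (7 / 24 : ℝ)))) := by
        rw [hpn 5, ← Real.exp_add, ← Real.exp_add]
    _ ≤ Real.exp (-Real.log n) := by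
        apply Real.exp_le_exp.mpr
        push_cast
        linarith
    _ = 1 / n := by rw [Real.exp_neg, Real.exp_log hn0, one_div]

lemma high3 : ∀ᶠ n : ℕ in atTop, ∀ (q R : ℕ), 1 ≤ R → R ≤ ⌈Real.log n⌉₊ →
    (10 : ℝ) ^ 7 ≤ (q : ℝ) / (8 * R) →
      2 * Real.exp (3 * Real.sqrt n) * (R * Real.exp (-(jj n * q / (8 * R)))) ≤ 1 / n := by
  filter_upwards [ev_log 0 (1 / 2) 6 (by norm_num), ev_const (1 / 2) (10 ^ 8) (by norm_num),
    eventually_ge_atTop 4] with n h1 h2 h3 q R hR hRl hq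
  have hn : (4 : ℝ) ≤ n := by exact_mod_cast h3
  have hn0 : (0 : ℝ) < n := by linarith
  have hlog : 0 < Real.log n := Real.log_pos (by linarith)
  rw [Real.rpow_zero, mul_one] at h1
  have hRn : (R : ℝ) ≤ n := by
    have : Real.log n ≤ n - 1 := Real.log_le_sub_one_of_pos (by linarith)
    have h6 : ⌈Real.log n⌉₊ ≤ n := by
      apply Nat.ceil_le.mpr
      linarith
    exact_mod_cast hRl.trans h6
  have hR0 : (1 : ℝ) ≤ R := by exact_mod_cast hR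
  set s : ℝ := (n : ℝ) ^ (1 / 2 : ℝ) with hs
  have hsq : Real.sqrt n = s := by rw [hs, Real.sqrt_eq_rpow]
  have h5 := jj_ge n
  rw [← hs] at h5
  have hexp : (jj n * q / (8 * R) : ℝ) ≥ 5 * s - 2 * 10 ^ 7 := by
    have h6 : (jj n * q / (8 * R) : ℝ) = jj n * ((q : ℝ) / (8 * R)) := by ring
    rw [h6]
    have h7 : (jj n : ℝ) * 10 ^ 7 ≤ jj n * ((q : ℝ) / (8 * R)) := by gcongr
    nlinarith
  have h2n : (2 : ℝ) ≤ n := by linarith
  calc 2 * Real.exp (3 * Real.sqrt n) * (R * Real.exp (-(jj n * q / (8 * R))))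
      ≤ n * Real.exp (3 * s) * (n * Real.exp (-(5 * s - 2 * 10 ^ 7))) := by
        rw [hsq]
        gcongr
    _ = (Real.exp (Real.log n) * Real.exp (Real.log n)) *
        (Real.exp (3 * s) * Real.exp (-(5 * s - 2 * 10 ^ 7))) := by
        rw [Real.exp_log hn0]; ring
    _ = Real.exp (Real.log n + Real.log n + (3 * s + -(5 * s - 2 * 10 ^ 7))) := by
        rw [← Real.exp_add, ← Real.exp_add, ← Real.exp_add]
    _ ≤ Real.exp (-Real.log n) := by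
        apply Real.exp_le_exp.mpr
        linarith
    _ = 1 / n := by rw [Real.exp_neg, Real.exp_log hn0, one_div]

end RC14
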