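import Pool.Agent.H14R2.RC.R3d
import Pool.Agent.H14R2.RC.R2d
import Pool.Agent.H14R2.RC.S.BLOCKS

namespace RC14
open scoped InnerProductSpace
open Finset Filter Topology

lemma jj_nat (n : ℕ) : jj n * 2000000 ≤ n :=
  (Nat.div_mul_le_self _ _).trans (Nat.sqrt_le_self n)

/-- properties of `pp n` -/
lemma pp_props : ∀ᶠ n : ℕ in atTop, pp n ≤ jj n ∧ pp n ≤ FF (1 / 24) n ∧ pp n + 2 ≤ n ∧
    (Fintype.card (Tup (pp n) n) : ℝ) ≤ Real.exp (7 * jj n) ∧
    2 * Real.exp (3 * jj n) ≤ ((FF (1 / 24) n).descFactorial (pp n) : ℝ) := by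
  filter_upwards [jj_log, ev_loggt 14, eventually_ge_atTop 1000,
    ev_le (1 / 2) (47 / 48) 2 (by norm_num)] with n h1 h2 h3 h4
  have hn : (1000 : ℝ) ≤ n := by exact_mod_cast h3
  have hn0 : (0 : ℝ) < n := by linarith
  have hlog : 0 < Real.log n := by linarith
  have hjj0 : (0 : ℝ) ≤ jj n := Nat.cast_nonneg _
  have hjn := jj_nat n
  have hjs := jj_le n
  have hsp : (0 : ℝ) < (n : ℝ) ^ (1 / 2 : ℝ) := Real.rpow_pos_of_pos hn0 _
  -- upper and lower bounds for pp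
  have hp1 : (6 * (jj n : ℝ) + 2) / Real.log n ≤ pp n := Nat.le_ceil _
  have hp2 : (pp n : ℝ) < (6 * (jj n : ℝ) + 2) / Real.log n + 1 :=
    Nat.ceil_lt_add_one (by positivity)
  rw [div_le_iff₀ hlog] at hp1
  have hp3 : (pp n : ℝ) * Real.log n ≤ 6 * (jj n : ℝ) + 2 + Real.log n := by
    have : (pp n : ℝ) * Real.log n ≤ ((6 * (jj n : ℝ) + 2) / Real.log n + 1) * Real.log n := by
      gcongr
    calc _ ≤ _ := this
      _ = _ := by field_simp
  have hpj : (pp n : ℝ) ≤ jj n := by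
    have : (pp n : ℝ) * Real.log n ≤ jj n * Real.log n := by
      nlinarith
    exact le_of_mul_le_mul_right this hlog
  have hpj' : pp n ≤ jj n := by exact_mod_cast hpj
  have hF : 2 * (n : ℝ) ^ (1 / 2 : ℝ) ≤ FF (1 / 24) n := by
    refine h4.trans ?_
    have : (n : ℝ) ^ (1 - 1 / 24 / 2 : ℝ) ≤ FF (1 / 24) n := Nat.le_ceil _
    norm_num at this ⊢
    exact this
  have hpF : (pp n : ℝ) ≤ FF (1 / 24) n := by linarith
  have hpF' : pp n ≤ FF (1 / 24) n := by exact_mod_cast hpF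
  refine ⟨hpj', hpF', by omega, ?_, ?_⟩
  · calc (Fintype.card (Tup (pp n) n) : ℝ) ≤ (n : ℝ) ^ pp n := by
          exact_mod_cast card_Tup_le (pp n) n
      _ = Real.exp (pp n * Real.log n) := by rw [Real.exp_nat_mul, Real.exp_log hn0]
      _ ≤ Real.exp (7 * jj n) := by
          apply Real.exp_le_exp.mpr
          linarith
  · have h5 : (FF (1 / 24) n + 1 - pp n) ^ pp n ≤ (FF (1 / 24) n).descFactorial (pp n) :=
      Nat.pow_sub_le_descFactorial _ _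
    have h6 : (n : ℝ) ^ (1 / 2 : ℝ) ≤ ((FF (1 / 24) n + 1 - pp n : ℕ) : ℝ) := by
      rw [Nat.cast_sub (by omega)]
      push_cast
      linarith
    have h7 : (2 : ℝ) ≤ Real.exp 1 := by
      have := Real.add_one_le_exp (1 : ℝ)
      linarith
    calc 2 * Real.exp (3 * jj n) ≤ Real.exp 1 * Real.exp (3 * jj n) := by gcongr
      _ = Real.exp (1 + 3 * jj n) := by rw [← Real.exp_add]
      _ ≤ Real.exp (pp n * (Real.log n * (1 / 2))) := by
          apply Real.exp_le_exp.mpr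
          linarith
      _ = ((n : ℝ) ^ (1 / 2 : ℝ)) ^ pp n := by
          rw [Real.exp_nat_mul, Real.rpow_def_of_pos hn0]
      _ ≤ ((FF (1 / 24) n + 1 - pp n : ℕ) : ℝ) ^ pp n := by gcongr
      _ ≤ _ := by exact_mod_cast h5

theorem R3core : ∀ᶠ n : ℕ in atTop, ∀ R : ℕ, 1 ≤ R → R ≤ ⌈Real.log n⌉₊ →
    (Nat.card {y : Fin ((8 + R) * qq n R + R * qq n R) → Alt n //
      ¬ Expanding (1 / (40000 * (R : ℝ) ^ 2)) y} : ℝ) ≤
        4 / (n : ℝ) * (Fintype.card (Alt n) : ℝ) ^ ((8 + R) * qq n R + R * qq n R) := by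
  have h0 : (0 : ℝ) < 1 / 24 := by norm_num
  have h1 : (1 / 24 : ℝ) ≤ 1 / 4 := by norm_num
  have h2 : (1 / 24 : ℝ) < 1 / 3 := by norm_num
  filter_upwards [A2 (1 / 24) h0 h1, A3 (1 / 24) h0 h1, EXPO3 (1 / 24) h0 h1 4,
    eventually_ge_atTop 1000, Lam_ge (1 / 24) h0, Lam_ge' (1 / 24) h0, c13 (1 / 24) h2,
    c14 (1 / 24) h0 h2, c10 (1 / 24) h0, c9 (1 / 24) h0 h2, c9' (1 / 24) h0, c12', jj_log,
    pp_props, sum3, mid3, high3, qq_le_cube, ev_log 0 (7 / 24) 24 (by norm_num),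
    mm_ge (1 / 24) h2, ev_log (1 / 2) 1 1 (by norm_num), ev_loggt 1]
    with n a2 a3 a4 a5 a6 a7 a8 a9 a10 a11 a12 a13 a14 a15 a16 a17 a18 a19 a20 a21 a22 a23
      R hR hRl
  set q : ℕ := qq n R with hqdef
  obtain ⟨p1, p2, p3, p4, p5⟩ := a15
  have hn1 : (1000 : ℝ) ≤ n := by exact_mod_cast a5
  have hn : (0 : ℝ) < n := by linarith
  have hnn : 1 ≤ n := by omega
  have hlog : 0 < Real.log n := by linarith
  have hR' : (1 : ℝ) ≤ R := by exact_mod_cast hR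
  obtain ⟨q1, q2, q3⟩ := qq_ge n R hR hnn
  have q4 := qq_pow n R hR hnn
  have q5 := a19 R hR hRl
  rw [← hqdef] at q1 q2 q3 q4 q5
  have hq0 : 0 < q := by omega
  have hRlog : (R : ℝ) < Real.log n + 1 := by
    have : (⌈Real.log n⌉₊ : ℝ) < Real.log n + 1 := Nat.ceil_lt_add_one hlog.le
    have h3 : (R : ℝ) ≤ ⌈Real.log n⌉₊ := by exact_mod_cast hRl
    linarith
  have hjn := jj_nat n
  have hjs := jj_le n
  have q8 : (10 : ℝ) ^ 7 ≤ (q : ℝ) / 8 := by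
    refine q2.trans ?_
    rw [div_le_div_iff₀ (by positivity) (by norm_num)]
    have : (0 : ℝ) ≤ q := Nat.cast_nonneg _
    nlinarith
  set A : ℝ := (Fintype.card (Alt n) : ℝ) with hA
  have hA0 : 0 < A := by rw [hA]; exact_mod_cast Fintype.card_pos
  have hρ : (8 / 7 : ℝ) ^ (2 * L1 (1 / 24) n) * ((1 / 4 : ℝ) ^ L1 (1 / 24) n +
      4 * (n : ℝ) ^ (-(1 / 24 / 2 : ℝ))) ≤ Real.exp (-Lam (1 / 24) n) := by
    rw [exp_Lam (1 / 24) n (by omega)]
    exact rho_le (1 / 24) h0 n (by omega)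
  have hF : 2 * FF (1 / 24) n ≤ n := by
    have : (2 : ℝ) * FF (1 / 24) n ≤ n := by linarith
    exact_mod_cast this
  have hmR : 4 * R ≤ mm (1 / 24) n := by
    have h3 : (4 : ℝ) * R ≤ mm (1 / 24) n := by
      rw [Real.rpow_zero, mul_one] at a20
      norm_num at a21
      linarith
    exact_mod_cast h3
  have hd : (n : ℝ) < Real.exp (Lam (1 / 24) n * (q / 8 : ℝ)) := by
    rw [← Real.log_lt_iff_lt_exp hn]
    have h4 : (1 / 24 / 5 * Real.log n) * 10 ^ 7 ≤ Lam (1 / 24) n * (q / 8) := by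
      apply mul_le_mul a7 q8 (by norm_num) (by linarith)
    linarith
  have hd2 : (n : ℝ) ^ jj n < Real.exp (2 * mm (1 / 24) n * ((q : ℝ) / (8 * R)) ^ R) := by
    have h3 : (n : ℝ) ^ jj n = Real.exp (jj n * Real.log n) := by
      rw [Real.exp_nat_mul, Real.exp_log hn]
    rw [h3]
    apply Real.exp_lt_exp.mpr
    rw [Real.rpow_one, one_mul] at a22
    have hm35 : (35 : ℝ) ≤ mm (1 / 24) n := by exact_mod_cast a8
    have hsp : (0 : ℝ) < (n : ℝ) ^ (1 / 2 : ℝ) := Real.rpow_pos_of_pos hn _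
    calc (jj n : ℝ) * Real.log n ≤ (n : ℝ) ^ (1 / 2 : ℝ) * Real.log n := by
          gcongr
          linarith
      _ ≤ n := a22
      _ < 2 * 35 * n := by linarith
      _ ≤ 2 * mm (1 / 24) n * ((q : ℝ) / (8 * R)) ^ R := by gcongr
  set Cc : ℝ := ∑ j ∈ Finset.Icc 1 (mm (1 / 24) n),
      ((n : ℝ) * Real.exp (-(Lam (1 / 24) n * q / 8))) ^ j +
        jj n * (Real.exp (3 * Real.sqrt (jj n)) *
          (R * Real.exp (-(2 * mm (1 / 24) n * q / (8 * R))))) with hCc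
  have hCc0 : 0 ≤ Cc := by rw [hCc]; positivity
  have hZ : ∀ x : Fin 8 → Alt n, FewFix n (ll (1 / 24) n) (FF (1 / 24) n)
      (fun i => (x i : Equiv.Perm (Fin n))) →
      (Nat.card {z : Fin R → Fin q → Alt n // ¬ GoodS n (jj n) x z} : ℝ) ≤
        Cc * A ^ (R * q) := by
    intro x hx
    exact S1Z n (mm (1 / 24) n) (jj n) (ll (1 / 24) n) (FF (1 / 24) n) q R (L1 (1 / 24) n)
      (4 * (n : ℝ) ^ (-(1 / 24 / 2 : ℝ))) (Lam (1 / 24) n) (by omega) a2 a3 (by positivity) hρ a6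
      q3 hR hd a9 (by omega) (fun j hj1 hj2 => a11 j hj1 (by omega)) hmR hd2 hnn x hx
  have hP : (Nat.card {x : Fin 8 → Alt n // ¬ FewFix n (ll (1 / 24) n) (FF (1 / 24) n)
      (fun i => (x i : Equiv.Perm (Fin n)))} : ℝ) ≤ 1 / (n : ℝ) ^ 4 * A ^ 8 := by
    rw [div_mul_eq_mul_div, le_div_iff₀ (by positivity), one_mul]
    exact a4
  have hS1 := S1Y n (jj n) q R hq0 hR
    (fun x => FewFix n (ll (1 / 24) n) (FF (1 / 24) n) (fun i => (x i : Equiv.Perm (Fin n))))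
    (1 / (n : ℝ) ^ 4) Cc hCc0 hP hZ
  have hB : (q : ℝ) * (1 / (n : ℝ) ^ 4) ≤ 1 / (n : ℝ) := by
    calc (q : ℝ) * (1 / (n : ℝ) ^ 4) ≤ (n : ℝ) ^ 3 * (1 / (n : ℝ) ^ 4) := by gcongr
      _ = 1 / (n : ℝ) := by field_simp
  have hC : (q : ℝ) * Cc ≤ 2 / n := by
    have e1 := a16 q q8 q5
    have e2 := a17 q R hR hRl q2 q5
    rw [hCc, mul_add]
    have : (2 : ℝ) / n = 1 / n + 1 / n := by ring
    linarith
  have hp1 : (q : ℝ) * (1 / (n : ℝ) ^ 4) + q * Cc ≤ 3 / n := by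
    have : (3 : ℝ) / n = 1 / n + 2 / n := by ring
    linarith
  have hdA : A < Real.exp (jj n * ((q : ℝ) / (8 * R)) ^ R) := by
    refine (card_Alt_le n hnn).trans_lt (Real.exp_lt_exp.mpr ?_)
    have h3 : Real.log n < jj n := by linarith
    calc (n : ℝ) * Real.log n < n * jj n := by gcongr
      _ = jj n * n := mul_comm _ _
      _ ≤ jj n * ((q : ℝ) / (8 * R)) ^ R := by gcongr
  have hRj : 8 * R ≤ jj n := by
    have h3 : (8 : ℝ) * R ≤ jj n := by linarith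
    exact_mod_cast h3
  have hmain := R3Y n (jj n) q R ((8 + R) * q) rfl hq0 hR (3 / n) (1 / n) (by positivity)
    (hS1.trans (by gcongr))
    (fun y hy => by
      refine (S2Z n (jj n) (pp n) (FF (1 / 24) n) (ms n) q R ((8 + R) * q) rfl a5 hR q3 a12 hF
        (ms_sq n) a13 p2 p1 p3 p4 p5 hRj (by omega) hdA y hy).trans ?_
      have := a18 q R hR hRl q2
      gcongr)
  refine hmain.trans (le_of_eq ?_)
  ring

end RC14
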