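import Pool.Agent.H14R2.RC.Defs

namespace RC14
open scoped InnerProductSpace
open Finset

/-- union bound for cardinals of subtypes -/
lemma card_union {Z ι : Type*} [Finite Z] [Fintype ι] (P : Z → Prop) (Q : ι → Z → Prop)
    (h : ∀ z, P z → ∃ i, Q i z) :
    Nat.card {z : Z // P z} ≤ ∑ i, Nat.card {z : Z // Q i z} := by
  classical
  have := Fintype.ofFinite Z
  have e1 : Nat.card {z : Z // P z} = (univ.filter P).card := by
    rw [Nat.card_eq_fintype_card, Fintype.card_subtype]
  have e2 : ∀ i, Nat.card {z : Z // Q i z} = (univ.filter (Q i)).card := by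
    intro i
    rw [Nat.card_eq_fintype_card, Fintype.card_subtype]
  rw [e1]
  simp only [e2]
  calc (univ.filter P).card ≤ ((univ : Finset ι).biUnion fun i => univ.filter (Q i)).card := by
        apply Finset.card_le_card
        intro z hz
        simp only [mem_filter, mem_univ, true_and, mem_biUnion] at hz ⊢
        exact h z hz
    _ ≤ _ := Finset.card_biUnion_le

lemma card_union_fin {Z : Type*} [Finite Z] {ι : Type*} (s : Finset ι) (P : Z → Prop)
    (Q : ι → Z → Prop) (h : ∀ z, P z → ∃ i ∈ s, Q i z) :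
    Nat.card {z : Z // P z} ≤ ∑ i ∈ s, Nat.card {z : Z // Q i z} := by
  classical
  have := Fintype.ofFinite Z
  have e1 : Nat.card {z : Z // P z} = (univ.filter P).card := by
    rw [Nat.card_eq_fintype_card, Fintype.card_subtype]
  have e2 : ∀ i, Nat.card {z : Z // Q i z} = (univ.filter (Q i)).card := by
    intro i
    rw [Nat.card_eq_fintype_card, Fintype.card_subtype]
  rw [e1]
  simp only [e2]
  calc (univ.filter P).card ≤ (s.biUnion fun i => univ.filter (Q i)).card := by
        apply Finset.card_le_card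
        intro z hz
        simp only [mem_filter, mem_univ, true_and, mem_biUnion] at hz ⊢
        exact h z hz
    _ ≤ _ := Finset.card_biUnion_le

lemma card_mono {Z : Type*} [Finite Z] (P Q : Z → Prop) (h : ∀ z, P z → Q z) :
    Nat.card {z : Z // P z} ≤ Nat.card {z : Z // Q z} := by
  classical
  have := Fintype.ofFinite Z
  rw [Nat.card_eq_fintype_card, Nat.card_eq_fintype_card]
  exact Fintype.card_subtype_mono _ _ h

lemma card_equiv {Z Z' : Type*} [Finite Z] (e : Z ≃ Z') (P : Z → Prop) (Q : Z' → Prop)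
    (h : ∀ z, P z ↔ Q (e z)) :
    Nat.card {z : Z // P z} = Nat.card {z : Z' // Q z} :=
  Nat.card_congr (e.subtypeEquiv h)

lemma card_compl {Z : Type*} [Fintype Z] (P : Z → Prop) :
    (Nat.card {z : Z // P z} : ℝ) = Fintype.card Z - Nat.card {z : Z // ¬ P z} := by
  classical
  rw [Nat.card_eq_fintype_card, Nat.card_eq_fintype_card, Fintype.card_subtype_compl]
  rw [Nat.cast_sub (Fintype.card_subtype_le P)]
  ring

lemma En_nonneg {G : Type*} [Group G]
    {V : Type*} [NormedAddCommGroup V] [InnerProductSpace ℂ V] {ι : Type*} [Fintype ι]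
    (ρ : G →* (V ≃ₗᵢ[ℂ] V)) (x : ι → G) (v : V) : 0 ≤ En ρ x v :=
  Finset.sum_nonneg fun _ _ => by positivity

lemma En_append {G : Type*} [Group G]
    {V : Type*} [NormedAddCommGroup V] [InnerProductSpace ℂ V] {a b : ℕ}
    (ρ : G →* (V ≃ₗᵢ[ℂ] V)) (x : Fin a → G) (z : Fin b → G) (v : V) :
    En ρ (Fin.append x z) v = En ρ x v + En ρ z v := by
  simp [En, Fin.sum_univ_add, Fin.append_left, Fin.append_right]

lemma card_Tup_le (j n : ℕ) : Fintype.card (Tup j n) ≤ n ^ j := by
  rw [Fintype.card_embedding_eq]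
  simp only [Fintype.card_fin]
  exact Nat.descFactorial_le_pow n j

lemma card_Tup_pos {j n : ℕ} (h : j ≤ n) : 0 < Fintype.card (Tup j n) := by
  rw [Fintype.card_embedding_eq]
  simp only [Fintype.card_fin]
  exact Nat.descFactorial_pos.mpr h

lemma finrank_V (j n : ℕ) : Module.finrank ℂ (V j n) = Fintype.card (Tup j n) := by
  simp [V]

lemma finrank_le_pow {j n : ℕ} (W : Submodule ℂ (V j n)) : Module.finrank ℂ W ≤ n ^ j :=
  (Submodule.finrank_le W).trans ((finrank_V j n).le.trans (card_Tup_le j n))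

lemma Irr.finrank_pos {G : Type*} [Group G] {V : Type*} [NormedAddCommGroup V]
    [InnerProductSpace ℂ V] [FiniteDimensional ℂ V] {ρ : G →* (V ≃ₗᵢ[ℂ] V)} {W : Submodule ℂ V}
    (h : Irr ρ W) : 0 < Module.finrank ℂ W := by
  rw [Module.finrank_pos_iff]
  exact (Submodule.nontrivial_iff_ne_bot).mpr h.1

lemma ext0_rep {j n : ℕ} (g : Equiv.Perm (Fin n)) (f : V j n) (φ : Fin j → Fin n) :
    ext0 (rep j n g f) φ = ext0 f (fun l => g⁻¹ (φ l)) := by
  by_cases h : Function.Injective φ
  · have h2 : Function.Injective (fun l => g⁻¹ (φ l)) := g⁻¹.injective.comp h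
    have e1 : ext0 (rep j n g f) φ = rep j n g f ⟨φ, h⟩ := ext0_inj _ ⟨φ, h⟩
    have e2 : ext0 f (fun l => g⁻¹ (φ l)) = f ⟨_, h2⟩ := ext0_inj f ⟨_, h2⟩
    rw [e1, e2, rep_apply]
    rfl
  · have h2 : ¬ Function.Injective (fun l => g⁻¹ (φ l)) := by
      intro h3
      apply h
      intro a b hab
      exact h3 (by simp [hab])
    rw [ext0_not _ h, ext0_not _ h2]

lemma Lvl_inv_perm (j n : ℕ) (g : Equiv.Perm (Fin n)) (f : V j n) (hf : f ∈ Lvl j n) :
    rep j n g f ∈ Lvl j n := by
  rw [mem_Lvl] at hf ⊢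
  intro φ l
  rw [← hf (fun l => g⁻¹ (φ l)) l]
  refine Fintype.sum_equiv g⁻¹ _ _ fun y => ?_
  rw [ext0_rep]
  congr 1
  ext t
  by_cases h : t = l
  · subst h; simp
  · simp [Function.update_of_ne h]

lemma Lvl_inv (j n : ℕ) : Inv (repA j n) (Lvl j n) := fun g f hf => Lvl_inv_perm j n g f hf

section
variable {G : Type*} [Group G]
variable {V : Type*} [NormedAddCommGroup V] [InnerProductSpace ℂ V]

/-- trace of a power of `Tx` on an invariant subspace -/
noncomputable def Rt (ρ : G →* (V ≃ₗᵢ[ℂ] V)) (W : Submodule ℂ V) (hW : Inv ρ W) (x : Fin 8 → G)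
    (m : ℕ) : ℝ := rtr (Tx (res ρ W hW) x ^ m)
end

end RC14
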